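import Pool.Agent.H940.R.Defs
import Pool.Agent.H940.F.Pair
import Pool.Agent.H940.G.Formal

set_option autoImplicit false
set_option linter.unusedSectionVars false
set_option linter.unusedVariables false

/-! # The roots of the singular points -/

namespace Pool.Agent.H940.R

open MvPolynomial Pool.Agent.Y229 Pool.Agent.Q57.MC Pool.Agent.Q57.MD
open Pool.Agent.H940.Z Pool.Agent.H940.G
open Pool.Agent.H940.F (sf_line)
open Pool.Agent.H940.LT (eval_homog)

section map

variable {K : Type} [Field K] (φ : K →+* ℂ) {n : ℕ}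

theorem coe_map' (P : MvPolynomial (Fin n) K) :
    ((map φ P : MvPolynomial (Fin n) ℂ) : MvPowerSeries (Fin n) ℂ) =
      MvPowerSeries.map φ (P : MvPowerSeries (Fin n) K) := by
  ext d
  rw [MvPolynomial.coeff_coe, coeff_map, MvPowerSeries.coeff_map, MvPolynomial.coeff_coe]

theorem map_aeval' (η : Fin n → MvPowerSeries (Fin n) K) (P : MvPolynomial (Fin n) K) :
    MvPowerSeries.map φ (aeval η P) = aeval (fun t => MvPowerSeries.map φ (η t)) (map φ P) := by
  have h1 : (MvPowerSeries.map φ : MvPowerSeries (Fin n) K →+* MvPowerSeries (Fin n) ℂ).comp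
      (aeval η : MvPolynomial (Fin n) K →ₐ[K] MvPowerSeries (Fin n) K).toRingHom =
      (aeval (fun t => MvPowerSeries.map φ (η t)) :
        MvPolynomial (Fin n) ℂ →ₐ[ℂ] MvPowerSeries (Fin n) ℂ).toRingHom.comp (map φ) := by
    apply MvPolynomial.ringHom_ext
    · intro a
      simp only [RingHom.comp_apply, AlgHom.toRingHom_eq_coe, RingHom.coe_coe, map_C, algHom_C]
      rw [MvPowerSeries.algebraMap_apply, MvPowerSeries.algebraMap_apply, MvPowerSeries.map_C]
      rfl
    · intro i
      simp only [RingHom.comp_apply, AlgHom.toRingHom_eq_coe, RingHom.coe_coe, map_X, aeval_X]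
  exact RingHom.congr_fun h1 P

theorem whk_map {h g : MvPolynomial (Fin n) K} {w : Fin n → ℕ} {N : ℕ}
    {η : Fin n → MvPowerSeries (Fin n) K} (H : WHK h g w N η) :
    WHG (map φ h) (map φ g) w N (fun t => MvPowerSeries.map φ (η t)) where
  wpos := H.wpos
  hom := by
    intro d hd
    refine H.hom fun h0 => hd ?_
    rw [coeff_map, h0, map_zero]
  crit := by
    intro v hv
    funext i
    obtain ⟨m, hm⟩ := H.crit i
    have h1 : Ideal.span (Set.range fun t => pderiv t g) ≤
        RingHom.ker ((eval v).comp (map φ)) := by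
      rw [Ideal.span_le]
      rintro _ ⟨t, rfl⟩
      rw [SetLike.mem_coe, RingHom.mem_ker, RingHom.comp_apply, ← pderiv_map]
      exact hv t
    have h2 := h1 hm
    rw [RingHom.mem_ker, RingHom.comp_apply, map_pow, map_pow, map_X, eval_X] at h2
    exact eq_zero_of_pow_eq_zero h2
  cc := by
    intro t
    rw [MvPowerSeries.constantCoeff_map, H.cc, map_zero]
  det := by
    have h1 : (Matrix.of fun u t => MvPowerSeries.coeff (Finsupp.single u 1)
        (MvPowerSeries.map φ (η t))) = φ.mapMatrix (Matrix.of fun u t =>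
          MvPowerSeries.coeff (Finsupp.single u 1) (η t)) := by
      ext1 u t
      rw [Matrix.of_apply, MvPowerSeries.coeff_map, RingHom.mapMatrix_apply, Matrix.map_apply,
        Matrix.of_apply]
    rw [h1, ← RingHom.map_det]
    exact (map_ne_zero φ).2 H.det
  gen := by
    have h1 := H.gen
    have h2 := congrArg (Ideal.map (MvPowerSeries.map φ)) h1
    rw [Ideal.map_span, Ideal.map_span, Set.image_singleton, Set.image_singleton, map_aeval',
      ← coe_map'] at h2
    exact h2

end map

theorem lwh_LH {n : ℕ} {f : MvPolynomial (Fin (n + 1)) ℂ} (H : LWH f) : LH f := by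
  intro i q h
  obtain ⟨g, w, N, η, h1⟩ := H i q h
  have h2 := whk_map (RingHom.id ℂ) h1
  rw [map_id, map_id] at h2
  exact ⟨g, w, N, _, h2⟩

section

variable {n : ℕ} {f : MvPolynomial (Fin (n + 1)) ℂ} {d : ℕ} (hd : 2 ≤ d) (hf : f.IsHomogeneous d)
  (hf0 : f ≠ 0)
include hd hf hf0

/-- **The root of a weighted homogeneous singular point.** -/
theorem sf_wgt {s : Fin (n + 1) × (Fin n → ℂ)} (h : Sg f (pt s)) {g : MvPolynomial (Fin n) ℂ}
    {w : Fin n → ℕ} {N : ℕ} {η : Fin n → MvPowerSeries (Fin n) ℂ}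
    (H : WHG (germAt s.1 s.2 f) g w N η) :
    SF (fun _ : Fin 1 => f) 0 (-((∑ i, w i : ℕ) : ℂ) / N) := by
  classical
  have hn := pos_of_sg hd hf hf0 (pt_ne s) h
  have h0 := cc_germ hd hf hf0 h
  have h1 := cc_pd_germ hd hf hf0 h
  have hW := whi H h0 h1
  have hne' : ∃ j : Fin 1, (fun _ : Fin 1 => g) j ≠ 0 := ⟨0, hW.ne hn⟩
  have hT : Transf (fun _ : Fin 1 => germAt s.1 s.2 f) (fun _ : Fin 1 => g) 0 :=
    transfer_formal (fun _ : Fin 1 => germAt s.1 s.2 f) (fun _ : Fin 1 => g) η id H.cc H.det (by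
      rw [Set.range_const, Set.range_const]
      exact H.gen)
  obtain ⟨j, hj⟩ := ne_of_transf _ _ 0 hT hne'
  exact sf_line f d hf s.1 s.2 hj _
    (sf_of_transf _ _ 0 hT hne' _ ((sf_iff _ hne' _).1 (hW.sf hn)))

/-- the root `-1` -/
theorem sf_one : SF (fun _ : Fin 1 => f) 0 (-1) := by
  refine sf_neg_one f hf0 0 ?_
  have h2 := eval_homog f d hf 0 0
  rw [zero_pow (by omega), zero_mul, zero_smul] at h2
  exact h2

end

end Pool.Agent.H940.R
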