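import Pool.Agent.H940.R.Tor2
import Pool.Agent.H940.G.Second

set_option autoImplicit false
set_option linter.unusedSectionVars false
set_option linter.unusedVariables false

/-! # The second torus over the rational numbers -/

namespace Pool.Agent.H940.R

open MvPolynomial
open Pool.Agent.H940.LT (dv)
open Pool.Agent.H940.R.LK

variable {n : ℕ}

theorem der_sum' {K : Type} [Field K] {m : ℕ}
    (F : Fin m → Derivation K (MvPolynomial (Fin m) K) (MvPolynomial (Fin m) K))
    (p : MvPolynomial (Fin m) K) : (∑ i, F i) p = ∑ i, F i p := by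
  have h1 : ((∑ i, F i : Derivation K (MvPolynomial (Fin m) K) (MvPolynomial (Fin m) K)) :
      MvPolynomial (Fin m) K → MvPolynomial (Fin m) K) = ∑ i, (F i : MvPolynomial (Fin m) K →
      MvPolynomial (Fin m) K) := map_sum Derivation.coeFnAddMonoidHom F Finset.univ
  rw [h1, Finset.sum_apply]

theorem Dl_eq {K : Type} [Field K] {m : ℕ} (T : Module.End K (Fin m → K))
    (p : MvPolynomial (Fin m) K) : LK.Dl T p = ∑ i, lf (T (Pi.single i 1)) * pderiv i p := by
  have h4 : LK.Dl T = ∑ i, lf (T (Pi.single i 1)) • pderiv i := by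
    refine derivation_ext fun j => ?_
    rw [Dl_X, der_sum', Finset.sum_eq_single j]
    · rw [Derivation.smul_apply, pderiv_X_self, smul_eq_mul, mul_one]
    · intro i _ hi
      rw [Derivation.smul_apply, pderiv_X_of_ne (Ne.symm hi), smul_zero]
    · intro h5
      exact absurd (Finset.mem_univ _) h5
  rw [h4, der_sum']
  exact Finset.sum_congr rfl fun i _ => by rw [Derivation.smul_apply, smul_eq_mul]

/-- **The second torus.** -/
theorem second_rat (f : MvPolynomial (Fin (n + 1)) ℚ) (d : ℕ) (hd : 1 ≤ d)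
    (hf : f.IsHomogeneous d) (η : Fin (n + 1) → MvPolynomial (Fin (n + 1)) ℂ)
    (hη : ∑ i, η i * pderiv i (map (algebraMap ℚ ℂ) f) = 0) (hdv : constantCoeff (dv η) ≠ 0) :
    ∃ (A B : Matrix (Fin (n + 1)) (Fin (n + 1)) ℚ) (w : Fin (n + 1) → ℤ),
      A * B = 1 ∧ B * A = 1 ∧ ∑ i, w i ≠ 0 ∧ (sb B f).IsHomogeneous d ∧
      ∀ α ∈ (sb B f).support, ∑ i, (α i : ℤ) * w i = 0 := by
  classical
  set F := map (algebraMap ℚ ℂ) f with hF
  have hFh : F.IsHomogeneous d := hf.map _
  set A : Matrix (Fin (n + 1)) (Fin (n + 1)) ℂ := fun i j => coeff (Finsupp.single j 1) (η i)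
    with hA
  have h1 : ∑ i, (∑ j, C (A i j) * X j) * pderiv i F = 0 := by
    have h2 := congrArg (homogeneousComponent (1 + (d - 1))) hη
    rw [map_sum, map_zero] at h2
    rw [← h2]
    refine Finset.sum_congr rfl fun i _ => ?_
    rw [G.hc_mul _ _ _ _ hFh.pderiv, G.hc_one]
    rfl
  have htr : ∑ i, A i i ≠ 0 := by
    intro h3
    apply hdv
    rw [← h3, dv, map_sum]
    refine Finset.sum_congr rfl fun i _ => ?_
    rw [constantCoeff_eq, coeff_pderiv]
    simp only [zero_add, Finsupp.coe_zero, Pi.zero_apply, Nat.cast_zero, mul_one]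
    rfl
  -- a rational matrix
  obtain ⟨φ, hφ⟩ : ∃ φ : Module.Dual ℚ ℂ, φ (∑ i, A i i) ≠ 0 := by
    by_contra hc
    push Not at hc
    exact htr ((Module.forall_dual_apply_eq_zero_iff ℚ _).1 hc)
  rw [map_sum] at hφ
  set Q : Matrix (Fin (n + 1)) (Fin (n + 1)) ℚ := fun i j => φ (A i j) with hQ
  set T : Module.End ℚ (Fin (n + 1) → ℚ) := Matrix.toLin' Q.transpose with hT
  have hTs : ∀ i, T (Pi.single i 1) = Q i := by
    intro i
    funext j
    rw [hT, Matrix.toLin'_apply, Matrix.mulVec_single_one]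
    rfl
  have hTt : LinearMap.trace ℚ _ T = ∑ i, φ (A i i) := by
    rw [hT, Matrix.trace_toLin'_eq]
    rfl
  have h2 : LK.Dl T f = 0 := by
    rw [Dl_eq]
    ext β
    rw [coeff_zero]
    have h3 := congrArg (coeff β) h1
    rw [coeff_zero, coeff_sum] at h3
    have h4 : ∀ i, coeff β ((∑ j, C (A i j) * X j) * pderiv i F) =
        ∑ j, A i j * ((coeff β (X j * pderiv i f) : ℚ) : ℂ) := by
      intro i
      rw [Finset.sum_mul, coeff_sum]
      refine Finset.sum_congr rfl fun j _ => ?_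
      rw [mul_assoc, coeff_C_mul]
      congr 1
      have h5 : (X j * pderiv i F : MvPolynomial (Fin (n + 1)) ℂ) =
          map (algebraMap ℚ ℂ) (X j * pderiv i f) := by
        rw [map_mul, map_X, ← pderiv_map]
      rw [h5, coeff_map]
      rfl
    rw [Finset.sum_congr rfl fun i _ => h4 i] at h3
    have h5 := congrArg φ h3
    rw [map_sum, map_zero] at h5
    rw [coeff_sum, ← h5]
    refine Finset.sum_congr rfl fun i _ => ?_
    rw [map_sum, hTs, lf_apply, Finset.sum_mul, coeff_sum]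
    refine Finset.sum_congr rfl fun j _ => ?_
    rw [mul_assoc, coeff_C_mul]
    have h6 : A i j * ((coeff β (X j * pderiv i f) : ℚ) : ℂ) =
        (coeff β (X j * pderiv i f) : ℚ) • A i j := by
      rw [Rat.smul_def, mul_comm]
    rw [h6, map_smul, smul_eq_mul, mul_comm]
  obtain ⟨Y, Z, lam, hYZ, hZY, htr2, hlam⟩ := rat_coords T f h2
  have h3 : ∑ i, lam i ≠ 0 := by
    rw [htr2, hTt]
    exact hφ
  obtain ⟨w, hw, hws⟩ := rat_weights lam h3 (sb Z f) hlam
  refine ⟨Y, Z, w, hYZ, hZY, hw, ?_, hws⟩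
  have h4 := hf.aeval (fun i => lf (Z i)) (n := 1) fun i => by
    rw [lf_apply]
    exact IsHomogeneous.sum _ _ _ fun j _ => by
      have := (isHomogeneous_C (Fin (n + 1)) (Z i j)).mul (isHomogeneous_X ℚ j)
      rwa [zero_add] at this
  rwa [one_mul] at h4

end Pool.Agent.H940.R
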