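import Pool.Agent.H940.R.Chart
import Pool.Agent.H940.R.Sec
import Pool.Agent.H940.R.Roots
import Pool.Graph.R_pool_sql_team_seeded_47a924f7.T6.H26.TSC

set_option autoImplicit false
set_option linter.unusedSectionVars false
set_option linter.unusedVariables false

/-! # The p-adic zeta functions of the forms with locally weighted homogeneous singularities -/

namespace Pool.Agent.H940.R

open MeasureTheory MvPolynomial Topology
open Pool.Agent.W427.SMC Pool.Agent.Y230.PS Pool.Agent.Q57.QP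
open Pool.Agent.Y230.PT hiding CO
open Pool.Agent.Q66.QP
open Pool.Agent.Y229 (SF sf_of_local)
open Pool.Agent.W574.RO (Forced)
open Pool.Agent.H940.G (Sg pt LH)
open scoped ENNReal

attribute [local instance] msK bsK msZ bsZ

variable {p : ℕ} [Fact p.Prime] {n : ℕ}

theorem lp_min {σ : Type} [Fintype σ] {m1 m2 m : ℂ → ℕ∞} {h : (σ → ℚ_[p]) → ℝ} {P : σ → ℚ_[p]}
    (H1 : LP m1 h P) (H2 : LP m2 h P) (hm : ∀ T, 1 < ‖T‖ → m1 T ≤ m T ∨ m2 T ≤ m T) :
    LP m h P := by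
  obtain ⟨U1, h1, h2, h3⟩ := H1
  obtain ⟨U2, h4, h5, h6⟩ := H2
  refine ⟨U1 ∩ U2, h1.inter h4, ⟨h2, h5⟩, fun V hV hc => ?_⟩
  have k1 := h3 V (hV.trans Set.inter_subset_left) hc
  have k2 := h6 V (hV.trans Set.inter_subset_right) hc
  intro T hT
  by_cases h7 : ‖T‖ ≤ 1
  · obtain ⟨M, hM, hR⟩ := k1 T hT
    refine ⟨M, ?_, hR⟩
    unfold Pool.Agent.Y230.PS.tr at hM ⊢
    rw [if_pos h7] at hM ⊢
    exact hM
  · rcases hm T (not_le.1 h7) with h8 | h8
    · obtain ⟨M, hM, hR⟩ := k1 T hT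
      refine ⟨M, ?_, hR⟩
      unfold Pool.Agent.Y230.PS.tr at hM ⊢
      rw [if_neg h7] at hM ⊢
      exact hM.trans h8
    · obtain ⟨M, hM, hR⟩ := k2 T hT
      refine ⟨M, ?_, hR⟩
      unfold Pool.Agent.Y230.PS.tr at hM ⊢
      rw [if_neg h7] at hM ⊢
      exact hM.trans h8

/-- linear coordinates -/
theorem lp_lin {σ : Type} [Fintype σ] (A : (σ → ℚ_[p]) ≃L[ℚ_[p]] (σ → ℚ_[p]))
    {h h' : (σ → ℚ_[p]) → ℝ} (m : ℂ → ℕ∞) (hh : ∀ x, h x = h' (A x)) (hs : Siz h')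
    (P : σ → ℚ_[p]) (H : LP m h' (A P)) : LP m h P :=
  (Pool.Agent.Q57.QP.qp_diffn Pool.Agent.Q210.QP.qp_iso Pool.Agent.Q210.QP.qp_lin) p A A P h h' m
    hs A.hasStrictFDerivAt (Filter.Eventually.of_forall hh) H

theorem rr_ratio (W e : ℕ) (hW : 0 < W) (he : 0 < e) (T : ℂ) (h : T ^ e = (p : ℂ) ^ W) :
    ((rr p T : ℝ) : ℂ) = -(W : ℂ) / e := by
  obtain ⟨k, rfl⟩ : ∃ k, W = k + 1 := ⟨W - 1, by omega⟩
  rw [rr_cone k e he T h]
  push_cast
  ring

open Classical in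
/-- `∞` for the numbers `T` such that the real part of the `s` with `T = p ^ (-s)` is a root -/
noncomputable def mF (p : ℕ) {σ : Type} [Fintype σ] (F : MvPolynomial σ ℂ) (T : ℂ) : ℕ∞ :=
  if SF (fun _ : Fin 1 => F) 0 ((rr p T : ℝ) : ℂ) then ⊤ else 0

theorem mF_top {σ : Type} [Fintype σ] {F : MvPolynomial σ ℂ} {T : ℂ}
    (h : SF (fun _ : Fin 1 => F) 0 ((rr p T : ℝ) : ℂ)) : mF p F T = ⊤ := by
  unfold mF
  rw [if_pos h]

/-- a weighted scaling of a weighted homogeneous polynomial -/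
theorem norm_wh {σ : Type} [Fintype σ] (a : σ → ℕ) (e : ℕ) {g : MvPolynomial σ ℚ_[p]}
    (hg : g.IsWeightedHomogeneous a e) (x : σ → ℚ_[p]) :
    ‖eval (sd (pp p a) x) g‖ = ‖(p : ℚ_[p])‖ ^ e * ‖eval x g‖ := by
  have h1 := sclp_wh (p := p) hg 1
  have h2 : cw p a 1 = pp p a := by
    unfold cw
    simp only [one_mul]
  rw [h2, one_mul] at h1
  have h3 := eval_sclp (pp p a) g x
  rw [h1, map_mul, eval_C] at h3
  have h4 : eval (sd (pp p a) x) g = (p : ℚ_[p]) ^ e * eval x g := h3.symm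
  rw [h4, norm_mul, norm_pow]

/-- **The vertex, when its number is a root.** -/
theorem lp_vertex (f : MvPolynomial (Fin (n + 1)) ℚ_[p]) (d : ℕ) (hd : 0 < d)
    (hf : f.IsHomogeneous d) (m : ℂ → ℕ∞)
    (hm : ∀ T : ℂ, 1 < ‖T‖ → T ^ d = (p : ℂ) ^ (n + 1) → m T = ⊤)
    (H : ∀ P : Fin (n + 1) → ℚ_[p], P ≠ 0 → LP m (fun x => ‖eval x f‖) P) :
    LP m (fun x => ‖eval x f‖) 0 := by
  refine lp_wcone (fun _ => 1) (by simp) d hd (siz_ev f) (norm_wh _ d ?_) m m (fun T hT => ?_) H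
  · exact hf
  · by_cases h : T ^ d = (p : ℂ) ^ (∑ i : Fin (n + 1), 1)
    · rw [hm T hT (by simpa using h)]
      exact le_top
    · rw [if_neg h, zero_add]

/-- **The vertex, with a second torus.** -/
theorem lp_second (f g : MvPolynomial (Fin (n + 1)) ℚ_[p]) (d : ℕ) (hd : 0 < d)
    (hg : g.IsHomogeneous d) (A : (Fin (n + 1) → ℚ_[p]) ≃L[ℚ_[p]] (Fin (n + 1) → ℚ_[p]))
    (hA : ∀ x, ‖eval x g‖ = ‖eval (A x) f‖) (w : Fin (n + 1) → ℤ) (hw : ∑ i, w i ≠ 0)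
    (hgw : ∀ α ∈ g.support, ∑ i, (α i : ℤ) * w i = 0) (m : ℂ → ℕ∞)
    (H : ∀ P : Fin (n + 1) → ℚ_[p], P ≠ 0 → LP m (fun x => ‖eval x f‖) P) :
    LP m (fun x => ‖eval x f‖) 0 := by
  classical
  have hgP : ∀ P : Fin (n + 1) → ℚ_[p], P ≠ 0 → LP m (fun x => ‖eval x g‖) P := fun P hP =>
    lp_lin A m hA (siz_ev f) P (H _ fun h => hP (by
      rw [← A.map_zero] at h
      exact A.injective h))
  -- the weights
  set c₀ : ℕ := 1 + ∑ i, (w i).natAbs with hc₀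
  have hpos : ∀ c ≥ c₀, ∀ i, 0 < w i + c := by
    intro c hc i
    have h6 : (w i).natAbs ≤ ∑ i, (w i).natAbs :=
      Finset.single_le_sum (f := fun i => (w i).natAbs) (fun i _ => Nat.zero_le _)
        (Finset.mem_univ i)
    omega
  have hwh : ∀ c ≥ c₀, g.IsWeightedHomogeneous (fun i => (w i + c).toNat) (c * d) := by
    intro c hc α hα
    have h6 : ∑ i, α i = d := by
      have := hg hα
      rw [Finsupp.weight_apply, Finsupp.sum_fintype _ _ (by simp)] at this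
      simpa using this
    rw [Finsupp.weight_apply, Finsupp.sum_fintype _ _ (by simp)]
    have h7 : ((∑ i, α i • (w i + c).toNat : ℕ) : ℤ) = ((c * d : ℕ) : ℤ) := by
      have h8 : ∀ i, ((α i • (w i + c).toNat : ℕ) : ℤ) = (α i : ℤ) * w i + α i * c := by
        intro i
        rw [smul_eq_mul, Nat.cast_mul, Int.toNat_of_nonneg (hpos c hc i).le]
        ring
      rw [Nat.cast_sum, Finset.sum_congr rfl fun i _ => h8 i, Finset.sum_add_distrib,
        hgw α (mem_support_iff.2 hα), zero_add, ← Finset.sum_mul, ← Nat.cast_sum, h6]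
      push_cast
      ring
    exact_mod_cast h7
  have hsum : ∀ c ≥ c₀, ((∑ i, (w i + c).toNat : ℕ) : ℤ) = ∑ i, w i + (n + 1 : ℕ) * c := by
    intro c hc
    rw [Nat.cast_sum]
    have h2 : ∀ i, (((w i + c).toNat : ℕ) : ℤ) = w i + c := fun i =>
      Int.toNat_of_nonneg (hpos c hc i).le
    rw [Finset.sum_congr rfl fun i _ => h2 i, Finset.sum_add_distrib, Finset.sum_const,
      Finset.card_univ, Fintype.card_fin, nsmul_eq_mul]
  have hWpos : ∀ c ≥ c₀, 0 < ∑ i, (w i + c).toNat := fun c hc =>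
    Finset.sum_pos (fun i _ => by
      have := hpos c hc i
      omega) ⟨0, Finset.mem_univ _⟩
  have hcd : ∀ c ≥ c₀, 0 < c * d := fun c hc => Nat.mul_pos (by omega) hd
  -- the vertex with one candidate
  have key : ∀ c ≥ c₀, LP (fun T => (if T ^ (c * d) = (p : ℂ) ^ (∑ i, (w i + c).toNat) then 1
      else 0) + m T) (fun x => ‖eval x f‖) 0 := by
    intro c hc
    refine lp_lin A.symm _ (h' := fun x => ‖eval x g‖) (fun x => ?_) (siz_ev g) 0 ?_
    · rw [hA, A.apply_symm_apply]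
    · rw [A.symm.map_zero]
      exact lp_wcone (fun i => (w i + c).toNat) (hWpos c hc) (c * d) (hcd c hc) (siz_ev g)
        (norm_wh _ _ (hwh c hc)) m _ (fun T _ => le_rfl) hgP
  refine lp_min (key c₀ le_rfl) (key (c₀ + 1) (Nat.le_succ _)) fun T hT => ?_
  by_cases h1 : T ^ (c₀ * d) = (p : ℂ) ^ (∑ i, (w i + c₀).toNat)
  swap
  · left
    rw [if_neg h1, zero_add]
  · right
    rw [if_neg, zero_add]
    intro h2
    have h3 := rr_ratio _ _ (hWpos c₀ le_rfl) (hcd c₀ le_rfl) T h1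
    have h4 := rr_ratio _ _ (hWpos (c₀ + 1) (Nat.le_succ _)) (hcd (c₀ + 1) (Nat.le_succ _)) T h2
    rw [h3, neg_div, neg_div, neg_inj, div_eq_div_iff
      (by exact_mod_cast (hcd c₀ le_rfl).ne')
      (by exact_mod_cast (hcd (c₀ + 1) (Nat.le_succ _)).ne')] at h4
    have h5 : ((∑ i, (w i + (c₀ : ℕ)).toNat : ℕ) : ℤ) * (((c₀ + 1) * d : ℕ) : ℤ) =
        ((∑ i, (w i + ((c₀ + 1 : ℕ) : ℤ)).toNat : ℕ) : ℤ) * ((c₀ * d : ℕ) : ℤ) := by
      exact_mod_cast h4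
    rw [hsum c₀ le_rfl, hsum (c₀ + 1) (Nat.le_succ _)] at h5
    apply hw
    have hd' : (d : ℤ) ≠ 0 := by exact_mod_cast hd.ne'
    push_cast at h5
    have h6 : (∑ i, w i) * d = 0 := by linear_combination h5
    exact (mul_eq_zero.1 h6).resolve_right hd'

end Pool.Agent.H940.R
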