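import Pool.Agent.H940.R.Main
import Pool.Agent.H940.G.Main

set_option autoImplicit false
set_option linter.unusedSectionVars false
set_option linter.unusedVariables false

/-! # The p-adic zeta functions of the forms with locally weighted homogeneous singularities -/

namespace Pool.Agent.H940.R

open MeasureTheory MvPolynomial Topology
open Pool.Agent.W427.SMC Pool.Agent.Y230.PS Pool.Agent.Q57.QP
open Pool.Agent.Y230.PT hiding CO
open Pool.Agent.Q66.QP
open Pool.Agent.Y229 (SF sf_of_local exists_fe)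
open Pool.Agent.W574.LM (IsLocEq)
open Pool.Agent.W574.RO (Forced)
open Pool.Agent.Q57.MC (sf_forced)
open Pool.Agent.H940.G (Sg pt LH pt_ne pos_of_sg lty)
open Pool.Agent.H940.LT (eval_homog euler_hom LTy hom_lty root_or_field dv)
open scoped ENNReal

attribute [local instance] msK bsK msZ bsZ

variable {n : ℕ}

section

variable {f : MvPolynomial (Fin (n + 1)) ℂ} {d : ℕ} (hd : 2 ≤ d) (hf : f.IsHomogeneous d)
  (hf0 : f ≠ 0) (H : LH f)
include hd hf hf0 H

/-- **The root of the vertex, or a vector field.** -/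
theorem sf_or_field : SF (fun _ : Fin 1 => f) 0 (-((n + 1 : ℕ) : ℂ) / d) ∨
    ∃ η : Fin (n + 1) → MvPolynomial (Fin (n + 1)) ℂ, ∑ i, η i * pderiv i f = 0 ∧
      constantCoeff (dv η) ≠ 0 := by
  classical
  rw [or_iff_not_imp_left]
  intro hSF
  obtain ⟨H', b, hb, hH', hbα⟩ : ∃ (H' : MvPolynomial (Fin (n + 1)) ℂ) (b : Polynomial ℂ),
      IsLocEq H' (fun _ : Fin 1 => f) b ∧ eval 0 H' ≠ 0 ∧ b.eval (-((n + 1 : ℕ) : ℂ) / d) ≠ 0 := by
    by_contra hc
    push Not at hc
    exact hSF (sf_of_local _ _ _ (fun H' b hb hH => hc H' b hb hH) (exists_fe _ ⟨0, hf0⟩))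
  obtain ⟨P, hP⟩ := Pool.Agent.Q57.MC.eq_of_locEq1 H' _ b hb
  have hd0 : (d : ℂ) ≠ 0 := by
    have : d ≠ 0 := by omega
    exact_mod_cast this
  have hc0 : constantCoeff f = 0 := by
    have h2 := eval_homog f d hf 0 0
    rw [zero_pow (by omega), zero_mul, zero_smul, eval_zero] at h2
    exact h2
  have hdv : constantCoeff (dv fun i : Fin (n + 1) => (X i : MvPolynomial (Fin (n + 1)) ℂ)) =
      ((n + 1 : ℕ) : ℂ) := by
    unfold dv
    rw [map_sum]
    simp only [pderiv_X_self, map_one]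
    rw [Finset.sum_const, Finset.card_univ, Fintype.card_fin, nsmul_eq_mul, mul_one]
  rcases root_or_field f hf0 hc0 (lty hd hf hf0 H) (fun i => X i) d hd0 (euler_hom f d hf)
    (fun i => by rw [constantCoeff_X]) H' (by rwa [eval_zero] at hH') b P hP with h1 | ⟨η, h1, h2⟩
  · rw [hdv] at h1
    exact absurd h1 hbα
  · exact ⟨η, h1, h2⟩

end

variable {p : ℕ} [Fact p.Prime]

theorem map_C_eq (φ : ℚ_[p] →+* ℂ) (f : MvPolynomial (Fin (n + 1)) ℚ) :
    map φ (map (algebraMap ℚ ℚ_[p]) f) = map (algebraMap ℚ ℂ) f := by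
  have h : φ.comp (algebraMap ℚ ℚ_[p]) = algebraMap ℚ ℂ := RingHom.ext_rat _ _
  rw [map_map, h]

theorem eval_map_phi {σ : Type} (φ : ℚ_[p] →+* ℂ) (P : σ → ℚ_[p]) (q : MvPolynomial σ ℚ_[p]) :
    eval (fun i => φ (P i)) (map φ q) = φ (eval P q) := by
  have h : (eval (fun i => φ (P i))).comp (map φ) = φ.comp (eval P) := by
    apply MvPolynomial.ringHom_ext
    · intro a
      simp
    · intro i
      simp
  exact RingHom.congr_fun h q

/-- the point of the chart -/
theorem insertNth_div (i : Fin (n + 1)) (P : Fin (n + 1) → ℚ_[p]) (hi : P i ≠ 0) :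
    (i.insertNth (1 : ℚ_[p]) (fun t => P (i.succAbove t) / P i) : Fin (n + 1) → ℚ_[p]) =
      fun j => (P i)⁻¹ * P j := by
  funext l
  refine Fin.succAboveCases i ?_ (fun t => ?_) l
  · rw [Fin.insertNth_apply_same, inv_mul_cancel₀ hi]
  · rw [Fin.insertNth_apply_succAbove, div_eq_inv_mul]

/-- **The integrals near all points.** -/
theorem lh_LP (f : MvPolynomial (Fin (n + 1)) ℚ) (d : ℕ) (hd : 2 ≤ d) (hf : f.IsHomogeneous d)
    (hf0 : f ≠ 0) (HC : LWH (map (algebraMap ℚ ℂ) f)) (Hp : LWH (map (algebraMap ℚ ℚ_[p]) f))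
    (P : Fin (n + 1) → ℚ_[p]) :
    LP (mF p (map (algebraMap ℚ ℂ) f)) (fun x => ‖eval x (map (algebraMap ℚ ℚ_[p]) f)‖) P := by
  classical
  obtain ⟨φ⟩ := exists_emb p
  set F := map (algebraMap ℚ ℂ) f with hF
  set fp := map (algebraMap ℚ ℚ_[p]) f with hfp
  have hφ : map φ fp = F := map_C_eq φ f
  have hFh : F.IsHomogeneous d := hf.map _
  have hfh : fp.IsHomogeneous d := hf.map _
  have hF0 : F ≠ 0 := fun h => hf0 ((map_eq_zero_iff _
    (map_injective _ (algebraMap ℚ ℂ).injective)).1 h)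
  have hm1 : ∀ T : ℂ, m1 p T ≤ mF p F T := by
    intro T
    unfold m1
    split_ifs with h
    · rw [mF_top]
      · exact le_top
      · rw [h, rr_self]
        have := sf_one hd hFh hF0
        simpa using this
    · exact bot_le
  have hne : ∀ P : Fin (n + 1) → ℚ_[p], P ≠ 0 → LP (mF p F) (fun x => ‖eval x fp‖) P := by
    intro P hP
    by_cases hs : eval P fp ≠ 0 ∨ ∃ i, eval P (pderiv i fp) ≠ 0
    · exact lp_mono (fun T _ => hm1 T) (lp_smooth fp P hs)
    · push Not at hs
      obtain ⟨-, hs⟩ := hs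
      obtain ⟨i, hi⟩ : ∃ i, P i ≠ 0 := by
        by_contra hcon
        push Not at hcon
        exact hP (funext hcon)
      set q : Fin n → ℚ_[p] := fun t => P (i.succAbove t) / P i with hq
      have hsq : ∀ j, eval (i.insertNth 1 q) (pderiv j fp) = 0 := by
        intro j
        rw [hq, insertNth_div i P hi, eval_hom (pderiv j fp) (d - 1) hfh.pderiv, hs, mul_zero]
      obtain ⟨g, w, N, η, hW⟩ := Hp i q hsq
      have hSg : Sg F (Pool.Agent.H940.G.pt (i, fun t => φ (q t))) := by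
        intro j
        have h1 : Pool.Agent.H940.G.pt (i, fun t => φ (q t)) = fun l => φ ((i.insertNth 1 q : Fin (n + 1) → ℚ_[p]) l) := by
          unfold Pool.Agent.H940.G.pt
          funext l
          refine Fin.succAboveCases i ?_ (fun t => ?_) l
          · rw [Fin.insertNth_apply_same, Fin.insertNth_apply_same, map_one]
          · rw [Fin.insertNth_apply_succAbove, Fin.insertNth_apply_succAbove]
        rw [h1, ← hφ, pderiv_map, eval_map_phi, hsq, map_zero]
      have hn := pos_of_sg hd hFh hF0 (pt_ne _) hSg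
      have hWC := whk_map φ hW
      rw [map_germ, hφ] at hWC
      have hroot := sf_wgt hd hFh hF0 hSg hWC
      have hwpos : 0 < ∑ i, w i := Finset.sum_pos (fun i _ => hW.wpos i) ⟨⟨0, hn⟩, Finset.mem_univ _⟩
      refine lp_chart fp d hfh i P hi _ (lp_germ hW hn _ fun T hT => ?_)
      by_cases h1 : T ^ N = (p : ℂ) ^ (∑ i, w i)
      · rw [mF_top]
        · exact le_top
        · rw [rr_ratio _ _ hwpos (hW.npos hn) T h1]
          exact hroot
      · rw [if_neg h1, zero_add]
        exact hm1 T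
  by_cases hP : P = 0
  swap
  · exact hne P hP
  subst hP
  rcases sf_or_field hd hFh hF0 (lwh_LH HC) with h1 | ⟨η, h1, h2⟩
  · refine lp_vertex fp d (by omega) hfh _ (fun T hT hTd => ?_) hne
    apply mF_top
    rw [rr_ratio _ _ (Nat.succ_pos n) (by omega) T hTd]
    exact h1
  · obtain ⟨A, B, w, hAB, hBA, hw, hgh, hgw⟩ := second_rat f d (by omega) hf η h1 h2
    have hBp : (B.map (algebraMap ℚ ℚ_[p])) * (A.map (algebraMap ℚ ℚ_[p])) = 1 := by
      rw [← Matrix.map_mul, hBA, Matrix.map_one _ (map_zero _) (map_one _)]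
    have hAp : (A.map (algebraMap ℚ ℚ_[p])) * (B.map (algebraMap ℚ ℚ_[p])) = 1 := by
      rw [← Matrix.map_mul, hAB, Matrix.map_one _ (map_zero _) (map_one _)]
    set L : (Fin (n + 1) → ℚ_[p]) ≃L[ℚ_[p]] (Fin (n + 1) → ℚ_[p]) :=
      (Matrix.toLin'OfInv hAp hBp).toContinuousLinearEquiv with hL
    have hLa : ∀ x, L x = (B.map (algebraMap ℚ ℚ_[p])).mulVec x := by
      intro x
      rfl
    refine lp_second fp (map (algebraMap ℚ ℚ_[p]) (LK.sb B f)) d (by omega) (hgh.map _) L
      (fun x => ?_) w hw (fun α hα => hgw α (support_map_subset _ _ hα)) _ hne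
    congr 1
    rw [hLa, hfp, eval_map, eval_map]
    unfold LK.sb
    rw [← coe_eval₂Hom, ← coe_eval₂Hom]
    have h3 : ((eval₂Hom (algebraMap ℚ ℚ_[p]) x).comp
        (aeval fun i => LK.lf (B i) : MvPolynomial (Fin (n + 1)) ℚ →ₐ[ℚ] _).toRingHom) =
        eval₂Hom (algebraMap ℚ ℚ_[p]) ((B.map (algebraMap ℚ ℚ_[p])).mulVec x) := by
      apply MvPolynomial.ringHom_ext
      · intro a
        simp
      · intro i
        rw [RingHom.comp_apply, eval₂Hom_X']
        simp only [AlgHom.toRingHom_eq_coe, RingHom.coe_coe, aeval_X]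
        rw [LK.lf_apply, map_sum]
        unfold Matrix.mulVec dotProduct
        refine Finset.sum_congr rfl fun j _ => ?_
        rw [map_mul, eval₂Hom_C, eval₂Hom_X']
        simp only [Matrix.map_apply]
    exact RingHom.congr_fun h3 f

/-- **The real parts of the poles are roots.** -/
theorem lh_ZR (f : MvPolynomial (Fin (n + 1)) ℚ) (d : ℕ) (hd : 2 ≤ d) (hf : f.IsHomogeneous d)
    (hf0 : f ≠ 0) (HC : LWH (map (algebraMap ℚ ℂ) f)) (Hp : LWH (map (algebraMap ℚ ℚ_[p]) f)) :
    Pool.Agent.T6.H26.ZR p false (hyp f) := by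
  classical
  refine ⟨⟨(0 : Fin 1), hf0⟩, ?_⟩
  simp only [Bool.false_eq_true, if_false]
  have h1 := st_ff p (FamQ.toP p (hyp f)) (mR p (hyp f)) (fun P => ?_) (fun _ => 1)
    (fun _ => one_ne_zero)
  · rw [scl_one] at h1
    exact h1
  · have h2 := lh_LP f d hd hf hf0 HC Hp P
    have h3 : nrm (FamQ.toP p (hyp f)) = fun x => ‖eval x (map (algebraMap ℚ ℚ_[p]) f)‖ := by
      funext x
      unfold nrm
      have h4 : (fun j => eval x (FamQ.toP p (hyp f) j)) =
          fun _ : Fin 1 => eval x (map (algebraMap ℚ ℚ_[p]) f) := rfl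
      rw [h4, pi_norm_const]
    rw [h3]
    refine lp_mono (fun T _ => ?_) h2
    unfold mF
    split_ifs with h5
    · rw [mR_top (sf_forced h5)]
    · exact bot_le

end Pool.Agent.H940.R
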