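import Pool.Agent.H940.R.Sqh2

set_option autoImplicit false
set_option linter.unusedSectionVars false
set_option linter.unusedVariables false

/-! # p-adic integrals near semi-weighted homogeneous isolated singularities -/

namespace Pool.Agent.H940.R

open MeasureTheory MvPolynomial Topology
open Pool.Agent.W427.SMC Pool.Agent.Y230.PS Pool.Agent.Q57.QP
open Pool.Agent.Y230.PT hiding CO
open Pool.Agent.Q66.QP
open scoped ENNReal

attribute [local instance] msK bsK msZ bsZ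

variable {p : ℕ} [Fact p.Prime] {σ : Type} [Fintype σ]

/-- a recursion with a limit -/
theorem rec_lim (a : ℕ → ℝ) (q b c : ℝ) (J : ℕ) (hq0 : 0 ≤ q) (hq1 : q < 1)
    (h : ∀ j ≥ J, a j = q ^ j * b + a (j + 1)) (ha0 : ∀ j, 0 ≤ a j) (r : ℝ) (hr0 : 0 ≤ r)
    (hr1 : r < 1) (ha : ∀ j, a j ≤ c * r ^ j) (j : ℕ) (hj : J ≤ j) :
    a j = q ^ j * b + q * a j := by
  have hD : ∀ k, a (j + k) * (1 - q) - q ^ (j + k) * b = a j * (1 - q) - q ^ j * b := by
    intro k
    induction k with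
    | zero => rfl
    | succ k ih =>
      rw [← ih, ← Nat.add_assoc]
      have h1 := h (j + k) (by omega)
      rw [pow_succ]
      linear_combination (-(1 - q)) * h1
  have hlim : Filter.Tendsto (fun k => a (j + k) * (1 - q) - q ^ (j + k) * b) Filter.atTop
      (𝓝 (0 * (1 - q) - 0 * b)) := by
    have h1 : Filter.Tendsto a Filter.atTop (𝓝 0) := by
      refine squeeze_zero ha0 ha ?_
      have := (tendsto_pow_atTop_nhds_zero_of_lt_one hr0 hr1).const_mul c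
      rwa [mul_zero] at this
    have h2 := tendsto_pow_atTop_nhds_zero_of_lt_one hq0 hq1
    have h3 : Filter.Tendsto (fun k => j + k) Filter.atTop Filter.atTop :=
      Filter.tendsto_atTop_mono (fun k => Nat.le_add_left k j) Filter.tendsto_id
    exact ((h1.comp h3).mul_const _).sub ((h2.comp h3).mul_const _)
  simp only [hD] at hlim
  have h4 := tendsto_nhds_unique tendsto_const_nhds hlim
  linear_combination h4

section

variable {w : σ → ℕ} (hw : ∀ i, 0 < w i) {e : ℕ} (he : 0 < e) {g R : MvPolynomial σ ℚ_[p]}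
  (hg : g.IsWeightedHomogeneous w e) (hR : ∀ α ∈ R.support, e < Finsupp.weight w α)
  (hcrit : ∀ x : σ → ℚ_[p], (∀ i, eval x (pderiv i g) = 0) → x = 0)
include hw he hg hR hcrit

/-- the equation for the integrals over the boxes -/
theorem box_eq (hn : Nonempty σ) : ∃ J : ℕ, (∀ j ≥ J, ∀ s : ℝ, 0 ≤ s →
    IZ (fun x => ‖eval x (g + R)‖) (Wj p w j) s =
      (((qr p : ℝ) : ℂ) ^ (∑ i, w i) * ((tr' p s : ℝ) : ℂ) ^ e) ^ j *
        IZ (fun x => ‖eval x g‖) (S0 p w) s +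
      ((qr p : ℝ) : ℂ) ^ (∑ i, w i) * ((tr' p s : ℝ) : ℂ) ^ e *
        IZ (fun x => ‖eval x (g + R)‖) (Wj p w j) s) ∧
    ∀ P ∈ Wj p w J, P ≠ 0 → ∃ i, eval P (pderiv i (g + R)) ≠ 0 := by
  obtain ⟨J, h1, h2⟩ := exists_j2 hw he hg hR hcrit
  refine ⟨J, fun j hj s hs => ?_, h2⟩
  set F := g + R with hF
  have hW : 0 < ∑ i, w i := by
    obtain ⟨i⟩ := hn
    exact lt_of_lt_of_le (hw i) (Finset.single_le_sum (fun i _ => Nat.zero_le _)
      (Finset.mem_univ i))
  set q : ℝ := qr p ^ (∑ i, w i) * tr' p s ^ e with hq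
  have hq0 : 0 ≤ q := mul_nonneg (pow_nonneg qr_pos.le _) (pow_nonneg (tr'_pos p s).le _)
  have hr1 : qr p ^ (∑ i, w i) < 1 := pow_lt_one₀ qr_pos.le qr_lt_one hW.ne'
  have hq1 : q < 1 := by
    have h3 : tr' p s ^ e ≤ 1 := pow_le_one₀ (tr'_pos p s).le (tr'_le_one' hs)
    have h4 : 0 < qr p ^ (∑ i, w i) := pow_pos qr_pos _
    calc q ≤ qr p ^ (∑ i, w i) * 1 := mul_le_mul_of_nonneg_left h3 h4.le
      _ < 1 := by rw [mul_one]; exact hr1
  have hSF : Siz fun x : σ → ℚ_[p] => ‖eval x F‖ := siz_ev F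
  have hSg : Siz fun x : σ → ℚ_[p] => ‖eval x g‖ := siz_ev g
  set a : ℕ → ℝ := fun k => (∫⁻ x in Wj p w k, ENNReal.ofReal (‖eval x F‖ ^ s) ∂(muE p σ)).toReal
    with ha
  set b : ℝ := (∫⁻ x in S0 p w, ENNReal.ofReal (‖eval x g‖ ^ s) ∂(muE p σ)).toReal with hb
  have hrec : ∀ k ≥ J, a k = q ^ k * b + a (k + 1) := by
    intro k hk
    have e1 : Wj p w k = (Wj p w k \ Wj p w (k + 1)) ∪ Wj p w (k + 1) :=
      (Set.sdiff_union_of_subset (Wj_sub w k)).symm
    have hco := co_sdiff (co_Wj (p := p) w k) (co_Wj w (k + 1))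
    have e2 : ∫⁻ x in Wj p w k, ENNReal.ofReal (‖eval x F‖ ^ s) ∂(muE p σ) =
        ∫⁻ x in Wj p w k \ Wj p w (k + 1), ENNReal.ofReal (‖eval x F‖ ^ s) ∂(muE p σ) +
        ∫⁻ x in Wj p w (k + 1), ENNReal.ofReal (‖eval x F‖ ^ s) ∂(muE p σ) := by
      conv_lhs => rw [e1]
      exact lintegral_union (co_meas (co_Wj w (k + 1))) Set.disjoint_sdiff_left
    simp only [ha]
    rw [e2, ENNReal.toReal_add (iz_fin hSF hco hs) (iz_fin hSF (co_Wj w (k + 1)) hs), h1 k hk s,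
      ENNReal.toReal_mul, ENNReal.toReal_pow, ENNReal.toReal_mul, ENNReal.toReal_pow,
      ENNReal.toReal_pow, toReal_pinv, N_p, Tt_toReal]
  obtain ⟨δ, hδ, hδF⟩ := exists_bound F
  have hab : ∀ k, a k ≤ δ ^ s * (muE p σ (Metric.closedBall 0 1)).toReal *
      (qr p ^ (∑ i, w i)) ^ k := by
    intro k
    have h3 : ∫⁻ x in Wj p w k, ENNReal.ofReal (‖eval x F‖ ^ s) ∂(muE p σ) ≤
        ENNReal.ofReal (δ ^ s) * muE p σ (Wj p w k) := by
      rw [← setLIntegral_const]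
      refine setLIntegral_mono' (co_meas (co_Wj w k)) fun x hx => ?_
      exact ENNReal.ofReal_le_ofReal (Real.rpow_le_rpow (norm_nonneg _)
        (poly_lip F δ hδ hδF x x (Wj_norm1 w k hx) (Wj_norm1 w k hx)).1 hs)
    have h4 : muE p σ (Wj p w k) = (((p : ℝ≥0∞)⁻¹) ^ (∑ i, w i)) ^ k *
        muE p σ (Metric.closedBall 0 1) := by
      have h5 := int_sd (cw p w k) (cw_ne w k) (co_meas (co_ball (0 : σ → ℚ_[p]) one_pos))
        (fun _ => 1)
      rw [setLIntegral_const, setLIntegral_const, one_mul, one_mul] at h5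
      unfold cw at h5
      rw [prod_pp, ← Finset.mul_sum, mul_comm k, pow_mul] at h5
      exact h5
    have h6 : muE p σ (Metric.closedBall (0 : σ → ℚ_[p]) 1) ≠ ⊤ :=
      (isCompact_closedBall _ _).measure_lt_top.ne
    have h7 : ENNReal.ofReal (δ ^ s) * muE p σ (Wj p w k) ≠ ⊤ :=
      ENNReal.mul_ne_top ENNReal.ofReal_ne_top (co_Wj w k).1.measure_lt_top.ne
    have h8 := ENNReal.toReal_mono h7 h3
    rw [ENNReal.toReal_mul, h4, ENNReal.toReal_mul, ENNReal.toReal_pow, ENNReal.toReal_pow,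
      toReal_pinv, ENNReal.toReal_ofReal (Real.rpow_nonneg hδ s)] at h8
    refine h8.trans (le_of_eq ?_)
    ring
  have key := rec_lim a q b _ J hq0 hq1 hrec (fun k => ENNReal.toReal_nonneg) _
    (pow_nonneg qr_pos.le _) hr1 hab j hj
  have h9 : IZ (fun x => ‖eval x F‖) (Wj p w j) s = ((a j : ℝ) : ℂ) := rfl
  have h10 : IZ (fun x => ‖eval x g‖) (S0 p w) s = ((b : ℝ) : ℂ) := rfl
  rw [h9, h10]
  have h11 := congrArg (fun z : ℝ => (z : ℂ)) key
  simp only [Complex.ofReal_add, Complex.ofReal_mul, Complex.ofReal_pow, hq] at h11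
  exact h11

/-- **Semi-weighted homogeneous isolated singularities.** -/
theorem lp_sqh [DecidableEq σ] (hn : Nonempty σ) (m : ℂ → ℕ∞)
    (hm : ∀ T0 : ℂ, 1 < ‖T0‖ → (if T0 ^ e = (p : ℂ) ^ (∑ i, w i) then 1 else 0) + m1 p T0 ≤ m T0) :
    LP m (fun x => ‖eval x (g + R)‖) 0 := by
  obtain ⟨J, h1, h2⟩ := box_eq hw he hg hR hcrit hn
  set F := g + R with hF
  have hW : 0 < ∑ i, w i := by
    obtain ⟨i⟩ := hn
    exact lt_of_lt_of_le (hw i) (Finset.single_le_sum (fun i _ => Nat.zero_le _)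
      (Finset.mem_univ i))
  have hmm : ∀ T0 : ℂ, 1 < ‖T0‖ → m1 p T0 ≤ m T0 := fun T0 hT0 => le_add_self.trans (hm T0 hT0)
  have hSF : Siz fun x : σ → ℚ_[p] => ‖eval x F‖ := siz_ev F
  -- compact open sets without the origin
  have hsm : ∀ V : Set (σ → ℚ_[p]), CO V → V ⊆ Wj p w J → (0 : σ → ℚ_[p]) ∉ V →
      FR p (m1 p) (IZ (fun x => ‖eval x F‖) V) := fun V hV hVJ h0 =>
    Pool.Agent.Q261.QP.qp_glue p _ hSF _ V hV fun P hP =>
      lp_smooth F P (Or.inr (h2 P (hVJ hP) fun h3 => h0 (h3 ▸ hP)))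
  -- boxes
  have hbox : ∀ j ≥ J, FR p m (IZ (fun x => ‖eval x F‖) (Wj p w j)) := by
    intro j hj
    have hb : FR p (m1 p) (IZ (fun x => ‖eval x g‖) (S0 p w)) :=
      Pool.Agent.Q261.QP.qp_glue p _ (siz_ev g) _ _ (co_S0 w) fun P hP =>
        lp_smooth g P (Or.inr (by
          by_contra hc
          push Not at hc
          exact S0_ne w hP (hcrit P hc)))
    have hq : ∀ T0 : ℂ, T0 ≠ 0 → Reg p T0 0 (fun s =>
        (((qr p : ℝ) : ℂ) ^ (∑ i, w i) * ((tr' p s : ℝ) : ℂ) ^ e) ^ j) := fun T0 _ =>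
      ((Reg.const _).mul0 (Reg.t.pow e)).pow j
    exact geo_solve hW he hm (FR.mul0 hq hb) fun s hs => h1 j hj s hs
  refine ⟨Wj p w J, (co_Wj w J).2, zero_mem_Wj w J,
    Pool.Agent.Q261.QP.qp_ball p _ hSF m _ (co_Wj w J).2 ?_⟩
  intro c k hck
  have hpk : 0 < (p : ℝ) ^ k := zpow_pos pR0 k
  have hco : CO (Metric.closedBall c ((p : ℝ) ^ k)) := co_ball c hpk
  by_cases h0 : (0 : σ → ℚ_[p]) ∈ Metric.closedBall c ((p : ℝ) ^ k)
  swap
  · exact (hsm _ hco hck h0).mono hmm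
  · have hc : Metric.closedBall c ((p : ℝ) ^ k) = Metric.closedBall 0 ((p : ℝ) ^ k) :=
      IsUltrametricDist.closedBall_eq_of_mem h0
    rw [hc] at hco hck ⊢
    obtain ⟨J', hJ'⟩ := exists_small (p := p) 1 ((p : ℝ) ^ k) hpk
    set j := max J J' with hj
    have hsub : Wj p w j ⊆ Metric.closedBall 0 ((p : ℝ) ^ k) := by
      intro x hx
      rw [Metric.mem_closedBall, dist_zero_right]
      have h3 := hJ' j (le_max_right _ _)
      rw [one_mul] at h3
      exact (Wj_norm hw hx).trans h3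
    have hd := co_sdiff hco (co_Wj w j)
    have h4 := (hsm _ hd (Set.sdiff_subset.trans hck) fun h5 => h5.2 (zero_mem_Wj w j)).mono hmm
    refine (h4.add (hbox j (le_max_left _ _))).congr fun s hs => ?_
    rw [← iz_union hSF hd (co_Wj w j) Set.disjoint_sdiff_left hs, Set.sdiff_union_of_subset hsub]

end

end Pool.Agent.H940.R
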