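import Pool.Agent.H940.R.Coord
import Pool.Agent.H940.R.Sqh3

set_option autoImplicit false
set_option linter.unusedSectionVars false
set_option linter.unusedVariables false

/-! # p-adic integrals near weighted homogeneous germs -/

namespace Pool.Agent.H940.R

open MeasureTheory MvPolynomial Topology
open Pool.Agent.W427.SMC Pool.Agent.Y230.PS Pool.Agent.Q57.QP
open Pool.Agent.Y230.PT hiding CO
open Pool.Agent.Q66.QP
open scoped ENNReal

attribute [local instance] msK bsK msZ bsZ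

section alg

variable {K : Type} [Field K] {n : ℕ} {h g : MvPolynomial (Fin n) K} {w : Fin n → ℕ} {N : ℕ}
  {η : Fin n → MvPowerSeries (Fin n) K} (H : WHK h g w N η)
include H

theorem WHK.crit_pt (x : Fin n → K) (hx : ∀ i, eval x (pderiv i g) = 0) : x = 0 := by
  funext i
  obtain ⟨m, hm⟩ := H.crit i
  have h1 : Ideal.span (Set.range fun t => pderiv t g) ≤ RingHom.ker (eval x) := by
    rw [Ideal.span_le]
    rintro _ ⟨t, rfl⟩
    exact hx t
  have h2 := h1 hm
  rw [RingHom.mem_ker, map_pow, eval_X] at h2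
  exact eq_zero_of_pow_eq_zero h2

theorem WHK.npos (hn : 0 < n) : 0 < N := by
  rw [Nat.pos_iff_ne_zero]
  intro hN
  obtain ⟨m, hm⟩ := H.crit ⟨0, hn⟩
  have h0 : ∀ d ∈ g.support, d = 0 := by
    intro d hd
    have h1 := H.hom (mem_support_iff.1 hd)
    rw [hN, Finsupp.weight_apply, Finsupp.sum_fintype _ _ (by simp)] at h1
    ext i
    have h2 := (Finset.sum_eq_zero_iff.1 h1) i (Finset.mem_univ i)
    rw [smul_eq_mul] at h2
    exact (Nat.mul_eq_zero.1 h2).resolve_right (H.wpos i).ne'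
  have hg : g = C (coeff 0 g) := by
    ext d
    rw [coeff_C]
    split_ifs with hd
    · rw [hd]
    · by_contra hc
      exact hd (h0 d (mem_support_iff.2 hc)).symm
  have h1 : Ideal.span (Set.range fun t => pderiv t g) ≤ ⊥ := by
    rw [Ideal.span_le]
    rintro _ ⟨t, rfl⟩
    simp only
    rw [hg, pderiv_C]
    exact Ideal.zero_mem _
  have h2 := h1 hm
  rw [Ideal.mem_bot] at h2
  exact X_ne_zero _ (eq_zero_of_pow_eq_zero h2)

end alg

variable {p : ℕ} [Fact p.Prime] {n : ℕ}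

/-- **Polynomial coordinates.** -/
theorem lp_coord (b : Fin n → MvPolynomial (Fin n) ℚ_[p]) (hb : ∀ t, constantCoeff (b t) = 0)
    (hdet : (jk b).det ≠ 0) (h : MvPolynomial (Fin n) ℚ_[p]) (m : ℂ → ℕ∞)
    (hL : LP m (fun y => ‖eval y (aeval b h)‖) 0) : LP m (fun x => ‖eval x h‖) 0 := by
  classical
  set F : (Fin n → ℚ_[p]) → (Fin n → ℚ_[p]) := fun y t => eval y (b t) with hF
  set A : (Fin n → ℚ_[p]) →L[ℚ_[p]] (Fin n → ℚ_[p]) := ContinuousLinearMap.pi fun t =>
    ∑ i, eval 0 (pderiv i (b t)) •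
      (ContinuousLinearMap.proj i : (Fin n → ℚ_[p]) →L[ℚ_[p]] ℚ_[p]) with hA
  have hder : HasStrictFDerivAt F A 0 :=
    hasStrictFDerivAt_pi.2 fun t => Pool.Agent.Q210.QP.qp_eval p (b t) 0
  have hAm : (A : (Fin n → ℚ_[p]) →ₗ[ℚ_[p]] (Fin n → ℚ_[p])) = Matrix.toLin' (jk b) := by
    refine LinearMap.ext fun x => ?_
    funext t
    rw [Matrix.toLin'_apply]
    unfold Matrix.mulVec dotProduct jk
    simp only [Matrix.of_apply, ContinuousLinearMap.coe_coe, hA, ContinuousLinearMap.pi_apply]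
    rw [_root_.sum_apply]
    refine Finset.sum_congr rfl fun i _ => ?_
    rw [_root_.smul_apply, ContinuousLinearMap.proj_apply, smul_eq_mul, eval_zero]
  have hAd : A.det ≠ 0 := by
    change LinearMap.det (A : (Fin n → ℚ_[p]) →ₗ[ℚ_[p]] (Fin n → ℚ_[p])) ≠ 0
    rw [hAm, LinearMap.det_toLin']
    exact hdet
  set B := A.toContinuousLinearEquivOfDetNeZero hAd with hB
  have hder' : HasStrictFDerivAt F (B : (Fin n → ℚ_[p]) →L[ℚ_[p]] (Fin n → ℚ_[p])) 0 := by
    rw [hB, ContinuousLinearMap.coe_toContinuousLinearEquivOfDetNeZero]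
    exact hder
  have hF0 : F 0 = 0 := by
    funext t
    simp only [hF]
    rw [eval_zero, hb]
    rfl
  have h1 := hder'.to_localInverse
  have h2 := hder'.eventually_right_inverse
  have h3 := hder'.localInverse_apply_image
  set Φ := hder'.localInverse F B 0 with hΦ
  rw [hF0] at h1 h2 h3
  refine (Pool.Agent.Q57.QP.qp_diffn Pool.Agent.Q210.QP.qp_iso Pool.Agent.Q210.QP.qp_lin) p Φ
    B.symm 0 _ (fun y => ‖eval y (aeval b h)‖) m (siz_ev _) h1 ?_ ?_
  · refine h2.mono fun x hx => ?_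
    have h4 : eval (Φ x) (aeval b h) = eval (F (Φ x)) h := by
      rw [aeval_def, eval_eval₂]
      have h5 : (eval (Φ x)).comp (algebraMap ℚ_[p] (MvPolynomial (Fin n) ℚ_[p])) =
          RingHom.id _ := by
        refine RingHom.ext fun a => ?_
        rw [RingHom.comp_apply, algebraMap_eq, eval_C, RingHom.id_apply]
      rw [h5]
      rfl
    rw [h4, hx]
  · rw [h3]
    exact hL

/-- **Weighted homogeneous germs.** -/
theorem lp_germ {h g : MvPolynomial (Fin n) ℚ_[p]} {w : Fin n → ℕ} {N : ℕ}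
    {η : Fin n → MvPowerSeries (Fin n) ℚ_[p]} (H : WHK h g w N η) (hn : 0 < n) (m : ℂ → ℕ∞)
    (hm : ∀ T0 : ℂ, 1 < ‖T0‖ → (if T0 ^ N = (p : ℂ) ^ (∑ i, w i) then 1 else 0) + m1 p T0 ≤ m T0) :
    LP m (fun x => ‖eval x h‖) 0 := by
  obtain ⟨b, c, R, hb, hdet, hc, hbh, hR⟩ := approx H
  refine lp_coord b hb hdet h m ?_
  rw [hbh]
  refine lp_sqh H.wpos (H.npos hn) (g := C c * g) ?_ ?_ ?_ ⟨⟨0, hn⟩⟩ m hm
  · have h1 := (isWeightedHomogeneous_C w c).mul H.hom
    rwa [zero_add] at h1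
  · intro α hα
    by_contra hlt
    exact (mem_support_iff.1 hα) (hR α (by omega))
  · intro x hx
    refine H.crit_pt x fun i => ?_
    have h1 := hx i
    rw [pderiv_C_mul, map_mul, eval_C] at h1
    exact (mul_eq_zero.1 h1).resolve_left hc

end Pool.Agent.H940.R
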