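import Pool.Agent.H940.R.Local
import Pool.Graph.R_pool_sql_team_seeded_3997aac3.Q247.QP.Form3J

set_option autoImplicit false
set_option linter.unusedSectionVars false
set_option linter.unusedVariables false

/-! # The charts of the projective space -/

namespace Pool.Agent.H940.R

open MeasureTheory MvPolynomial Topology
open Pool.Agent.W427.SMC Pool.Agent.Y230.PS Pool.Agent.Q57.QP
open Pool.Agent.Y230.PT hiding CO
open Pool.Agent.Q66.QP
open scoped ENNReal

attribute [local instance] msK bsK msZ bsZ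

variable {p : ℕ} [Fact p.Prime] {n : ℕ}

theorem eval_germ {K : Type} [Field K] (i : Fin (n + 1)) (q : Fin n → K)
    (F : MvPolynomial (Fin (n + 1)) K) (y : Fin n → K) :
    eval y (germ i q F) = eval (i.insertNth (1 : K) (fun t => y t + q t) : Fin (n + 1) → K) F := by
  unfold germ
  rw [MvPolynomial.aeval_def, MvPolynomial.eval_eval₂]
  congr 1
  · ext; simp
  · funext l
    refine Fin.succAboveCases i ?_ (fun t => ?_) l
    · simp
    · simp

theorem map_germ {K L : Type} [Field K] [Field L] (φ : K →+* L) (i : Fin (n + 1)) (q : Fin n → K)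
    (F : MvPolynomial (Fin (n + 1)) K) :
    map φ (germ i q F) = germ i (fun t => φ (q t)) (map φ F) := by
  unfold germ
  rw [MvPolynomial.aeval_def, MvPolynomial.aeval_def, MvPolynomial.algebraMap_eq,
    MvPolynomial.algebraMap_eq, MvPolynomial.map_eval₂]
  congr 1
  funext l
  refine Fin.succAboveCases i ?_ (fun t => ?_) l
  · simp
  · simp

/-- the coordinates near `P` -/
noncomputable def gC (i : Fin (n + 1)) (P : Fin (n + 1) → ℚ_[p]) (t : Fin n)
    (x : Fin (n + 1) → ℚ_[p]) : ℚ_[p] :=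
  x (i.succAbove t) * (x i)⁻¹ - P (i.succAbove t) / P i

/-- their derivatives at `P` -/
noncomputable def gL (i : Fin (n + 1)) (P : Fin (n + 1) → ℚ_[p]) (t : Fin n) :
    (Fin (n + 1) → ℚ_[p]) →L[ℚ_[p]] ℚ_[p] :=
  P (i.succAbove t) • ((-(P i ^ 2)⁻¹) •
    (ContinuousLinearMap.proj i : (Fin (n + 1) → ℚ_[p]) →L[ℚ_[p]] ℚ_[p])) +
  (P i)⁻¹ • (ContinuousLinearMap.proj (i.succAbove t) : (Fin (n + 1) → ℚ_[p]) →L[ℚ_[p]] ℚ_[p])

theorem gC_deriv (i : Fin (n + 1)) (P : Fin (n + 1) → ℚ_[p]) (hP : P i ≠ 0) (t : Fin n) :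
    HasStrictFDerivAt (gC i P t) (gL i P t) P := by
  have h1 : HasStrictFDerivAt (fun x : Fin (n + 1) → ℚ_[p] => x (i.succAbove t))
      (ContinuousLinearMap.proj (i.succAbove t) : (Fin (n + 1) → ℚ_[p]) →L[ℚ_[p]] ℚ_[p]) P :=
    hasStrictFDerivAt_apply _ _
  have h2 : HasStrictFDerivAt (fun x : Fin (n + 1) → ℚ_[p] => x i)
      (ContinuousLinearMap.proj i : (Fin (n + 1) → ℚ_[p]) →L[ℚ_[p]] ℚ_[p]) P :=
    hasStrictFDerivAt_apply _ _
  have h3 : HasStrictFDerivAt (fun x : Fin (n + 1) → ℚ_[p] => (x i)⁻¹)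
      ((-(P i ^ 2)⁻¹) • (ContinuousLinearMap.proj i : (Fin (n + 1) → ℚ_[p]) →L[ℚ_[p]] ℚ_[p])) P :=
    (hasStrictDerivAt_inv hP).comp_hasStrictFDerivAt P h2
  exact (h1.mul h3).sub_const _

theorem gL_det (i : Fin (n + 1)) (P : Fin (n + 1) → ℚ_[p]) (hP : P i ≠ 0) :
    (Matrix.of fun u t : Fin n => gL i P t (Pi.single (i.succAbove u) 1)).det ≠ 0 := by
  have h1 : (Matrix.of fun u t : Fin n => gL i P t (Pi.single (i.succAbove u) 1)) =
      (P i)⁻¹ • (1 : Matrix (Fin n) (Fin n) ℚ_[p]) := by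
    ext u t
    rw [Matrix.of_apply, gL, Matrix.smul_apply, Matrix.one_apply]
    simp only [_root_.add_apply, _root_.smul_apply,
      ContinuousLinearMap.proj_apply, smul_eq_mul]
    rw [Pi.single_eq_of_ne (Fin.succAbove_ne i u).symm, mul_zero, mul_zero, zero_add]
    congr 1
    by_cases hut : u = t
    · rw [if_pos hut, hut, Pi.single_eq_same]
    · rw [if_neg hut, Pi.single_eq_of_ne]
      exact fun h => hut (Fin.succAbove_right_injective h).symm
  rw [h1, Matrix.det_smul, Matrix.det_one, mul_one]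
  exact pow_ne_zero _ (inv_ne_zero hP)

theorem norm_near (i : Fin (n + 1)) (P : Fin (n + 1) → ℚ_[p]) (hP : P i ≠ 0) :
    ∀ᶠ x : Fin (n + 1) → ℚ_[p] in 𝓝 P, ‖x i‖ = ‖P i‖ := by
  have h1 : ∀ᶠ x : Fin (n + 1) → ℚ_[p] in 𝓝 P, ‖x i - P i‖ < ‖P i‖ := by
    have hc : Continuous (fun x : Fin (n + 1) → ℚ_[p] => ‖x i - P i‖) :=
      ((continuous_apply i).sub continuous_const).norm
    refine (hc.tendsto P).eventually_lt_const ?_
    simpa using hP
  refine h1.mono fun x hx => ?_
  have h2 : x i = P i + (x i - P i) := by ring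
  rw [h2, IsUltrametricDist.norm_add_eq_max_of_norm_ne_norm hx.ne']
  exact max_eq_left hx.le

/-- **The charts.** -/
theorem lp_chart (f : MvPolynomial (Fin (n + 1)) ℚ_[p]) (d : ℕ) (hf : f.IsHomogeneous d)
    (i : Fin (n + 1)) (P : Fin (n + 1) → ℚ_[p]) (hi : P i ≠ 0) (m : ℂ → ℕ∞)
    (hL : LP m (fun y => ‖eval y (germ i (fun t => P (i.succAbove t) / P i) f)‖) 0) :
    LP m (fun x => ‖eval x f‖) P := by
  set q : Fin n → ℚ_[p] := fun t => P (i.succAbove t) / P i with hq
  set h := germ i q f with hh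
  have ha : P i ^ d ≠ 0 := pow_ne_zero _ hi
  have hL2 := Pool.Agent.Q261.QP.qp_scale p (fun y => ‖eval y h‖) (siz_ev h) m 0 (P i ^ d) ha hL
  have hg0 : (fun t => gC i P t P) = 0 := by
    funext t
    unfold gC
    rw [div_eq_mul_inv, sub_self]
    rfl
  refine st_diff p n (gC i P) (gL i P) i.succAbove (fun x => ‖eval x f‖)
    (fun y => ‖P i ^ d‖ * ‖eval y h‖) P m
    (Pool.Agent.Q247.QP.siz_smul (siz_ev h) _) (gC_deriv i P hi) (gL_det i P hi) ?_ ?_
  · refine (norm_near i P hi).mono fun x hx => ?_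
    have hxi : x i ≠ 0 := by
      intro h0
      rw [h0, norm_zero] at hx
      exact hi (norm_eq_zero.1 hx.symm)
    have h1 : eval x f = x i ^ d * eval (fun t => gC i P t x) h := by
      rw [hh, eval_germ, ← eval_hom f d hf]
      refine congrArg (fun z : Fin (n + 1) → ℚ_[p] => eval z f) ?_
      funext l
      refine Fin.succAboveCases i ?_ (fun t => ?_) l
      · rw [Fin.insertNth_apply_same, mul_one]
      · rw [Fin.insertNth_apply_succAbove]
        unfold gC
        rw [hq]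
        simp only
        rw [sub_add_cancel, mul_comm (x (i.succAbove t)), ← mul_assoc, mul_inv_cancel₀ hxi,
          one_mul]
    rw [h1, norm_mul, norm_pow, norm_pow, hx]
  · rw [hg0]
    exact hL2

end Pool.Agent.H940.R
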