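import Mathlib

set_option autoImplicit false

/-! # Germs of the affine charts, weighted homogeneous isolated singularities over a field -/

namespace Pool.Agent.H940.R

/-- The polynomial `f(x)` with `x_i = 1` and with `q_t + y_t` for the other coordinates: the germ of the
dehomogenized form at the point `q` of the chart `x_i = 1` of the projective space over `K`. -/
noncomputable def germ {K : Type} [Field K] {n : ℕ} (i : Fin (n + 1)) (q : Fin n → K)
    (f : MvPolynomial (Fin (n + 1)) K) : MvPolynomial (Fin n) K :=
  MvPolynomial.aeval (i.insertNth 1 fun t => MvPolynomial.X t + MvPolynomial.C (q t) :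
    Fin (n + 1) → MvPolynomial (Fin n) K) f

/-- In the formal coordinates `η_1, …, η_n` over `K` (formal power series without constant terms and
with an invertible Jacobian matrix at the origin) the hypersurface `{h = 0}` is given by the polynomial
`g` (the ideals generated by `h` and `g(η)` in the ring of formal power series are equal), where `g` is
weighted homogeneous of degree `N` for the positive weights `w_1, …, w_n`, and the ideal of the partial
derivatives of `g` contains powers of all the variables (`g` has no critical point outside of the
origin, over any field). -/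
structure WHK {K : Type} [Field K] {n : ℕ} (h : MvPolynomial (Fin n) K) (g : MvPolynomial (Fin n) K)
    (w : Fin n → ℕ) (N : ℕ) (η : Fin n → MvPowerSeries (Fin n) K) : Prop where
  wpos : ∀ i, 0 < w i
  hom : MvPolynomial.IsWeightedHomogeneous w g N
  crit : ∀ i, ∃ m : ℕ, (MvPolynomial.X i : MvPolynomial (Fin n) K) ^ m ∈
    Ideal.span (Set.range fun t => MvPolynomial.pderiv t g)
  cc : ∀ t, MvPowerSeries.constantCoeff (η t) = 0
  det : (Matrix.of fun u t => MvPowerSeries.coeff (Finsupp.single u 1) (η t)).det ≠ 0
  gen : Ideal.span {(h : MvPowerSeries (Fin n) K)} = Ideal.span {MvPolynomial.aeval η g}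

/-- The germ of the projective hypersurface `f = 0` at each of its singular points with coordinates in
`K` is a weighted homogeneous isolated singularity in suitable formal coordinates over `K`. -/
def LWH {K : Type} [Field K] {n : ℕ} (f : MvPolynomial (Fin (n + 1)) K) : Prop :=
  ∀ (i : Fin (n + 1)) (q : Fin n → K),
    (∀ j, MvPolynomial.eval (i.insertNth 1 q) (MvPolynomial.pderiv j f) = 0) →
    ∃ (g : MvPolynomial (Fin n) K) (w : Fin n → ℕ) (N : ℕ) (η : Fin n → MvPowerSeries (Fin n) K),
      WHK (germ i q f) g w N η

end Pool.Agent.H940.R
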