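import Pool.Agent.H940.R.Poly
import Pool.Agent.H940.R.Defs

set_option autoImplicit false
set_option linter.unusedSectionVars false
set_option linter.unusedVariables false

/-! # Polynomial coordinates of weighted homogeneous germs -/

namespace Pool.Agent.H940.R

open MvPolynomial
open Pool.Agent.Q57.MD (ZN exists_trunc aeval_cong aeval_coe mem_ZN_coe coe_sub' mul_cong)

variable {K : Type} [Field K] {n : ℕ}

theorem mem_ZN_iff (P : MvPolynomial (Fin n) K) (k : ℕ) :
    ((P : MvPolynomial (Fin n) K) : MvPowerSeries (Fin n) K) ∈ ZN K (Fin n) k ↔ P ∈ wI K 1 k := by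
  rw [mem_ZN_coe, mem_wI]
  simp only [weight_degree]

section

variable {h g : MvPolynomial (Fin n) K} {w : Fin n → ℕ} {N : ℕ}
  {η : Fin n → MvPowerSeries (Fin n) K} (H : WHK h g w N η)
include H

theorem exists_unit : ∃ U : MvPowerSeries (Fin n) K, MvPowerSeries.constantCoeff U ≠ 0 ∧
    (h : MvPowerSeries (Fin n) K) = U * aeval η g := by
  haveI : IsDomain (MvPowerSeries (Fin n) K) := NoZeroDivisors.to_isDomain _
  have h2 := Ideal.span_singleton_eq_span_singleton.1 H.gen.symm
  obtain ⟨U, hU⟩ := h2
  refine ⟨U, ?_, ?_⟩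
  · have := (MvPowerSeries.isUnit_iff_constantCoeff.1 U.isUnit)
    exact this.ne_zero
  · rw [← hU, mul_comm]

/-- **Polynomial coordinates.** -/
theorem approx : ∃ (b : Fin n → MvPolynomial (Fin n) K) (c : K) (R : MvPolynomial (Fin n) K),
    (∀ t, constantCoeff (b t) = 0) ∧ (jk b).det ≠ 0 ∧ c ≠ 0 ∧ aeval b h = C c * g + R ∧
      R ∈ wI K w (N + 1) := by
  classical
  obtain ⟨V, hV, hh⟩ := exists_unit H
  set k := N + 2 with hk
  choose a ha using fun t => exists_trunc (η t) k
  obtain ⟨v, hv⟩ := exists_trunc V k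
  have ha0 : ∀ t, constantCoeff (a t) = 0 := by
    intro t
    rw [constantCoeff_eq, ha t 0 (by rw [map_zero]; exact Nat.zero_le _)]
    rw [MvPowerSeries.coeff_zero_eq_constantCoeff_apply]
    exact H.cc t
  have hdet : (jk a).det ≠ 0 := by
    have h1 : jk a = (Matrix.of fun u t => MvPowerSeries.coeff (Finsupp.single u 1) (η t)).transpose := by
      ext1 t s
      unfold jk
      rw [Matrix.of_apply, Matrix.transpose_apply, Matrix.of_apply, constantCoeff_eq, coeff_pderiv,
        zero_add, ha t _ (by rw [Finsupp.degree_single]; omega)]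
      simp
    rw [h1, Matrix.det_transpose]
    exact H.det
  obtain ⟨b, hb, hab⟩ := newton a ha0 hdet (k - 1)
  have hk1 : k - 1 + 1 = k := by omega
  rw [hk1] at hab
  have hb1 : ∀ t, b t ∈ wI K 1 1 := fun t => mem_one_iff.2 (hb t)
  refine ⟨b, constantCoeff v, aeval b h - C (constantCoeff v) * g, hb,
    det_inv a b ha0 hb fun t => wI_mono (by omega) (hab t), ?_, by ring, ?_⟩
  · rw [constantCoeff_eq, hv 0 (by rw [map_zero]; exact Nat.zero_le _),
      MvPowerSeries.coeff_zero_eq_constantCoeff_apply]
    exact hV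
  · -- the approximation of `h`
    have hE : h - v * aeval a g ∈ wI K 1 k := by
      rw [← mem_ZN_iff, coe_sub', MvPolynomial.coe_mul, hh]
      refine mul_cong _ ?_ ?_
      · intro m hm
        rw [map_sub, MvPolynomial.coeff_coe, hv m (by omega), sub_self]
      · rw [← aeval_coe]
        refine aeval_cong _ _ _ (fun t => ?_) _
        intro m hm
        rw [map_sub, MvPolynomial.coeff_coe, ha t m (by omega), sub_self]
    have h1 := aeval_mem hE b hb1
    rw [map_sub, map_mul] at h1
    have h2 : aeval b (aeval a g) - g ∈ wI K 1 k := by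
      have h3 := aeval_cong' (wI K 1 k) (fun t => aeval b (a t)) X hab g
      rw [aeval_X_left, AlgHom.id_apply] at h3
      have h4 : aeval b (aeval a g) = aeval (fun t => aeval b (a t)) g := by
        rw [← AlgHom.comp_apply, comp_aeval]
      rw [h4]
      exact h3
    have h3 : aeval b v - C (constantCoeff v) ∈ wI K w 1 := by
      refine one_le_weight H.wpos ?_
      rw [mem_one_iff, map_sub, constantCoeff_C, cc_aeval b hb, sub_self]
    have h4 : g ∈ wI K w N := by
      intro d hd
      by_contra hc
      have h5 := H.hom hc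
      omega
    have h5 : (aeval b v - C (constantCoeff v)) * g ∈ wI K w (N + 1) := by
      rw [add_comm N 1]
      exact wI_mul h3 h4
    have h6 : ∀ {F : MvPolynomial (Fin n) K}, F ∈ wI K 1 k → F ∈ wI K w (N + 1) := fun hF =>
      wI_mono (by omega) (one_le_weight H.wpos hF)
    have e : aeval b h - C (constantCoeff v) * g =
        (aeval b h - aeval b v * aeval b (aeval a g)) +
          aeval b v * (aeval b (aeval a g) - g) + (aeval b v - C (constantCoeff v)) * g := by ring
    rw [e]
    exact Ideal.add_mem _ (Ideal.add_mem _ (h6 h1) (Ideal.mul_mem_left _ _ (h6 h2))) h5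

end

end Pool.Agent.H940.R
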