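import Mathlib

set_option autoImplicit false
set_option linter.unusedSectionVars false
set_option linter.unusedVariables false

/-! # Linear vector fields of a form, over any field -/

namespace Pool.Agent.H940.R.LK

open MvPolynomial

variable {K : Type} [Field K] {m : ℕ}

/-- linear forms -/
noncomputable def lf : (Fin m → K) →ₗ[K] MvPolynomial (Fin m) K where
  toFun c := ∑ i, C (c i) * X i
  map_add' c c' := by
    rw [← Finset.sum_add_distrib]
    exact Finset.sum_congr rfl fun i _ => by rw [Pi.add_apply, map_add, add_mul]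
  map_smul' r c := by
    rw [RingHom.id_apply, smul_eq_C_mul, Finset.mul_sum]
    exact Finset.sum_congr rfl fun i _ => by rw [Pi.smul_apply, smul_eq_mul, map_mul, mul_assoc]

theorem lf_apply (c : Fin m → K) : lf c = ∑ i, C (c i) * X i := rfl

theorem lf_single (i : Fin m) : lf (Pi.single i (1 : K)) = X i := by
  rw [lf_apply, Finset.sum_eq_single i]
  · rw [Pi.single_eq_same, map_one, one_mul]
  · intro j _ hj
    rw [Pi.single_eq_of_ne hj, map_zero, zero_mul]
  · intro h
    exact absurd (Finset.mem_univ i) h

/-- the derivation of a linear map -/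
noncomputable def Dl (T : Module.End K (Fin m → K)) :
    Derivation K (MvPolynomial (Fin m) K) (MvPolynomial (Fin m) K) :=
  mkDerivation K fun i => lf (T (Pi.single i 1))

theorem Dl_X (T : Module.End K (Fin m → K)) (i : Fin m) : Dl T (X i) = lf (T (Pi.single i 1)) :=
  mkDerivation_X _ _ _

theorem Dl_lf (T : Module.End K (Fin m → K)) (c : Fin m → K) : Dl T (lf c) = lf (T c) := by
  rw [lf_apply, map_sum]
  have h1 : c = ∑ i, c i • Pi.single i (1 : K) := by
    funext j
    simp [Finset.sum_apply, Pi.single_apply]
  conv_rhs => rw [h1, map_sum, map_sum]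
  refine Finset.sum_congr rfl fun i _ => ?_
  rw [C_mul', Derivation.map_smul, map_smul, map_smul, Dl_X]

theorem Dl_add (T T' : Module.End K (Fin m → K)) : Dl (T + T') = Dl T + Dl T' := by
  refine derivation_ext fun i => ?_
  rw [Derivation.add_apply, Dl_X, Dl_X, Dl_X, LinearMap.add_apply, map_add]

theorem Dl_comm {T T' : Module.End K (Fin m → K)} (h : T * T' = T' * T)
    (p : MvPolynomial (Fin m) K) : Dl T (Dl T' p) = Dl T' (Dl T p) := by
  have h1 : ⁅Dl T, Dl T'⁆ = 0 := by
    refine derivation_ext fun i => ?_
    rw [Derivation.commutator_apply, Dl_X, Dl_X, Dl_lf, Dl_lf, Derivation.zero_apply, ← map_sub]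
    have h2 : T (T' (Pi.single i 1)) - T' (T (Pi.single i 1)) = 0 := by
      rw [sub_eq_zero]
      exact LinearMap.congr_fun h _
    rw [h2, map_zero]
  have h2 := Derivation.congr_fun h1 p
  rw [Derivation.commutator_apply, Derivation.zero_apply, sub_eq_zero] at h2
  exact h2

/-- products of elements killed by powers of a derivation -/
theorem nil_mul (D : Derivation K (MvPolynomial (Fin m) K) (MvPolynomial (Fin m) K)) :
    ∀ (k a b : ℕ), a + b = k → ∀ p q : MvPolynomial (Fin m) K, (⇑D)^[a] p = 0 → (⇑D)^[b] q = 0 →
      (⇑D)^[k] (p * q) = 0 := by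
  have h0 : ∀ k, (⇑D)^[k] 0 = 0 := fun k => Function.iterate_fixed (map_zero D) k
  have hadd : ∀ k (p q : MvPolynomial (Fin m) K),
      (⇑D)^[k] (p + q) = (⇑D)^[k] p + (⇑D)^[k] q := by
    intro k
    induction k with
    | zero => exact fun _ _ => rfl
    | succ k ih =>
      intro p q
      rw [Function.iterate_succ_apply, Function.iterate_succ_apply, Function.iterate_succ_apply,
        map_add, ih]
  intro k
  induction k with
  | zero =>
    intro a b hab p q hp hq
    have ha : a = 0 := by omega
    subst ha
    rw [Function.iterate_zero_apply] at hp ⊢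
    rw [hp, zero_mul]
  | succ k ih =>
    intro a b hab p q hp hq
    cases a with
    | zero =>
      rw [Function.iterate_zero_apply] at hp
      rw [hp, zero_mul, h0]
    | succ a =>
      cases b with
      | zero =>
        rw [Function.iterate_zero_apply] at hq
        rw [hq, mul_zero, h0]
      | succ b =>
        rw [Function.iterate_succ_apply, Derivation.leibniz, smul_eq_mul, smul_eq_mul, hadd]
        rw [Function.iterate_succ_apply] at hp hq
        rw [ih (a + 1) b (by omega) p (D q) (by rw [Function.iterate_succ_apply]; exact hp) hq,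
          mul_comm q, ih a (b + 1) (by omega) (D p) q hp
            (by rw [Function.iterate_succ_apply]; exact hq), add_zero]

theorem iter_mono {D : Derivation K (MvPolynomial (Fin m) K) (MvPolynomial (Fin m) K)}
    {a b : ℕ} (h : a ≤ b) {p : MvPolynomial (Fin m) K} (hp : (⇑D)^[a] p = 0) :
    (⇑D)^[b] p = 0 := by
  obtain ⟨c, rfl⟩ := Nat.exists_eq_add_of_le h
  rw [add_comm, Function.iterate_add_apply, hp]
  exact Function.iterate_fixed (map_zero D) c

/-- the derivation of a nilpotent map is locally nilpotent -/
theorem Dl_nil {T : Module.End K (Fin m → K)} (hT : IsNilpotent T)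
    (p : MvPolynomial (Fin m) K) : ∃ k, (⇑(Dl T))^[k] p = 0 := by
  obtain ⟨r, hr⟩ := hT
  have hl : ∀ k c, (⇑(Dl T))^[k] (lf c) = lf ((T ^ k) c) := by
    intro k
    induction k with
    | zero => exact fun _ => rfl
    | succ k ih =>
      intro c
      rw [Function.iterate_succ_apply, Dl_lf, ih, pow_succ]
      rfl
  induction p using MvPolynomial.induction_on with
  | C a => exact ⟨1, by rw [Function.iterate_one, derivation_C]⟩
  | add p q hp hq =>
    obtain ⟨a, ha⟩ := hp
    obtain ⟨b, hb⟩ := hq
    refine ⟨max a b, ?_⟩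
    have hadd : ∀ k (p q : MvPolynomial (Fin m) K),
        (⇑(Dl T))^[k] (p + q) = (⇑(Dl T))^[k] p + (⇑(Dl T))^[k] q := by
      intro k
      induction k with
      | zero => exact fun _ _ => rfl
      | succ k ih =>
        intro p q
        rw [Function.iterate_succ_apply, Function.iterate_succ_apply, Function.iterate_succ_apply,
          map_add, ih]
    rw [hadd, iter_mono (le_max_left _ _) ha, iter_mono (le_max_right _ _) hb, add_zero]
  | mul_X p i hp =>
    obtain ⟨a, ha⟩ := hp
    refine ⟨a + r, nil_mul (Dl T) _ a r rfl p (X i) ha ?_⟩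
    rw [← lf_single, hl, hr, LinearMap.zero_apply, map_zero]

/-- the diagonal derivation -/
noncomputable def El (lam : Fin m → K) :
    Derivation K (MvPolynomial (Fin m) K) (MvPolynomial (Fin m) K) :=
  mkDerivation K fun i => C (lam i) * X i

theorem El_monomial (lam : Fin m → K) (α : Fin m →₀ ℕ) (c : K) :
    El lam (monomial α c) = C (∑ i, (α i : K) * lam i) * monomial α c := by
  unfold El
  rw [mkDerivation_monomial, Finsupp.sum_fintype _ _ (fun i => by
    rw [Nat.cast_zero, map_zero, zero_smul]), Finset.smul_sum, map_sum, Finset.sum_mul]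
  refine Finset.sum_congr rfl fun i _ => ?_
  by_cases hi : α i = 0
  · rw [hi, Nat.cast_zero, map_zero, zero_smul, smul_zero, zero_mul, map_zero, zero_mul]
  · have h1 : monomial (α - Finsupp.single i 1) (1 : K) * X i = monomial α 1 := by
      rw [X, monomial_mul, mul_one]
      have h2 : Finsupp.single i 1 ≤ α := by
        rw [Finsupp.single_le_iff]
        omega
      rw [tsub_add_cancel_of_le h2]
    have h2 : monomial α c = C c * monomial α 1 := by
      rw [C_mul_monomial, mul_one]
    have h3 : monomial (α - Finsupp.single i 1) ((α i : ℕ) : K) =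
        C ((α i : ℕ) : K) * monomial (α - Finsupp.single i 1) 1 := by
      rw [C_mul_monomial, mul_one]
    rw [h3, smul_eq_mul, smul_eq_C_mul, h2, map_mul, ← h1]
    ring

theorem coeff_El (lam : Fin m → K) (g : MvPolynomial (Fin m) K) (α : Fin m →₀ ℕ) :
    coeff α (El lam g) = (∑ i, (α i : K) * lam i) * coeff α g := by
  induction g using MvPolynomial.induction_on' with
  | monomial β c =>
    rw [El_monomial, coeff_C_mul, coeff_monomial]
    split_ifs with h
    · rw [h]
    · rw [mul_zero, mul_zero]
  | add p q hp hq => rw [map_add, coeff_add, coeff_add, hp, hq, mul_add]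

theorem coeff_El_iter (lam : Fin m → K) (k : ℕ) (g : MvPolynomial (Fin m) K) (α : Fin m →₀ ℕ) :
    coeff α ((⇑(El lam))^[k] g) = (∑ i, (α i : K) * lam i) ^ k * coeff α g := by
  induction k with
  | zero => rw [pow_zero, one_mul, Function.iterate_zero_apply]
  | succ k ih => rw [Function.iterate_succ_apply', coeff_El, ih, pow_succ]; ring

/-- the substitution -/
noncomputable def sb (Y : Matrix (Fin m) (Fin m) K) :
    MvPolynomial (Fin m) K →ₐ[K] MvPolynomial (Fin m) K := aeval fun i => lf (Y i)

theorem sb_X (Y : Matrix (Fin m) (Fin m) K) (i : Fin m) : sb Y (X i) = lf (Y i) := aeval_X _ _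

theorem sb_lf (Y : Matrix (Fin m) (Fin m) K) (c : Fin m → K) :
    sb Y (lf c) = lf (Matrix.vecMul c Y) := by
  rw [lf_apply, map_sum]
  have h1 : ∀ i, sb Y (C (c i) * X i) = c i • lf (Y i) := by
    intro i
    rw [map_mul, sb_X, algHom_C, algebraMap_eq, C_mul']
  rw [Finset.sum_congr rfl fun i _ => h1 i]
  simp only [← map_smul]
  rw [← map_sum]
  congr 1
  funext j
  rw [Finset.sum_apply]
  rfl

theorem sb_sb (Y Z : Matrix (Fin m) (Fin m) K) (g : MvPolynomial (Fin m) K) :
    sb Y (sb Z g) = sb (Z * Y) g := by
  have h1 : (sb Y).comp (sb Z) = sb (Z * Y) := by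
    apply algHom_ext
    intro i
    rw [AlgHom.comp_apply, sb_X, sb_lf, sb_X]
    rfl
  exact AlgHom.congr_fun h1 g

theorem sb_one (g : MvPolynomial (Fin m) K) : sb (1 : Matrix (Fin m) (Fin m) K) g = g := by
  have h1 : sb (1 : Matrix (Fin m) (Fin m) K) = AlgHom.id K _ := by
    apply algHom_ext
    intro i
    rw [sb_X, AlgHom.id_apply]
    have h2 : (1 : Matrix (Fin m) (Fin m) K) i = Pi.single i 1 := by
      funext j
      rw [Matrix.one_apply, Pi.single_apply]
      simp only [eq_comm]
    rw [h2, lf_single]
  exact AlgHom.congr_fun h1 g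

section diag

variable {S : Module.End K (Fin m → K)} {Y : Matrix (Fin m) (Fin m) K} {lam : Fin m → K}
  (h : ∀ i, S (Y i) = lam i • Y i)
include h

theorem Dl_sb (p : MvPolynomial (Fin m) K) : Dl S (sb Y p) = sb Y (El lam p) := by
  induction p using MvPolynomial.induction_on with
  | C a =>
    rw [algHom_C, algebraMap_eq, derivation_C, derivation_C, map_zero]
  | add p q hp hq => rw [map_add, map_add, hp, hq, map_add, map_add]
  | mul_X p i hp =>
    rw [map_mul, Derivation.leibniz, hp, Derivation.leibniz, map_add, sb_X, Dl_lf]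
    have h1 : El lam (X i) = C (lam i) * X i := mkDerivation_X _ _ _
    rw [h1, h i, map_smul, smul_eq_mul, smul_eq_mul, smul_eq_mul, smul_eq_mul, map_mul, map_mul,
      map_mul, sb_X, algHom_C, algebraMap_eq, smul_eq_C_mul]

theorem Dl_sb_iter (k : ℕ) (p : MvPolynomial (Fin m) K) :
    (⇑(Dl S))^[k] (sb Y p) = sb Y ((⇑(El lam))^[k] p) := by
  induction k generalizing p with
  | zero => rfl
  | succ k ih => rw [Function.iterate_succ_apply, Dl_sb h, ih, ← Function.iterate_succ_apply]

end diag

/-- the powers of the semisimple part -/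
theorem Dl_alt {N S : Module.End K (Fin m → K)} (hcom : N * S = S * N)
    (f : MvPolynomial (Fin m) K) (hf : Dl (N + S) f = 0) (j : ℕ) :
    (⇑(Dl N))^[j] f = (-1 : K) ^ j • (⇑(Dl S))^[j] f := by
  induction j with
  | zero => rw [pow_zero, one_smul, Function.iterate_zero_apply, Function.iterate_zero_apply]
  | succ j ih =>
    rw [Function.iterate_succ_apply', ih, Derivation.map_smul]
    have h1 : ∀ j, Dl N ((⇑(Dl S))^[j] f) = (⇑(Dl S))^[j] (Dl N f) := by
      intro j
      induction j with
      | zero => rfl
      | succ j ih2 =>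
        rw [Function.iterate_succ_apply', Dl_comm hcom, ih2, Function.iterate_succ_apply']
    have h2 : Dl N f = - Dl S f := by
      rw [Dl_add, Derivation.add_apply] at hf
      exact eq_neg_of_add_eq_zero_left hf
    have h3 : ∀ j p, (⇑(Dl S))^[j] (- p) = - (⇑(Dl S))^[j] p := by
      intro j
      induction j with
      | zero => exact fun _ => rfl
      | succ j ih3 =>
        intro p
        rw [Function.iterate_succ_apply, map_neg, ih3, ← Function.iterate_succ_apply]
    rw [h1, h2, h3, ← Function.iterate_succ_apply, pow_succ, mul_smul, smul_neg, neg_smul,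
      one_smul, smul_neg]


end Pool.Agent.H940.R.LK
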