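import Mathlib
import Pool.Graph.R_pool_sql_team_seeded_3997aac3.Q57.MD.FVol

set_option autoImplicit false
set_option linter.unusedSectionVars false
set_option linter.unusedVariables false

/-! # Polynomial approximations of formal coordinates over any field -/

namespace Pool.Agent.H940.R

open MvPolynomial

variable {K : Type} [Field K] {n : ℕ}

/-- the polynomials without terms of weighted degree `< k` -/
noncomputable def wI (K : Type) [Field K] {n : ℕ} (w : Fin n → ℕ) (k : ℕ) :
    Ideal (MvPolynomial (Fin n) K) where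
  carrier := {F | ∀ d : Fin n →₀ ℕ, Finsupp.weight w d < k → coeff d F = 0}
  add_mem' := by
    intro a b ha hb d hd
    rw [coeff_add, ha d hd, hb d hd, add_zero]
  zero_mem' := fun d _ => coeff_zero d
  smul_mem' := by
    classical
    intro c x hx d hd
    rw [smul_eq_mul, coeff_mul]
    refine Finset.sum_eq_zero fun q hq => ?_
    have h1 : Finsupp.weight w q.2 ≤ Finsupp.weight w d := by
      rw [← Finset.HasAntidiagonal.mem_antidiagonal.1 hq, map_add]
      exact Nat.le_add_left _ _
    rw [hx q.2 (lt_of_le_of_lt h1 hd), mul_zero]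

theorem mem_wI {w : Fin n → ℕ} {k : ℕ} {F : MvPolynomial (Fin n) K} :
    F ∈ wI K w k ↔ ∀ d : Fin n →₀ ℕ, Finsupp.weight w d < k → coeff d F = 0 := Iff.rfl

theorem wI_mono {w : Fin n → ℕ} {k l : ℕ} (h : k ≤ l) {F : MvPolynomial (Fin n) K}
    (hF : F ∈ wI K w l) : F ∈ wI K w k := fun d hd => hF d (lt_of_lt_of_le hd h)

theorem wI_mul {w : Fin n → ℕ} {a b : ℕ} {F G : MvPolynomial (Fin n) K} (hF : F ∈ wI K w a)
    (hG : G ∈ wI K w b) : F * G ∈ wI K w (a + b) := by
  classical
  intro d hd
  rw [coeff_mul]
  refine Finset.sum_eq_zero fun q hq => ?_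
  have h1 : Finsupp.weight w q.1 + Finsupp.weight w q.2 = Finsupp.weight w d := by
    rw [← Finset.HasAntidiagonal.mem_antidiagonal.1 hq, map_add]
  by_cases h2 : Finsupp.weight w q.1 < a
  · rw [hF _ h2, zero_mul]
  · rw [hG _ (by omega), mul_zero]

theorem wI_zero (w : Fin n → ℕ) (F : MvPolynomial (Fin n) K) : F ∈ wI K w 0 :=
  fun d hd => absurd hd (Nat.not_lt_zero _)

theorem wI_pow {w : Fin n → ℕ} {a : ℕ} {F : MvPolynomial (Fin n) K} (hF : F ∈ wI K w a) (e : ℕ) :
    F ^ e ∈ wI K w (e * a) := by
  induction e with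
  | zero => rw [zero_mul]; exact wI_zero _ _
  | succ e ih =>
    rw [pow_succ, Nat.succ_mul]
    exact wI_mul ih hF

theorem wI_prod {w : Fin n → ℕ} {ι : Type} (s : Finset ι) (F : ι → MvPolynomial (Fin n) K)
    (a : ι → ℕ) (h : ∀ i, F i ∈ wI K w (a i)) : ∏ i ∈ s, F i ∈ wI K w (∑ i ∈ s, a i) := by
  classical
  induction s using Finset.induction_on with
  | empty => rw [Finset.sum_empty]; exact wI_zero _ _
  | insert j s hj ih =>
    rw [Finset.prod_insert hj, Finset.sum_insert hj]
    exact wI_mul (h j) ih

theorem weight_one (d : Fin n →₀ ℕ) : Finsupp.weight (1 : Fin n → ℕ) d = ∑ i, d i := by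
  rw [Finsupp.weight_apply, Finsupp.sum_fintype _ _ (by simp)]
  simp

theorem weight_degree (d : Fin n →₀ ℕ) : Finsupp.weight (1 : Fin n → ℕ) d = d.degree := by
  rw [weight_one, Finsupp.degree_eq_sum]

theorem mem_one_iff {F : MvPolynomial (Fin n) K} : F ∈ wI K 1 1 ↔ constantCoeff F = 0 := by
  constructor
  · intro h
    exact h 0 (by rw [map_zero]; exact one_pos)
  · intro h d hd
    have h1 : d = 0 := by
      rw [weight_one] at hd
      ext i
      have := (Finset.sum_eq_zero_iff.1 (Nat.lt_one_iff.1 hd)) i (Finset.mem_univ i)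
      exact this
    rw [h1]
    exact h

theorem one_le_weight {w : Fin n → ℕ} (hw : ∀ i, 0 < w i) {k : ℕ} {F : MvPolynomial (Fin n) K}
    (hF : F ∈ wI K 1 k) : F ∈ wI K w k := by
  intro d hd
  refine hF d (lt_of_le_of_lt ?_ hd)
  rw [weight_one, Finsupp.weight_apply, Finsupp.sum_fintype _ _ (by simp)]
  refine Finset.sum_le_sum fun i _ => ?_
  rw [smul_eq_mul]
  exact Nat.le_mul_of_pos_right _ (hw i)

/-- substitutions -/
theorem aeval_mem {k : ℕ} {F : MvPolynomial (Fin n) K} (hF : F ∈ wI K 1 k)
    (b : Fin n → MvPolynomial (Fin n) K) (hb : ∀ t, b t ∈ wI K 1 1) : aeval b F ∈ wI K 1 k := by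
  rw [aeval_def, eval₂_eq']
  refine Ideal.sum_mem _ fun d hd => Ideal.mul_mem_left _ _ ?_
  have h1 : k ≤ ∑ i, d i := by
    by_contra h
    rw [mem_support_iff] at hd
    exact hd (hF d (by rw [weight_one]; omega))
  refine wI_mono h1 (wI_prod Finset.univ (fun i => b i ^ d i) (fun i => d i) fun i => ?_)
  have := wI_pow (hb i) (d i)
  rwa [mul_one] at this

/-- values at congruent families -/
theorem aeval_cong' {A : Type} [CommRing A] [Algebra K A] {c : ℕ} (I : Ideal A) (g g' : Fin c → A)
    (hg : ∀ t, g t - g' t ∈ I) (q : MvPolynomial (Fin c) K) : aeval g q - aeval g' q ∈ I := by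
  rw [← Ideal.Quotient.eq]
  have h1 : (Ideal.Quotient.mkₐ K I).comp (aeval g) = (Ideal.Quotient.mkₐ K I).comp (aeval g') := by
    refine MvPolynomial.algHom_ext fun t => ?_
    rw [AlgHom.comp_apply, AlgHom.comp_apply, aeval_X, aeval_X]
    exact Ideal.Quotient.eq.2 (hg t)
  exact congrFun (congrArg DFunLike.coe h1) q

/-- the Taylor formula of order two -/
theorem taylor_mem {k : ℕ} (P : MvPolynomial (Fin n) K) (b δ : Fin n → MvPolynomial (Fin n) K)
    (hδ : ∀ t, δ t ∈ wI K 1 k) :
    aeval (fun s => b s + δ s) P - aeval b P - ∑ s, aeval b (pderiv s P) * δ s ∈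
      wI K 1 (2 * k) := by
  classical
  induction P using MvPolynomial.induction_on with
  | C a =>
    have h1 : aeval (fun s => b s + δ s) (C a : MvPolynomial (Fin n) K) -
        aeval b (C a : MvPolynomial (Fin n) K) -
        ∑ s, aeval b (pderiv s (C a : MvPolynomial (Fin n) K)) * δ s = 0 := by
      simp
    rw [h1]
    exact Ideal.zero_mem _
  | add F G hF hG =>
    have h1 := Ideal.add_mem _ hF hG
    have h2 : ∑ s, aeval b (pderiv s (F + G)) * δ s = ∑ s, aeval b (pderiv s F) * δ s +
        ∑ s, aeval b (pderiv s G) * δ s := by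
      rw [← Finset.sum_add_distrib]
      refine Finset.sum_congr rfl fun s _ => ?_
      rw [map_add, map_add, add_mul]
    rw [h2, map_add, map_add]
    have e : aeval (fun s => b s + δ s) F + aeval (fun s => b s + δ s) G -
        (aeval b F + aeval b G) - (∑ s, aeval b (pderiv s F) * δ s +
        ∑ s, aeval b (pderiv s G) * δ s) =
        aeval (fun s => b s + δ s) F - aeval b F - ∑ s, aeval b (pderiv s F) * δ s +
        (aeval (fun s => b s + δ s) G - aeval b G - ∑ s, aeval b (pderiv s G) * δ s) := by ring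
    rw [e]
    exact h1
  | mul_X F j hF =>
    have h2 : ∑ s, aeval b (pderiv s (F * X j)) * δ s =
        (∑ s, aeval b (pderiv s F) * δ s) * b j + aeval b F * δ j := by
      have h3 : ∀ s, aeval b (pderiv s (F * X j)) * δ s =
          aeval b (pderiv s F) * δ s * b j + (if s = j then aeval b F * δ j else 0) := by
        intro s
        rw [Derivation.leibniz, smul_eq_mul, smul_eq_mul, pderiv_X, map_add, map_mul, map_mul,
          aeval_X]
        by_cases hs : j = s
        · subst hs
          rw [Pi.single_eq_same, map_one, if_pos rfl]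
          ring
        · rw [Pi.single_eq_of_ne hs, map_zero, if_neg (Ne.symm hs)]
          ring
      rw [Finset.sum_congr rfl fun s _ => h3 s, Finset.sum_add_distrib, Finset.sum_mul,
        Finset.sum_ite_eq' Finset.univ j, if_pos (Finset.mem_univ j)]
    rw [h2, map_mul, map_mul, aeval_X, aeval_X]
    have h4 : (∑ s, aeval b (pderiv s F) * δ s) * δ j ∈ wI K 1 (2 * k) := by
      rw [two_mul]
      exact wI_mul (Ideal.sum_mem _ fun s _ => Ideal.mul_mem_left _ _ (hδ s)) (hδ j)
    have e : aeval (fun s => b s + δ s) F * (b j + δ j) - aeval b F * b j -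
        ((∑ s, aeval b (pderiv s F) * δ s) * b j + aeval b F * δ j) =
        (aeval (fun s => b s + δ s) F - aeval b F - ∑ s, aeval b (pderiv s F) * δ s) *
          (b j + δ j) + (∑ s, aeval b (pderiv s F) * δ s) * δ j := by ring
    rw [e]
    exact Ideal.add_mem _ (Ideal.mul_mem_right _ _ hF) h4

/-- the Jacobian matrix at the origin -/
noncomputable def jk (a : Fin n → MvPolynomial (Fin n) K) : Matrix (Fin n) (Fin n) K :=
  Matrix.of fun t s => constantCoeff (pderiv s (a t))

theorem cc_aeval (b : Fin n → MvPolynomial (Fin n) K) (hb : ∀ t, constantCoeff (b t) = 0)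
    (P : MvPolynomial (Fin n) K) : constantCoeff (aeval b P) = constantCoeff P := by
  have h1 : (constantCoeff : MvPolynomial (Fin n) K →+* K).comp
      (aeval b : MvPolynomial (Fin n) K →ₐ[K] MvPolynomial (Fin n) K).toRingHom =
      constantCoeff := by
    apply ringHom_ext
    · intro r
      simp
    · intro i
      simp [hb]
  exact RingHom.congr_fun h1 P

theorem sub_C_mem (P : MvPolynomial (Fin n) K) : P - C (constantCoeff P) ∈ wI K 1 1 := by
  rw [mem_one_iff, map_sub, constantCoeff_C, sub_self]

/-- **Newton's method.** -/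
theorem newton (a : Fin n → MvPolynomial (Fin n) K) (ha : ∀ t, constantCoeff (a t) = 0)
    (hdet : (jk a).det ≠ 0) (k : ℕ) :
    ∃ b : Fin n → MvPolynomial (Fin n) K, (∀ t, constantCoeff (b t) = 0) ∧
      ∀ t, aeval b (a t) - X t ∈ wI K 1 (k + 1) := by
  classical
  have hu : IsUnit (jk a).det := isUnit_iff_ne_zero.2 hdet
  induction k with
  | zero =>
    refine ⟨fun _ => 0, fun t => map_zero _, fun t => ?_⟩
    rw [zero_add, mem_one_iff, map_sub, cc_aeval _ (fun t => map_zero _), ha, constantCoeff_X,
      sub_zero]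
  | succ k ih =>
    obtain ⟨b, hb, hab⟩ := ih
    set δ : Fin n → MvPolynomial (Fin n) K := fun s =>
      -∑ t, C ((jk a)⁻¹ s t) * (aeval b (a t) - X t) with hδ
    have hδm : ∀ s, δ s ∈ wI K 1 (k + 1) := fun s =>
      Ideal.neg_mem_iff _ |>.2 (Ideal.sum_mem _ fun t _ => Ideal.mul_mem_left _ _ (hab t))
    refine ⟨fun s => b s + δ s, fun s => ?_, fun t => ?_⟩
    · rw [map_add, hb, zero_add]
      exact mem_one_iff.1 (wI_mono (by omega) (hδm s))
    · have h1 := wI_mono (show k + 1 + 1 ≤ 2 * (k + 1) by omega) (taylor_mem (a t) b δ hδm)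
      have h2 : ∑ s, (aeval b (pderiv s (a t)) - C (jk a t s)) * δ s ∈ wI K 1 (k + 1 + 1) := by
        refine Ideal.sum_mem _ fun s _ => ?_
        rw [add_comm (k + 1) 1]
        refine wI_mul ?_ (hδm s)
        rw [mem_one_iff, map_sub, constantCoeff_C, cc_aeval b hb]
        unfold jk
        rw [Matrix.of_apply, sub_self]
      have h3 : ∑ s, C (jk a t s) * δ s = -(aeval b (a t) - X t) := by
        have h4 : ∀ s, C (jk a t s) * δ s =
            -∑ r, C (jk a t s * (jk a)⁻¹ s r) * (aeval b (a r) - X r) := by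
          intro s
          rw [hδ]
          simp only
          rw [mul_neg, Finset.mul_sum]
          congr 1
          refine Finset.sum_congr rfl fun r _ => ?_
          rw [C_mul]
          ring
        rw [Finset.sum_congr rfl fun s _ => h4 s, Finset.sum_neg_distrib, Finset.sum_comm]
        congr 1
        have h5 : ∀ r, ∑ s, C (jk a t s * (jk a)⁻¹ s r) * (aeval b (a r) - X r) =
            C ((1 : Matrix (Fin n) (Fin n) K) t r) * (aeval b (a r) - X r) := by
          intro r
          rw [← Finset.sum_mul, ← map_sum, ← Matrix.mul_nonsing_inv (jk a) hu, Matrix.mul_apply]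
        rw [Finset.sum_congr rfl fun r _ => h5 r, Finset.sum_eq_single t]
        · rw [Matrix.one_apply_eq, C_1, one_mul]
        · intro r _ hr
          rw [Matrix.one_apply_ne (Ne.symm hr), C_0, zero_mul]
        · intro h
          exact absurd (Finset.mem_univ t) h
      have h6 := Ideal.add_mem _ h1 h2
      have h7 : ∑ s, (aeval b (pderiv s (a t)) - C (jk a t s)) * δ s =
          ∑ s, aeval b (pderiv s (a t)) * δ s - ∑ s, C (jk a t s) * δ s := by
        rw [← Finset.sum_sub_distrib]
        exact Finset.sum_congr rfl fun s _ => sub_mul _ _ _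
      rw [h7, h3] at h6
      have e : aeval (fun s => b s + δ s) (a t) - X t =
          aeval (fun s => b s + δ s) (a t) - aeval b (a t) -
            ∑ s, aeval b (pderiv s (a t)) * δ s +
          (∑ s, aeval b (pderiv s (a t)) * δ s - -(aeval b (a t) - X t)) := by ring
      rw [e]
      exact h6

/-- the derivatives of the inverse -/
theorem det_inv (a b : Fin n → MvPolynomial (Fin n) K) (ha : ∀ t, constantCoeff (a t) = 0)
    (hb : ∀ t, constantCoeff (b t) = 0) (h : ∀ t, aeval b (a t) - X t ∈ wI K 1 2) :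
    (jk b).det ≠ 0 := by
  classical
  have hcd : ∀ (F : MvPolynomial (Fin n) K), F ∈ wI K 1 2 → ∀ s, constantCoeff (pderiv s F) = 0 := by
    intro F hF s
    rw [constantCoeff_eq, coeff_pderiv]
    rw [hF _ (by rw [map_add, map_zero, zero_add, Finsupp.weight_single]; simp), zero_mul]
  have h1 : jk a * jk b = 1 := by
    ext t s
    have h2 := taylor_mem (k := 1) (a t) (fun _ => 0) b (fun t => mem_one_iff.2 (hb t))
    simp only [zero_add, mul_one] at h2
    have h3 := Ideal.sub_mem _ (h t) h2
    have h4 := hcd _ h3 s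
    have h5 : ∀ P : MvPolynomial (Fin n) K,
        aeval (fun _ : Fin n => (0 : MvPolynomial (Fin n) K)) P = C (constantCoeff P) := by
      intro P
      have h6 : (aeval (fun _ : Fin n => (0 : MvPolynomial (Fin n) K)) :
          MvPolynomial (Fin n) K →ₐ[K] MvPolynomial (Fin n) K).toRingHom =
          C.comp constantCoeff := by
        apply ringHom_ext
        · intro r
          simp
        · intro i
          simp
      exact RingHom.congr_fun h6 P
    have e : aeval b (a t) - X t - (aeval b (a t) -
        aeval (fun _ : Fin n => (0 : MvPolynomial (Fin n) K)) (a t) -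
        ∑ s, aeval (fun _ : Fin n => (0 : MvPolynomial (Fin n) K)) (pderiv s (a t)) * b s) =
        ∑ s, C (jk a t s) * b s - X t := by
      rw [h5, ha, C_0]
      have h7 : ∀ s, aeval (fun _ : Fin n => (0 : MvPolynomial (Fin n) K)) (pderiv s (a t)) * b s =
          C (jk a t s) * b s := by
        intro s
        rw [h5]
        unfold jk
        rw [Matrix.of_apply]
      rw [Finset.sum_congr rfl fun s _ => h7 s]
      ring
    rw [e, map_sub, map_sub, map_sum, map_sum] at h4
    have h8 : ∀ r, constantCoeff (pderiv s (C (jk a t r) * b r)) = jk a t r * jk b r s := by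
      intro r
      rw [pderiv_C_mul, map_mul, constantCoeff_C]
      unfold jk
      rw [Matrix.of_apply, Matrix.of_apply]
    rw [Finset.sum_congr rfl fun r _ => h8 r, pderiv_X, sub_eq_zero] at h4
    rw [Matrix.mul_apply, h4, Matrix.one_apply]
    by_cases hts : t = s
    · subst hts
      rw [Pi.single_eq_same, if_pos rfl, map_one]
    · rw [Pi.single_eq_of_ne hts, if_neg hts, map_zero]
  intro h2
  have h3 := congrArg Matrix.det h1
  rw [Matrix.det_mul, h2, mul_zero, Matrix.det_one] at h3
  exact zero_ne_one h3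

end Pool.Agent.H940.R
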