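import Pool.Agent.H940.R.Stab

set_option autoImplicit false
set_option linter.unusedSectionVars false
set_option linter.unusedVariables false

/-! # Scalings of the coordinates -/

namespace Pool.Agent.H940.R

open MeasureTheory MvPolynomial Topology
open Pool.Agent.W427.SMC Pool.Agent.Y230.PS Pool.Agent.Q57.QP
open Pool.Agent.Y230.PT hiding CO
open Pool.Agent.Q66.QP
open scoped ENNReal

attribute [local instance] msK bsK msZ bsZ

variable {p : ℕ} [Fact p.Prime] {σ : Type} [Fintype σ]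

/-- the multiplication of the coordinates by the numbers `c_i` -/
noncomputable def sd (c : σ → ℚ_[p]) (x : σ → ℚ_[p]) : σ → ℚ_[p] := fun i => c i * x i

theorem sd_cont (c : σ → ℚ_[p]) : Continuous (sd c) :=
  continuous_pi fun i => continuous_const.mul (continuous_apply i)

/-- the scaling as a homeomorphism -/
noncomputable def sdH (c : σ → ℚ_[p]) (hc : ∀ i, c i ≠ 0) : (σ → ℚ_[p]) ≃ₜ (σ → ℚ_[p]) where
  toFun := sd c
  invFun := sd fun i => (c i)⁻¹
  left_inv x := by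
    funext i
    simp only [sd]
    rw [← mul_assoc, inv_mul_cancel₀ (hc i), one_mul]
  right_inv x := by
    funext i
    simp only [sd]
    rw [← mul_assoc, mul_inv_cancel₀ (hc i), one_mul]
  continuous_toFun := sd_cont c
  continuous_invFun := sd_cont _

theorem sd_sd (c e : σ → ℚ_[p]) (x : σ → ℚ_[p]) : sd c (sd e x) = sd (fun i => c i * e i) x := by
  funext i
  simp only [sd]
  rw [mul_assoc]

theorem sd_zero (c : σ → ℚ_[p]) : sd c 0 = 0 := by
  funext i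
  simp only [sd, Pi.zero_apply, mul_zero]

theorem muE_sd (c : σ → ℚ_[p]) (hc : ∀ i, c i ≠ 0) :
    muE p σ = (∏ i, N p 1 (c i)) • Measure.map (sd c) (muE p σ) := by
  unfold muE
  refine Measure.pi_eq fun s hs => ?_
  rw [Measure.smul_apply, Measure.map_apply (sd_cont c).measurable (MeasurableSet.univ_pi hs)]
  have h1 : sd c ⁻¹' (Set.univ.pi s) = Set.univ.pi (fun i => (fun x => c i * x) ⁻¹' (s i)) := by
    ext x
    simp only [Set.mem_preimage, Set.mem_pi, Set.mem_univ, true_imp_iff]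
    exact Iff.rfl
  rw [h1, Measure.pi_pi]
  have h2 : ∀ i, nu p ((fun x => c i * x) ⁻¹' (s i)) = (N p 1 (c i))⁻¹ * nu p (s i) := by
    intro i
    have h3 := lintegral_scale p (c i) (hc i) ((s i).indicator 1)
    rw [lintegral_indicator_one (hs i)] at h3
    have h4 : ∀ x, (s i).indicator (1 : ℚ_[p] → ℝ≥0∞) (c i * x) =
        ((fun x => c i * x) ⁻¹' (s i)).indicator 1 x := fun x => rfl
    simp only [h4] at h3
    rw [lintegral_indicator_one ((measurable_const_mul (c i)) (hs i))] at h3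
    rw [← h3, ← mul_assoc, ENNReal.inv_mul_cancel (N_ne_zero 1 (hc i)) (N_ne_top 1 _), one_mul]
  simp only [h2]
  rw [Finset.prod_mul_distrib, smul_eq_mul, ← mul_assoc, ← Finset.prod_mul_distrib]
  have h3 : ∀ i, N p 1 (c i) * (N p 1 (c i))⁻¹ = 1 := fun i =>
    ENNReal.mul_inv_cancel (N_ne_zero 1 (hc i)) (N_ne_top 1 _)
  simp only [h3, Finset.prod_const_one, one_mul]

theorem lint_sd (c : σ → ℚ_[p]) (hc : ∀ i, c i ≠ 0) (F : (σ → ℚ_[p]) → ℝ≥0∞) :
    (∏ i, N p 1 (c i)) * ∫⁻ x, F (sd c x) ∂(muE p σ) = ∫⁻ x, F x ∂(muE p σ) := by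
  have h1 := lintegral_map_equiv (μ := muE p σ) F (sdH c hc).toMeasurableEquiv
  have h2 : ∫⁻ x, F x ∂(muE p σ) =
      ∫⁻ x, F x ∂((∏ i, N p 1 (c i)) • Measure.map (sd c) (muE p σ)) := by
    rw [← muE_sd c hc]
  rw [h2, lintegral_smul_measure]
  congr 1
  exact h1.symm

/-- integrals over images -/
theorem int_sd (c : σ → ℚ_[p]) (hc : ∀ i, c i ≠ 0) {V : Set (σ → ℚ_[p])} (hV : MeasurableSet V)
    (G : (σ → ℚ_[p]) → ℝ≥0∞) : ∫⁻ x in sd c '' V, G x ∂(muE p σ) =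
      (∏ i, N p 1 (c i)) * ∫⁻ x in V, G (sd c x) ∂(muE p σ) := by
  have hinj : Function.Injective (sd c) := (sdH c hc).injective
  have hVi : MeasurableSet (sd c '' V) := by
    have := (sdH c hc).toMeasurableEquiv.measurableSet_image.2 hV
    exact this
  rw [← lintegral_indicator hVi, ← lint_sd c hc, ← lintegral_indicator hV]
  congr 1
  refine lintegral_congr fun x => ?_
  by_cases hx : x ∈ V
  · rw [Set.indicator_of_mem hx, Set.indicator_of_mem (Set.mem_image_of_mem _ hx)]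
  · rw [Set.indicator_of_notMem hx, Set.indicator_of_notMem]
    rintro ⟨y, hy, hxy⟩
    exact hx (hinj hxy ▸ hy)

theorem co_sd (c : σ → ℚ_[p]) (hc : ∀ i, c i ≠ 0) {V : Set (σ → ℚ_[p])} (hV : CO V) :
    CO (sd c '' V) := ⟨hV.1.image (sd_cont c), (sdH c hc).isOpenMap _ hV.2⟩

theorem p_ne : (p : ℚ_[p]) ≠ 0 := by exact_mod_cast (Fact.out : p.Prime).ne_zero

/-- the powers of `p` -/
noncomputable def pp (p : ℕ) [Fact p.Prime] (a : σ → ℕ) : σ → ℚ_[p] := fun i => (p : ℚ_[p]) ^ a i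

theorem pp_ne (a : σ → ℕ) (i : σ) : pp p a i ≠ 0 := pow_ne_zero _ p_ne

theorem prod_pp (a : σ → ℕ) : ∏ i, N p 1 (pp p a i) = ((p : ℝ≥0∞)⁻¹) ^ (∑ i, a i) := by
  unfold pp
  simp only [N_pow, N1_p]
  rw [Finset.prod_pow_eq_pow_sum]

theorem geo_ne (W e : ℕ) (hW : 0 < W) {s : ℝ} (hs : 0 ≤ s) :
    (1 - ((qr p : ℝ) : ℂ) ^ W * ((tr' p s : ℝ) : ℂ) ^ e) ≠ 0 := by
  intro h5
  have h6 : qr p ^ W * tr' p s ^ e = 1 := by
    have h7 : ((qr p ^ W * tr' p s ^ e : ℝ) : ℂ) = ((1 : ℝ) : ℂ) := by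
      push_cast
      linear_combination -h5
    exact_mod_cast h7
  have h8 : qr p ^ W < 1 := pow_lt_one₀ qr_pos.le qr_lt_one hW.ne'
  have h9 : tr' p s ^ e ≤ 1 := pow_le_one₀ (tr'_pos p s).le (tr'_le_one' hs)
  have h10 : 0 < qr p ^ W := pow_pos qr_pos _
  have h11 : qr p ^ W * tr' p s ^ e ≤ qr p ^ W * 1 := mul_le_mul_of_nonneg_left h9 h10.le
  rw [h6, mul_one] at h11
  linarith

/-- solving the equation -/
theorem geo_solve {m m' : ℂ → ℕ∞} {W e : ℕ} (hW : 0 < W) (he : 0 < e)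
    (hm : ∀ T0 : ℂ, 1 < ‖T0‖ → (if T0 ^ e = (p : ℂ) ^ W then 1 else 0) + m T0 ≤ m' T0)
    {A S : ℝ → ℂ} (hS : FR p m S) (h : ∀ s : ℝ, 0 ≤ s →
      A s = S s + ((qr p : ℝ) : ℂ) ^ W * ((tr' p s : ℝ) : ℂ) ^ e * A s) : FR p m' A := by
  obtain ⟨n, hn⟩ : ∃ n, W = n + 1 := ⟨W - 1, by omega⟩
  subst hn
  refine (FR.mul (geo_FR (p := p) e n he) hS (m3 := m') hm).congr fun s hs => ?_
  rw [inv_mul_eq_iff_eq_mul₀ (geo_ne (n + 1) e (Nat.succ_pos n) hs)]
  linear_combination -(h s hs)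

/-- a weighted scaling maps balls around the origin to themselves -/
theorem sd_pp_sub (a : σ → ℕ) (r : ℝ) :
    sd (pp p a) '' Metric.closedBall 0 r ⊆ Metric.closedBall 0 r := by
  rintro _ ⟨x, hx, rfl⟩
  rw [Metric.mem_closedBall, dist_zero_right] at hx ⊢
  refine (pi_norm_le_iff_of_nonneg ((norm_nonneg _).trans hx)).2 fun i => ?_
  unfold sd pp
  rw [norm_mul, norm_pow, Padic.norm_p]
  have h1 : ((p : ℝ)⁻¹) ^ a i ≤ 1 :=
    pow_le_one₀ (inv_nonneg.2 pR0.le) (inv_le_one_of_one_le₀ pR.le)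
  exact (mul_le_of_le_one_left (norm_nonneg _) h1).trans ((norm_le_pi_norm x i).trans hx)

/-- **Weighted cones.** -/
theorem lp_wcone (a : σ → ℕ) (ha : 0 < ∑ i, a i) (e : ℕ) (he : 0 < e) {h : (σ → ℚ_[p]) → ℝ}
    (hh : Siz h) (hhom : ∀ x, h (sd (pp p a) x) = ‖(p : ℚ_[p])‖ ^ e * h x) (m m' : ℂ → ℕ∞)
    (hm : ∀ T0 : ℂ, 1 < ‖T0‖ → (if T0 ^ e = (p : ℂ) ^ (∑ i, a i) then 1 else 0) + m T0 ≤ m' T0)
    (hLP : ∀ P : σ → ℚ_[p], P ≠ 0 → LP m h P) : LP m' h 0 := by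
  have hmm : ∀ T0 : ℂ, 1 < ‖T0‖ → m T0 ≤ m' T0 := fun T0 hT0 => le_add_self.trans (hm T0 hT0)
  have hsh : ∀ V : Set (σ → ℚ_[p]), CO V → (∀ x ∈ V, x ≠ 0) → FR p m (IZ h V) :=
    fun V hV hx => Pool.Agent.Q261.QP.qp_glue p h hh m V hV fun P hP => hLP P (hx P hP)
  refine ⟨Set.univ, isOpen_univ, Set.mem_univ _,
    Pool.Agent.Q261.QP.qp_ball p h hh m' _ isOpen_univ ?_⟩
  intro c k _
  have hpk : 0 < (p : ℝ) ^ k := zpow_pos pR0 k
  have hco : CO (Metric.closedBall c ((p : ℝ) ^ k)) := co_ball c hpk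
  by_cases h0 : (0 : σ → ℚ_[p]) ∈ Metric.closedBall c ((p : ℝ) ^ k)
  swap
  · exact (hsh _ hco fun x hx h1 => h0 (h1 ▸ hx)).mono hmm
  · have hc : Metric.closedBall c ((p : ℝ) ^ k) = Metric.closedBall 0 ((p : ℝ) ^ k) :=
      IsUltrametricDist.closedBall_eq_of_mem h0
    rw [hc] at hco ⊢
    have hcp := co_sd (pp p a) (pp_ne a) hco
    have hsub := sd_pp_sub (p := p) a ((p : ℝ) ^ k)
    have hshell : FR p m (IZ h (Metric.closedBall 0 ((p : ℝ) ^ k) \
        sd (pp p a) '' Metric.closedBall 0 ((p : ℝ) ^ k))) := by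
      refine hsh _ (co_sdiff hco hcp) fun x hx h1 => hx.2 ?_
      exact ⟨0, Metric.mem_closedBall_self hpk.le, by rw [sd_zero, h1]⟩
    refine geo_solve (m := m) ha he hm hshell fun s hs => ?_
    have h1 : IZ h (Metric.closedBall 0 ((p : ℝ) ^ k)) s =
        IZ h (Metric.closedBall 0 ((p : ℝ) ^ k) \
          sd (pp p a) '' Metric.closedBall 0 ((p : ℝ) ^ k)) s +
        IZ h (sd (pp p a) '' Metric.closedBall 0 ((p : ℝ) ^ k)) s := by
      rw [← iz_union hh (co_sdiff hco hcp) hcp Set.disjoint_sdiff_left hs,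
        Set.sdiff_union_of_subset hsub]
    have h2 : IZ h (sd (pp p a) '' Metric.closedBall 0 ((p : ℝ) ^ k)) s =
        ((qr p : ℝ) : ℂ) ^ (∑ i, a i) * ((tr' p s : ℝ) : ℂ) ^ e *
          IZ h (Metric.closedBall 0 ((p : ℝ) ^ k)) s := by
      unfold IZ
      rw [int_sd (pp p a) (pp_ne a) (co_meas hco), prod_pp]
      have h3 : ∀ x, ENNReal.ofReal (h (sd (pp p a) x) ^ s) =
          (N p s (p : ℚ_[p])) ^ e * ENNReal.ofReal (h x ^ s) := by
        intro x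
        rw [hhom, Real.mul_rpow (pow_nonneg (norm_nonneg _) _) (siz_nonneg hh x),
          ENNReal.ofReal_mul (Real.rpow_nonneg (pow_nonneg (norm_nonneg _) _) _), ← N_pow]
        unfold N
        rw [norm_pow]
      simp only [h3]
      rw [lintegral_const_mul' _ _ (ENNReal.pow_ne_top (N_ne_top _ _)), ENNReal.toReal_mul,
        ENNReal.toReal_mul, ENNReal.toReal_pow, ENNReal.toReal_pow, toReal_pinv, N_p, Tt_toReal]
      push_cast
      ring
    rw [h2] at h1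
    exact h1

/-! ### Smooth points -/

theorem siz_ev (F : MvPolynomial σ ℚ_[p]) : Siz fun x : σ → ℚ_[p] => ‖eval x F‖ where
  cont := (MvPolynomial.continuous_eval F).norm
  val x := Pool.Agent.Q38.QP.norm_val _

theorem lp_mono {m m' : ℂ → ℕ∞} {h : (σ → ℚ_[p]) → ℝ} {P : σ → ℚ_[p]}
    (hm : ∀ T, 1 < ‖T‖ → m T ≤ m' T) (H : LP m h P) : LP m' h P := by
  obtain ⟨U, h1, h2, h3⟩ := H
  exact ⟨U, h1, h2, fun V hV hc => (h3 V hV hc).mono hm⟩

/-- the multiplicities of the smooth points -/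
noncomputable def m1 (p : ℕ) (T : ℂ) : ℕ∞ := if T = (p : ℂ) then 1 else 0

/-- **Smooth points.** -/
theorem lp_smooth [DecidableEq σ] (F : MvPolynomial σ ℚ_[p]) (P : σ → ℚ_[p])
    (h : eval P F ≠ 0 ∨ ∃ i, eval P (pderiv i F) ≠ 0) :
    LP (m1 p) (fun x => ‖eval x F‖) P := by
  by_cases h0 : eval P F = 0
  swap
  · exact Pool.Agent.Q261.QP.qp_unit p _ (siz_ev F) _ P (norm_ne_zero_iff.2 h0)
  obtain ⟨i, hi⟩ := h.resolve_left (not_not.2 h0)
  refine st_diff p 1 (fun _ x => eval x F) (fun _ => ∑ i, eval P (pderiv i F) •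
    (ContinuousLinearMap.proj i : (σ → ℚ_[p]) →L[ℚ_[p]] ℚ_[p])) (fun _ => i)
    (fun x => ‖eval x F‖) (fun y => ‖y 0‖) P (m1 p) (Pool.Agent.Q38.QP.siz_coord 0)
    (fun _ => Pool.Agent.Q210.QP.qp_eval p F P) ?_ (Filter.Eventually.of_forall fun x => rfl) ?_
  · rw [Matrix.det_unique, Matrix.of_apply, _root_.sum_apply, Finset.sum_eq_single i]
    · rw [_root_.smul_apply, ContinuousLinearMap.proj_apply, Pi.single_eq_same,
        smul_eq_mul, mul_one]
      exact hi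
    · intro j _ hj
      rw [_root_.smul_apply, ContinuousLinearMap.proj_apply, Pi.single_eq_of_ne hj, smul_zero]
    · intro h1
      exact absurd (Finset.mem_univ i) h1
  · simp only [h0]
    exact st_x1 p

end Pool.Agent.H940.R
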