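import Pool.Agent.H940.R.Scl

set_option autoImplicit false
set_option linter.unusedSectionVars false
set_option linter.unusedVariables false

/-! # p-adic integrals near semi-weighted homogeneous isolated singularities -/

namespace Pool.Agent.H940.R

open MeasureTheory MvPolynomial Topology
open Pool.Agent.W427.SMC Pool.Agent.Y230.PS Pool.Agent.Q57.QP
open Pool.Agent.Y230.PT hiding CO
open Pool.Agent.Q66.QP
open scoped ENNReal

attribute [local instance] msK bsK msZ bsZ

variable {p : ℕ} [Fact p.Prime] {σ : Type} [Fintype σ]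

/-! ### Scalings of polynomials -/

section poly

variable {K : Type} [Field K]

/-- the substitution `x_i ↦ c_i x_i` -/
noncomputable def sclp (c : σ → K) (F : MvPolynomial σ K) : MvPolynomial σ K :=
  aeval (fun i => C (c i) * X i : σ → MvPolynomial σ K) F

theorem eval_sclp (c : σ → K) (F : MvPolynomial σ K) (x : σ → K) :
    eval x (sclp c F) = eval (fun i => c i * x i) F := by
  unfold sclp
  rw [MvPolynomial.aeval_def, MvPolynomial.eval_eval₂]
  congr 1
  · ext; simp
  · funext i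
    simp

theorem sclp_monomial (c : σ → K) (α : σ →₀ ℕ) (r : K) :
    sclp c (monomial α r) = monomial α ((∏ i, c i ^ α i) * r) := by
  unfold sclp
  rw [aeval_monomial, algebraMap_eq, Finsupp.prod_fintype _ _ (by simp), monomial_eq,
    Finsupp.prod_fintype _ _ (by simp), map_mul, map_prod]
  simp only [mul_pow, map_pow]
  rw [Finset.prod_mul_distrib]
  ring

theorem coeff_sclp (c : σ → K) (F : MvPolynomial σ K) (α : σ →₀ ℕ) :
    coeff α (sclp c F) = (∏ i, c i ^ α i) * coeff α F := by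
  classical
  induction F using MvPolynomial.induction_on' with
  | monomial β r =>
    rw [sclp_monomial, coeff_monomial, coeff_monomial]
    split_ifs with h
    · rw [h]
    · rw [mul_zero]
  | add F G hF hG =>
    have h1 : sclp c (F + G) = sclp c F + sclp c G := map_add _ _ _
    rw [h1, coeff_add, coeff_add, hF, hG, mul_add]

theorem pderiv_sclp (c : σ → K) (F : MvPolynomial σ K) (i : σ) :
    pderiv i (sclp c F) = C (c i) * sclp c (pderiv i F) := by
  classical
  induction F using MvPolynomial.induction_on with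
  | C a =>
    have h1 : sclp c (C a) = C a := by
      unfold sclp
      rw [algHom_C, algebraMap_eq]
    have h2 : sclp c (0 : MvPolynomial σ K) = 0 := map_zero _
    rw [h1, pderiv_C, h2, mul_zero]
  | add F G hF hG =>
    have h1 : ∀ A B : MvPolynomial σ K, sclp c (A + B) = sclp c A + sclp c B :=
      fun A B => map_add _ _ _
    rw [h1, map_add, hF, hG, map_add, h1, mul_add]
  | mul_X F j hF =>
    have h1 : ∀ A B : MvPolynomial σ K, sclp c (A + B) = sclp c A + sclp c B :=
      fun A B => map_add _ _ _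
    have h2 : ∀ A B : MvPolynomial σ K, sclp c (A * B) = sclp c A * sclp c B :=
      fun A B => map_mul _ _ _
    have h3 : ∀ j, sclp c (X j : MvPolynomial σ K) = C (c j) * X j := by
      intro j
      unfold sclp
      rw [aeval_X]
    rw [h2, h3, Derivation.leibniz, Derivation.leibniz, smul_eq_mul, smul_eq_mul, hF,
      Derivation.leibniz, smul_eq_mul, smul_eq_mul, h1, smul_eq_mul, smul_eq_mul, h2, h2, h3,
      pderiv_C, mul_zero, add_zero, pderiv_X]
    by_cases hij : j = i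
    · subst hij
      rw [Pi.single_eq_same]
      have h4 : sclp c (1 : MvPolynomial σ K) = 1 := map_one _
      rw [h4]
      ring
    · rw [Pi.single_eq_of_ne hij]
      have h4 : sclp c (0 : MvPolynomial σ K) = 0 := map_zero _
      rw [h4]
      ring

end poly

/-! ### Bounds -/

theorem pow_lip (a b : ℚ_[p]) (ha : ‖a‖ ≤ 1) (hb : ‖b‖ ≤ 1) (k : ℕ) :
    ‖a ^ k - b ^ k‖ ≤ ‖a - b‖ := by
  induction k with
  | zero => rw [pow_zero, pow_zero, sub_self, norm_zero]; exact norm_nonneg _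
  | succ k ih =>
    have e : a ^ (k + 1) - b ^ (k + 1) = a ^ k * (a - b) + (a ^ k - b ^ k) * b := by ring
    rw [e]
    refine (IsUltrametricDist.norm_add_le_max _ _).trans (max_le ?_ ?_)
    · rw [norm_mul, norm_pow]
      exact mul_le_of_le_one_left (norm_nonneg _) (pow_le_one₀ (norm_nonneg _) ha)
    · rw [norm_mul]
      exact (mul_le_of_le_one_right (norm_nonneg _) hb).trans ih

theorem prod_lip {ι : Type} (s : Finset ι) (a b : ι → ℚ_[p]) (ha : ∀ i, ‖a i‖ ≤ 1)
    (hb : ∀ i, ‖b i‖ ≤ 1) (δ : ℝ) (hδ : 0 ≤ δ) (h : ∀ i, ‖a i - b i‖ ≤ δ) :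
    ‖∏ i ∈ s, a i‖ ≤ 1 ∧ ‖∏ i ∈ s, a i - ∏ i ∈ s, b i‖ ≤ δ := by
  classical
  induction s using Finset.induction_on with
  | empty => simp [hδ]
  | insert j s hj ih =>
    rw [Finset.prod_insert hj, Finset.prod_insert hj]
    refine ⟨?_, ?_⟩
    · rw [norm_mul]
      exact mul_le_one₀ (ha j) (norm_nonneg _) ih.1
    · have e : a j * ∏ i ∈ s, a i - b j * ∏ i ∈ s, b i =
          (a j - b j) * ∏ i ∈ s, a i + b j * (∏ i ∈ s, a i - ∏ i ∈ s, b i) := by ring
      rw [e]
      refine (IsUltrametricDist.norm_add_le_max _ _).trans (max_le ?_ ?_)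
      · rw [norm_mul]
        exact (mul_le_of_le_one_right (norm_nonneg _) ih.1).trans (h j)
      · rw [norm_mul]
        exact (mul_le_of_le_one_left (norm_nonneg _) (hb j)).trans ih.2

/-- polynomials with small coefficients are small and have small Lipschitz constants -/
theorem poly_lip (Q : MvPolynomial σ ℚ_[p]) (δ : ℝ) (hδ : 0 ≤ δ) (h : ∀ α, ‖coeff α Q‖ ≤ δ)
    (x y : σ → ℚ_[p]) (hx : ‖x‖ ≤ 1) (hy : ‖y‖ ≤ 1) :
    ‖eval x Q‖ ≤ δ ∧ ‖eval x Q - eval y Q‖ ≤ δ * ‖x - y‖ := by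
  have hxi : ∀ i, ‖x i‖ ≤ 1 := fun i => (norm_le_pi_norm x i).trans hx
  have hyi : ∀ i, ‖y i‖ ≤ 1 := fun i => (norm_le_pi_norm y i).trans hy
  have hm : ∀ α : σ →₀ ℕ, ‖∏ i, x i ^ α i‖ ≤ 1 ∧
      ‖∏ i, x i ^ α i - ∏ i, y i ^ α i‖ ≤ ‖x - y‖ := fun α =>
    prod_lip Finset.univ (fun i => x i ^ α i) (fun i => y i ^ α i)
      (fun i => by rw [norm_pow]; exact pow_le_one₀ (norm_nonneg _) (hxi i))
      (fun i => by rw [norm_pow]; exact pow_le_one₀ (norm_nonneg _) (hyi i)) _ (norm_nonneg _)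
      (fun i => (pow_lip _ _ (hxi i) (hyi i) _).trans (norm_le_pi_norm (x - y) i))
  rw [eval_eq', eval_eq', ← Finset.sum_sub_distrib]
  constructor
  · refine IsUltrametricDist.norm_sum_le_of_forall_le_of_nonneg hδ fun α _ => ?_
    rw [norm_mul]
    have := (hm α).1
    have h1 := h α
    have h2 := norm_nonneg (coeff α Q)
    nlinarith
  · refine IsUltrametricDist.norm_sum_le_of_forall_le_of_nonneg
      (mul_nonneg hδ (norm_nonneg _)) fun α _ => ?_
    rw [← mul_sub, norm_mul]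
    exact mul_le_mul (h α) (hm α).2 (norm_nonneg _) hδ

theorem coeff_pderiv_le (Q : MvPolynomial σ ℚ_[p]) (δ : ℝ) (hδ : 0 ≤ δ)
    (h : ∀ α, ‖coeff α Q‖ ≤ δ) (i : σ) (β : σ →₀ ℕ) : ‖coeff β (pderiv i Q)‖ ≤ δ := by
  classical
  rw [coeff_pderiv, norm_mul]
  have h1 : ‖((β i : ℚ_[p]) + 1)‖ ≤ 1 := by
    have h2 : ((β i : ℚ_[p]) + 1) = (((β i + 1 : ℕ) : ℤ_[p]) : ℚ_[p]) := by push_cast; rfl
    rw [h2]
    exact PadicInt.norm_le_one _
  exact (mul_le_of_le_one_right (norm_nonneg _) h1).trans (h _)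

theorem exists_bound (Q : MvPolynomial σ ℚ_[p]) : ∃ δ : ℝ, 0 ≤ δ ∧ ∀ α, ‖coeff α Q‖ ≤ δ := by
  classical
  refine ⟨∑ α ∈ Q.support, ‖coeff α Q‖, Finset.sum_nonneg fun _ _ => norm_nonneg _, fun α => ?_⟩
  by_cases hα : α ∈ Q.support
  · exact Finset.single_le_sum (f := fun α => ‖coeff α Q‖) (fun _ _ => norm_nonneg _) hα
  · rw [notMem_support_iff.1 hα, norm_zero]
    exact Finset.sum_nonneg fun _ _ => norm_nonneg _

end Pool.Agent.H940.R
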