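import Pool.Agent.H940.R.Sqh

set_option autoImplicit false
set_option linter.unusedSectionVars false
set_option linter.unusedVariables false

/-! # p-adic integrals near semi-weighted homogeneous isolated singularities -/

namespace Pool.Agent.H940.R

open MeasureTheory MvPolynomial Topology
open Pool.Agent.W427.SMC Pool.Agent.Y230.PS Pool.Agent.Q57.QP
open Pool.Agent.Y230.PT hiding CO
open Pool.Agent.Q66.QP
open scoped ENNReal

attribute [local instance] msK bsK msZ bsZ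

variable {p : ℕ} [Fact p.Prime] {σ : Type} [Fintype σ]

/-- the scaling factors -/
noncomputable def cw (p : ℕ) [Fact p.Prime] (w : σ → ℕ) (j : ℕ) : σ → ℚ_[p] :=
  pp p fun i => j * w i

theorem cw_ne (w : σ → ℕ) (j : ℕ) (i : σ) : cw p w j i ≠ 0 := pp_ne _ i

theorem prod_cw (w : σ → ℕ) (j : ℕ) (α : σ →₀ ℕ) :
    ∏ i, cw p w j i ^ α i = (p : ℚ_[p]) ^ (j * Finsupp.weight w α) := by
  unfold cw pp
  simp only [← pow_mul]
  rw [Finset.prod_pow_eq_pow_sum]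
  congr 1
  rw [Finsupp.weight_apply, Finsupp.sum_fintype _ _ (by simp), Finset.mul_sum]
  refine Finset.sum_congr rfl fun i _ => ?_
  rw [smul_eq_mul]
  ring

theorem sclp_wh {w : σ → ℕ} {e : ℕ} {g : MvPolynomial σ ℚ_[p]} (hg : g.IsWeightedHomogeneous w e)
    (j : ℕ) : sclp (cw p w j) g = C ((p : ℚ_[p]) ^ (j * e)) * g := by
  ext α
  rw [coeff_sclp, coeff_C_mul, prod_cw]
  by_cases h : coeff α g = 0
  · rw [h, mul_zero, mul_zero]
  · rw [hg h]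

/-- the error term -/
noncomputable def Qj (w : σ → ℕ) (e : ℕ) (R : MvPolynomial σ ℚ_[p]) (j : ℕ) :
    MvPolynomial σ ℚ_[p] := C (((p : ℚ_[p]) ^ (j * e))⁻¹) * sclp (cw p w j) R

/-- the boxes -/
noncomputable def Wj (p : ℕ) [Fact p.Prime] (w : σ → ℕ) (j : ℕ) : Set (σ → ℚ_[p]) :=
  sd (cw p w j) '' Metric.closedBall 0 1

/-- the shell -/
noncomputable def S0 (p : ℕ) [Fact p.Prime] (w : σ → ℕ) : Set (σ → ℚ_[p]) :=
  Metric.closedBall 0 1 \ sd (pp p w) '' Metric.closedBall 0 1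

theorem co_Wj (w : σ → ℕ) (j : ℕ) : CO (Wj p w j) := co_sd _ (cw_ne w j) (co_ball 0 one_pos)

theorem co_S0 (w : σ → ℕ) : CO (S0 p w) :=
  co_sdiff (co_ball 0 one_pos) (co_sd _ (pp_ne w) (co_ball 0 one_pos))

theorem S0_ne (w : σ → ℕ) {x : σ → ℚ_[p]} (hx : x ∈ S0 p w) : x ≠ 0 := by
  rintro rfl
  exact hx.2 ⟨0, Metric.mem_closedBall_self zero_le_one, sd_zero _⟩

theorem S0_norm (w : σ → ℕ) {x : σ → ℚ_[p]} (hx : x ∈ S0 p w) : ‖x‖ ≤ 1 := by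
  have := hx.1
  rwa [Metric.mem_closedBall, dist_zero_right] at this

theorem Wj_succ (w : σ → ℕ) (j : ℕ) :
    Wj p w (j + 1) = sd (cw p w j) '' (sd (pp p w) '' Metric.closedBall 0 1) := by
  unfold Wj
  rw [Set.image_image]
  refine Set.image_congr fun x _ => ?_
  rw [sd_sd]
  congr 1
  funext i
  unfold cw pp
  rw [← pow_add]
  congr 1
  ring

theorem Wj_sub (w : σ → ℕ) (j : ℕ) : Wj p w (j + 1) ⊆ Wj p w j := by
  rw [Wj_succ]
  exact Set.image_mono (sd_pp_sub w 1)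

theorem Wj_diff (w : σ → ℕ) (j : ℕ) : Wj p w j \ Wj p w (j + 1) = sd (cw p w j) '' S0 p w := by
  rw [Wj_succ]
  unfold Wj S0
  have hi : Function.Injective (sd (cw p w j)) := (sdH (cw p w j) (cw_ne w j)).injective
  rw [Set.image_sdiff hi]

theorem zero_mem_Wj (w : σ → ℕ) (j : ℕ) : (0 : σ → ℚ_[p]) ∈ Wj p w j :=
  ⟨0, Metric.mem_closedBall_self zero_le_one, sd_zero _⟩

theorem Wj_norm {w : σ → ℕ} (hw : ∀ i, 0 < w i) {j : ℕ} {x : σ → ℚ_[p]} (hx : x ∈ Wj p w j) :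
    ‖x‖ ≤ ((p : ℝ)⁻¹) ^ j := by
  obtain ⟨y, hy, rfl⟩ := hx
  rw [Metric.mem_closedBall, dist_zero_right] at hy
  have hp0 : (0 : ℝ) ≤ (p : ℝ)⁻¹ := inv_nonneg.2 pR0.le
  have hp1 : (p : ℝ)⁻¹ ≤ 1 := inv_le_one_of_one_le₀ pR.le
  refine (pi_norm_le_iff_of_nonneg (pow_nonneg hp0 j)).2 fun i => ?_
  unfold sd cw pp
  rw [norm_mul, norm_pow, Padic.norm_p]
  have h1 : ((p : ℝ)⁻¹) ^ (j * w i) ≤ ((p : ℝ)⁻¹) ^ j :=
    pow_le_pow_of_le_one hp0 hp1 (Nat.le_mul_of_pos_right j (hw i))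
  have h2 : ‖y i‖ ≤ 1 := (norm_le_pi_norm y i).trans hy
  exact (mul_le_of_le_one_right (pow_nonneg hp0 _) h2).trans h1

theorem Wj_norm1 (w : σ → ℕ) (j : ℕ) {x : σ → ℚ_[p]} (hx : x ∈ Wj p w j) : ‖x‖ ≤ 1 := by
  have h1 := sd_pp_sub (p := p) (fun i => j * w i) 1 hx
  rwa [Metric.mem_closedBall, dist_zero_right] at h1

/-- powers of `1 / p` become small -/
theorem exists_small (c ε : ℝ) (hε : 0 < ε) : ∃ J : ℕ, ∀ j ≥ J, c * ((p : ℝ)⁻¹) ^ j ≤ ε := by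
  have hp0 : (0 : ℝ) ≤ (p : ℝ)⁻¹ := inv_nonneg.2 pR0.le
  have hp1 : (p : ℝ)⁻¹ < 1 := inv_lt_one_of_one_lt₀ pR
  rcases le_or_gt c 0 with hc | hc
  · exact ⟨0, fun j _ => (mul_nonpos_of_nonpos_of_nonneg hc (pow_nonneg hp0 j)).trans hε.le⟩
  · obtain ⟨J, hJ⟩ := exists_pow_lt_of_lt_one (div_pos hε hc) hp1
    refine ⟨J, fun j hj => ?_⟩
    have h1 : ((p : ℝ)⁻¹) ^ j ≤ ((p : ℝ)⁻¹) ^ J := pow_le_pow_of_le_one hp0 hp1.le hj
    have h2 : ((p : ℝ)⁻¹) ^ j ≤ ε / c := h1.trans hJ.le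
    calc c * ((p : ℝ)⁻¹) ^ j ≤ c * (ε / c) := mul_le_mul_of_nonneg_left h2 hc.le
      _ = ε := by field_simp

section

variable {w : σ → ℕ} (hw : ∀ i, 0 < w i) {e : ℕ} (he : 0 < e) {g R : MvPolynomial σ ℚ_[p]}
  (hg : g.IsWeightedHomogeneous w e) (hR : ∀ α ∈ R.support, e < Finsupp.weight w α)
  (hcrit : ∀ x : σ → ℚ_[p], (∀ i, eval x (pderiv i g) = 0) → x = 0)
include hw he hg hR hcrit

theorem sclp_F (j : ℕ) : sclp (cw p w j) (g + R) = C ((p : ℚ_[p]) ^ (j * e)) * (g + Qj w e R j) := by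
  have h1 : sclp (cw p w j) (g + R) = sclp (cw p w j) g + sclp (cw p w j) R := map_add _ _ _
  rw [h1, sclp_wh hg, mul_add]
  unfold Qj
  rw [← mul_assoc, ← C_mul, mul_inv_cancel₀ (pow_ne_zero _ p_ne), C_1, one_mul]

theorem Qj_bound : ∃ δ : ℝ, 0 ≤ δ ∧ ∀ j α, ‖coeff α (Qj w e R j)‖ ≤ δ * ((p : ℝ)⁻¹) ^ j := by
  obtain ⟨δ, hδ, h1⟩ := exists_bound R
  refine ⟨δ, hδ, fun j α => ?_⟩
  have hp0 : (0 : ℝ) ≤ (p : ℝ)⁻¹ := inv_nonneg.2 pR0.le
  have hp1 : (p : ℝ)⁻¹ ≤ 1 := inv_le_one_of_one_le₀ pR.le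
  have hpp : (p : ℝ)⁻¹ ≠ 0 := inv_ne_zero pR0.ne'
  unfold Qj
  rw [coeff_C_mul, coeff_sclp, prod_cw]
  by_cases hα : coeff α R = 0
  · rw [hα, mul_zero, mul_zero, norm_zero]
    exact mul_nonneg hδ (pow_nonneg hp0 j)
  · have h2 := hR α (mem_support_iff.2 hα)
    rw [norm_mul, norm_mul, norm_inv, norm_pow, norm_pow, Padic.norm_p]
    obtain ⟨k, hk⟩ : ∃ k, Finsupp.weight w α = e + (k + 1) := ⟨Finsupp.weight w α - e - 1, by omega⟩
    rw [hk]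
    have h3 : (((p : ℝ)⁻¹) ^ (j * e))⁻¹ * (((p : ℝ)⁻¹) ^ (j * (e + (k + 1))) * ‖coeff α R‖) =
        ((p : ℝ)⁻¹) ^ (j * (k + 1)) * ‖coeff α R‖ := by
      rw [mul_add, pow_add, ← mul_assoc, ← mul_assoc, inv_mul_cancel₀ (pow_ne_zero _ hpp), one_mul]
    rw [h3, mul_comm]
    refine mul_le_mul (h1 α) ?_ (pow_nonneg hp0 _) hδ
    exact pow_le_pow_of_le_one hp0 hp1 (Nat.le_mul_of_pos_right j (Nat.succ_pos k))

/-- far inside, the error term does not matter -/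
theorem exists_j1 : ∃ J : ℕ, ∀ j ≥ J,
    (∀ s : ℝ, ∫⁻ x in S0 p w, ENNReal.ofReal (‖eval x g + eval x (Qj w e R j)‖ ^ s) ∂(muE p σ) =
      ∫⁻ x in S0 p w, ENNReal.ofReal (‖eval x g‖ ^ s) ∂(muE p σ)) ∧
    ∀ x ∈ S0 p w, ∃ i, eval x (pderiv i (g + Qj w e R j)) ≠ 0 := by
  classical
  obtain ⟨δ, hδ, hQ⟩ := Qj_bound hw he hg hR hcrit
  have hp0 : (0 : ℝ) ≤ (p : ℝ)⁻¹ := inv_nonneg.2 pR0.le
  have hgr : ∀ x ∈ S0 p w, ∃ i, eval x (pderiv i g) ≠ 0 := by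
    intro x hx
    by_contra hc
    push Not at hc
    exact S0_ne w hx (hcrit x hc)
  obtain ⟨ε, hε, hst⟩ := stb g (S0 p w) (co_S0 w) fun x hx => Or.inr (hgr x hx)
  obtain ⟨η, hη, hmin⟩ : ∃ η : ℝ, 0 < η ∧ ∀ x ∈ S0 p w, η ≤ ‖fun i => eval x (pderiv i g)‖ := by
    rcases (S0 p w).eq_empty_or_nonempty with h0 | h0
    · exact ⟨1, one_pos, fun x hx => by rw [h0] at hx; exact absurd hx (Set.notMem_empty x)⟩
    · have hc : Continuous fun x : σ → ℚ_[p] => ‖fun i => eval x (pderiv i g)‖ :=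
        continuous_norm.comp (continuous_pi fun j => MvPolynomial.continuous_eval _)
      obtain ⟨x0, hx0, h1⟩ := (co_S0 w).1.exists_isMinOn h0 hc.continuousOn
      refine ⟨_, ?_, fun x hx => h1 hx⟩
      obtain ⟨i, hi⟩ := hgr x0 hx0
      exact norm_pos_iff.2 fun h2 => hi (congrFun h2 i)
  obtain ⟨J1, hJ1⟩ := exists_small (p := p) δ ε hε
  obtain ⟨J2, hJ2⟩ := exists_small (p := p) δ (η / 2) (half_pos hη)
  refine ⟨max J1 J2, fun j hj => ⟨fun s => ?_, fun x hx => ?_⟩⟩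
  · have hδj : 0 ≤ δ * ((p : ℝ)⁻¹) ^ j := mul_nonneg hδ (pow_nonneg hp0 j)
    have h1 := hJ1 j ((le_max_left _ _).trans hj)
    exact hst (fun x => eval x (Qj w e R j))
      (fun x hx => ((poly_lip _ _ hδj (hQ j) x x (S0_norm w hx) (S0_norm w hx)).1).trans h1)
      (fun x hx y hy => ((poly_lip _ _ hδj (hQ j) x y (S0_norm w hx) (S0_norm w hy)).2).trans
        (mul_le_mul_of_nonneg_right h1 (norm_nonneg _))) s
  · by_contra hc
    push Not at hc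
    have hδj : 0 ≤ δ * ((p : ℝ)⁻¹) ^ j := mul_nonneg hδ (pow_nonneg hp0 j)
    have h1 := hJ2 j ((le_max_right _ _).trans hj)
    have h2 := hmin x hx
    have h3 : ‖fun i => eval x (pderiv i g)‖ ≤ δ * ((p : ℝ)⁻¹) ^ j := by
      refine (pi_norm_le_iff_of_nonneg hδj).2 fun i => ?_
      have h4 := hc i
      rw [map_add, map_add] at h4
      rw [eq_neg_of_add_eq_zero_left h4, norm_neg]
      exact (poly_lip _ _ hδj (coeff_pderiv_le _ _ hδj (hQ j) i) x x (S0_norm w hx)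
        (S0_norm w hx)).1
    linarith

/-- a point of a shell -/
theorem exists_shell {J : ℕ} {P : σ → ℚ_[p]} (hP : P ∈ Wj p w J) (hP0 : P ≠ 0) :
    ∃ j ≥ J, ∃ z ∈ S0 p w, P = sd (cw p w j) z := by
  classical
  have hex : ∃ k, P ∉ Wj p w k := by
    by_contra hc
    push Not at hc
    obtain ⟨k, hk⟩ := exists_pow_lt_of_lt_one (norm_pos_iff.2 hP0)
      (inv_lt_one_of_one_lt₀ (pR (p := p)))
    exact absurd (Wj_norm hw (hc k)) (not_le.2 hk)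
  have hk := Nat.find_spec hex
  have hmin : ∀ m < Nat.find hex, P ∈ Wj p w m := fun m hm => not_not.1 (Nat.find_min hex hm)
  have hanti : Antitone (Wj p w) := antitone_nat_of_succ_le (Wj_sub w)
  have hJk : J < Nat.find hex := by
    by_contra hc
    exact hk (hanti (not_lt.1 hc) hP)
  obtain ⟨m, hm⟩ : ∃ m, Nat.find hex = m + 1 := ⟨Nat.find hex - 1, by omega⟩
  have h1 : P ∈ Wj p w m \ Wj p w (m + 1) := ⟨hmin m (by omega), by rw [← hm]; exact hk⟩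
  rw [Wj_diff] at h1
  obtain ⟨z, hz, h2⟩ := h1
  exact ⟨m, by omega, z, hz, h2.symm⟩

/-- the points near the origin are smooth, and the integrals over the shells -/
theorem exists_j2 : ∃ J : ℕ, (∀ j ≥ J, ∀ s : ℝ,
    ∫⁻ x in Wj p w j \ Wj p w (j + 1), ENNReal.ofReal (‖eval x (g + R)‖ ^ s) ∂(muE p σ) =
      (((p : ℝ≥0∞)⁻¹) ^ (∑ i, w i) * (N p s (p : ℚ_[p])) ^ e) ^ j *
        ∫⁻ x in S0 p w, ENNReal.ofReal (‖eval x g‖ ^ s) ∂(muE p σ)) ∧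
    ∀ P ∈ Wj p w J, P ≠ 0 → ∃ i, eval P (pderiv i (g + R)) ≠ 0 := by
  obtain ⟨J, hJ⟩ := exists_j1 hw he hg hR hcrit
  refine ⟨J, fun j hj s => ?_, fun P hP hP0 => ?_⟩
  · rw [Wj_diff, int_sd _ (cw_ne w j) (co_meas (co_S0 w))]
    have h1 : ∏ i, N p 1 (cw p w j i) = (((p : ℝ≥0∞)⁻¹) ^ (∑ i, w i)) ^ j := by
      unfold cw
      rw [prod_pp, ← Finset.mul_sum, ← pow_mul, mul_comm]
    have h2 : ∀ x, ENNReal.ofReal (‖eval (sd (cw p w j) x) (g + R)‖ ^ s) =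
        ((N p s (p : ℚ_[p])) ^ e) ^ j *
          ENNReal.ofReal (‖eval x g + eval x (Qj w e R j)‖ ^ s) := by
      intro x
      have h3 : eval (sd (cw p w j) x) (g + R) = (p : ℚ_[p]) ^ (j * e) *
          (eval x g + eval x (Qj w e R j)) := by
        have h4 := congrArg (eval x) (sclp_F hw he hg hR hcrit j)
        rw [eval_sclp, map_mul, eval_C, map_add (eval x) g] at h4
        exact h4
      rw [h3, norm_mul, Real.mul_rpow (norm_nonneg _) (norm_nonneg _),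
        ENNReal.ofReal_mul (Real.rpow_nonneg (norm_nonneg _) _)]
      congr 1
      have h5 : ENNReal.ofReal (‖(p : ℚ_[p]) ^ (j * e)‖ ^ s) = N p s ((p : ℚ_[p]) ^ (j * e)) := rfl
      rw [h5, N_pow, mul_comm j e, pow_mul]
    simp only [h2]
    rw [lintegral_const_mul' _ _ (ENNReal.pow_ne_top (ENNReal.pow_ne_top (N_ne_top _ _))),
      (hJ j hj).1 s, h1, mul_pow, mul_assoc]
  · obtain ⟨j, hj, z, hz, rfl⟩ := exists_shell hw he hg hR hcrit hP hP0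
    obtain ⟨i, hi⟩ := (hJ j hj).2 z hz
    refine ⟨i, fun h0 => hi ?_⟩
    have h1 := congrArg (eval z) (pderiv_sclp (cw p w j) (g + R) i)
    rw [map_mul, eval_sclp, sclp_F hw he hg hR hcrit, pderiv_C_mul, map_mul, eval_C] at h1
    have h2 : eval (fun i => cw p w j i * z i) (pderiv i (g + R)) = 0 := h0
    rw [h2, mul_zero] at h1
    exact (mul_eq_zero.1 h1).resolve_left (pow_ne_zero _ p_ne)

end

end Pool.Agent.H940.R
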