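import Pool.Graph.R_pool_sql_team_seeded_3997aac3.Q57.QP.All0

set_option autoImplicit false
set_option linter.unusedSectionVars false
set_option linter.unusedVariables false

/-! # p-adic integrals of small perturbations -/

namespace Pool.Agent.H940.R

open MeasureTheory MvPolynomial Topology
open Pool.Agent.W427.SMC Pool.Agent.Y230.PS Pool.Agent.Q57.QP
open Pool.Agent.Y230.PT hiding CO
open Pool.Agent.Q66.QP
open scoped ENNReal

attribute [local instance] msK bsK msZ bsZ

variable {p : ℕ} [Fact p.Prime] {σ : Type} [Fintype σ]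

theorem pR : (1 : ℝ) < p := by exact_mod_cast (Fact.out : p.Prime).one_lt

theorem pR0 : (0 : ℝ) < p := lt_trans one_pos pR

/-- induction for compact open sets -/
theorem co_ind (A : Set (σ → ℚ_[p]) → Prop) (h0 : A ∅)
    (hu : ∀ V W, CO V → CO W → Disjoint V W → A V → A W → A (V ∪ W))
    (V : Set (σ → ℚ_[p])) (hV : CO V)
    (hloc : ∀ P ∈ V, ∃ U : Set (σ → ℚ_[p]), IsOpen U ∧ P ∈ U ∧ ∀ (a : σ → ℚ_[p]) (k : ℤ),
      Metric.closedBall a ((p : ℝ) ^ k) ⊆ U → A (Metric.closedBall a ((p : ℝ) ^ k))) : A V := by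
  classical
  have hS : ∀ S : Finset (Set (σ → ℚ_[p])), (∀ B ∈ S, CO B) → (∀ B ∈ S, A B) →
      (∀ B ∈ S, ∀ B' ∈ S, B ≠ B' → Disjoint B B') → CO (⋃ B ∈ S, B) ∧ A (⋃ B ∈ S, B) := by
    intro S
    induction S using Finset.induction_on with
    | empty =>
      intro _ _ _
      have e : (⋃ B ∈ (∅ : Finset (Set (σ → ℚ_[p]))), B) = ∅ := by simp
      rw [e]
      exact ⟨⟨isCompact_empty, isOpen_empty⟩, h0⟩
    | insert B S hB ih =>
      intro h1 h2 h3
      obtain ⟨i1, i2⟩ := ih (fun B' h => h1 B' (Finset.mem_insert_of_mem h))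
        (fun B' h => h2 B' (Finset.mem_insert_of_mem h))
        (fun B' h B'' h' => h3 B' (Finset.mem_insert_of_mem h) B'' (Finset.mem_insert_of_mem h'))
      have c1 := h1 B (Finset.mem_insert_self _ _)
      have e : (⋃ B' ∈ insert B S, B') = B ∪ ⋃ B' ∈ S, B' := by
        rw [Finset.set_biUnion_insert]
      rw [e]
      have hd : Disjoint B (⋃ B' ∈ S, B') := by
        rw [Set.disjoint_iUnion₂_right]
        intro B' hB'
        exact h3 B (Finset.mem_insert_self _ _) B' (Finset.mem_insert_of_mem hB') fun e =>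
          hB (e ▸ hB')
      exact ⟨co_union c1 i1, hu _ _ c1 i1 hd (h2 B (Finset.mem_insert_self _ _)) i2⟩
  choose! U hU1 hU2 hU3 using hloc
  obtain ⟨δ, hδ, hδ'⟩ := lebesgue_number_lemma_of_metric (s := V) (c := fun P : V => V ∩ U P) hV.1
    (fun P => hV.2.inter (hU1 P P.2)) (fun x hx => Set.mem_iUnion.2 ⟨⟨x, hx⟩, hx, hU2 x hx⟩)
  obtain ⟨n, hn⟩ := exists_pow_lt_of_lt_one hδ (inv_lt_one_of_one_lt₀ (pR (p := p)))
  set k : ℤ := -(n : ℤ) with hk
  have hkδ : (p : ℝ) ^ k < δ := by
    rw [hk, zpow_neg, zpow_natCast, ← inv_pow]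
    exact hn
  have hball : ∀ x ∈ V, Metric.closedBall x ((p : ℝ) ^ k) ⊆ V ∧
      A (Metric.closedBall x ((p : ℝ) ^ k)) := by
    intro x hx
    obtain ⟨P, hP⟩ := hδ' x hx
    have h1 : Metric.closedBall x ((p : ℝ) ^ k) ⊆ V ∩ U P :=
      (Metric.closedBall_subset_ball hkδ).trans hP
    exact ⟨fun y hy => (h1 hy).1, hU3 P P.2 x k fun y hy => (h1 hy).2⟩
  obtain ⟨t, ht1, ht2⟩ := hV.1.elim_nhds_subcover (fun x => Metric.closedBall x ((p : ℝ) ^ k))
    (fun x _ => Metric.closedBall_mem_nhds x (zpow_pos pR0 k))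
  let S : Finset (Set (σ → ℚ_[p])) := t.image fun x => Metric.closedBall x ((p : ℝ) ^ k)
  have e : V = ⋃ B ∈ S, B := by
    apply Set.Subset.antisymm
    · intro y hy
      obtain ⟨x, hx, hxy⟩ := Set.mem_iUnion₂.1 (ht2 hy)
      exact Set.mem_iUnion₂.2 ⟨_, Finset.mem_image.2 ⟨x, hx, rfl⟩, hxy⟩
    · intro y hy
      obtain ⟨B, hB, hyB⟩ := Set.mem_iUnion₂.1 hy
      obtain ⟨x, hx, rfl⟩ := Finset.mem_image.1 hB
      exact (hball x (ht1 x hx)).1 hyB
  rw [e]
  refine (hS S ?_ ?_ ?_).2
  · intro B hB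
    obtain ⟨x, hx, rfl⟩ := Finset.mem_image.1 hB
    exact co_ball x (zpow_pos pR0 k)
  · intro B hB
    obtain ⟨x, hx, rfl⟩ := Finset.mem_image.1 hB
    exact (hball x (ht1 x hx)).2
  · intro B hB B' hB' hne
    obtain ⟨x, hx, rfl⟩ := Finset.mem_image.1 hB
    obtain ⟨x', hx', rfl⟩ := Finset.mem_image.1 hB'
    rcases IsUltrametricDist.closedBall_eq_or_disjoint x x' ((p : ℝ) ^ k) with h | h
    · exact absurd h hne
    · exact h

/-- a coordinate which is almost linear -/
theorem iso_int [DecidableEq σ] (φ : (σ → ℚ_[p]) → ℚ_[p]) (a : σ → ℚ_[p]) (r : ℝ) (hr : 0 < r)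
    (l : σ → ℚ_[p]) (i : σ) (hl0 : l i ≠ 0) (hl : ∀ j, ‖l j‖ ≤ ‖l i‖)
    (h : ∀ x ∈ Metric.closedBall a r, ∀ y ∈ Metric.closedBall a r, x ≠ y →
      ‖φ x - φ y - ∑ j, l j * (x j - y j)‖ < ‖l i‖ * ‖x - y‖) (s : ℝ) :
    ∫⁻ x in Metric.closedBall a r, ENNReal.ofReal (‖φ x‖ ^ s) ∂(muE p σ) =
      ∫⁻ y in Metric.closedBall a r, ENNReal.ofReal (‖φ a + l i * (y i - a i)‖ ^ s) ∂(muE p σ) := by
  set G : (σ → ℚ_[p]) → σ → ℚ_[p] := fun x => Function.update x i (a i + (φ x - φ a) / l i) with hG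
  have hGa : G a = a := by
    simp only [hG, sub_self, zero_div, add_zero, Function.update_eq_self]
  have hli : 0 < ‖l i‖ := norm_pos_iff.2 hl0
  have hiso : ∀ x ∈ Metric.closedBall a r, ∀ y ∈ Metric.closedBall a r,
      ‖G x - G y‖ = ‖x - y‖ := by
    intro x hx y hy
    rcases eq_or_ne x y with rfl | hne
    · rw [sub_self, sub_self]
    have h1 := h x hx y hy hne
    have hpos : 0 < ‖x - y‖ := norm_pos_iff.2 (sub_ne_zero.2 hne)
    -- the i-th coordinate
    have hGi : (G x - G y) i = (φ x - φ y) / l i := by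
      simp only [hG, Pi.sub_apply, Function.update_self]
      rw [add_sub_add_left_eq_sub, ← sub_div]
      congr 1
      ring
    have hGj : ∀ j, j ≠ i → (G x - G y) j = x j - y j := by
      intro j hj
      simp only [hG, Pi.sub_apply, Function.update_of_ne hj]
    set ρ := φ x - φ y - ∑ j, l j * (x j - y j) with hρ
    have hρ1 : ‖ρ / l i‖ < ‖x - y‖ := by
      rw [norm_div, div_lt_iff₀ hli, mul_comm]
      exact h1
    have hdec : (φ x - φ y) / l i = (x i - y i) + (∑ j ∈ Finset.univ.erase i,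
        l j / l i * (x j - y j) + ρ / l i) := by
      have h2 : φ x - φ y = ρ + (l i * (x i - y i) + ∑ j ∈ Finset.univ.erase i,
          l j * (x j - y j)) := by
        rw [Finset.add_sum_erase Finset.univ (fun j => l j * (x j - y j)) (Finset.mem_univ i), hρ]
        ring
      rw [h2, add_div, add_div, mul_div_cancel_left₀ _ hl0, Finset.sum_div]
      have h3 : ∀ j, l j * (x j - y j) / l i = l j / l i * (x j - y j) := fun j => by ring
      simp only [h3]
      ring
    have hterm : ∀ j, ‖l j / l i * (x j - y j)‖ ≤ ‖x j - y j‖ := by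
      intro j
      rw [norm_mul, norm_div]
      have : ‖l j‖ / ‖l i‖ ≤ 1 := (div_le_one hli).2 (hl j)
      have h4 := norm_nonneg (x j - y j)
      nlinarith
    have hxj : ∀ j, ‖x j - y j‖ ≤ ‖x - y‖ := fun j => norm_le_pi_norm (x - y) j
    apply le_antisymm
    · refine (pi_norm_le_iff_of_nonneg hpos.le).2 fun j => ?_
      by_cases hj : j = i
      · subst hj
        rw [hGi, hdec]
        refine (IsUltrametricDist.norm_add_le_max _ _).trans (max_le (hxj j) ?_)
        refine (IsUltrametricDist.norm_add_le_max _ _).trans (max_le ?_ hρ1.le)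
        exact IsUltrametricDist.norm_sum_le_of_forall_le_of_nonneg hpos.le
          fun k _ => (hterm k).trans (hxj k)
      · rw [hGj j hj]
        exact hxj j
    · by_cases hj : ∃ j, j ≠ i ∧ ‖x j - y j‖ = ‖x - y‖
      · obtain ⟨j, hj, h2⟩ := hj
        rw [← h2, ← hGj j hj]
        exact norm_le_pi_norm (G x - G y) j
      · push Not at hj
        have h2 : ∀ j, j ≠ i → ‖x j - y j‖ < ‖x - y‖ := fun j hj' =>
          lt_of_le_of_ne (hxj j) (hj j hj')
        have h3 : ‖x i - y i‖ = ‖x - y‖ := by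
          have hne' : Nonempty σ := ⟨i⟩
          obtain ⟨j, hj'⟩ := norm_attained (x - y)
          by_cases hji : j = i
          · subst hji
            exact hj'.symm
          · exact absurd hj'.symm (h2 j hji).ne
        have h4 : ‖∑ j ∈ Finset.univ.erase i, l j / l i * (x j - y j) + ρ / l i‖ < ‖x - y‖ := by
          refine lt_of_le_of_lt (IsUltrametricDist.norm_add_le_max _ _) (max_lt ?_ hρ1)
          rcases (Finset.univ.erase i).eq_empty_or_nonempty with h5 | h5
          · rw [h5, Finset.sum_empty, norm_zero]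
            exact hpos
          · obtain ⟨j, hj', h6⟩ := IsUltrametricDist.exists_norm_finsetSum_le_of_nonempty h5
              (fun j => l j / l i * (x j - y j))
            exact lt_of_le_of_lt (h6.trans (hterm j)) (h2 j (Finset.ne_of_mem_erase hj'))
        have h5 : ‖(G x - G y) i‖ = ‖x - y‖ := by
          rw [hGi, hdec, IsUltrametricDist.norm_add_eq_max_of_norm_ne_norm (by rw [h3]; exact h4.ne'),
            h3, max_eq_left h4.le]
        rw [← h5]
        exact norm_le_pi_norm (G x - G y) i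
  obtain ⟨hGB, hGV⟩ := Pool.Agent.Q210.QP.qp_iso p G a r hr hGa hiso
  obtain ⟨-, hint⟩ := hGV _ subset_rfl (co_ball a hr)
  have hm : Measurable fun y : σ → ℚ_[p] => ENNReal.ofReal (‖φ a + l i * (y i - a i)‖ ^ s) := by
    refine ENNReal.measurable_ofReal.comp (Measurable.pow_const ?_ s)
    refine (Continuous.norm ?_).measurable
    exact continuous_const.add (continuous_const.mul ((continuous_apply i).sub continuous_const))
  have h1 := hint _ hm
  rw [hGB] at h1
  rw [← h1]
  refine lintegral_congr fun x => ?_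
  have h2 : l i * (G x i - a i) = φ x - φ a := by
    simp only [hG, Function.update_self, add_sub_cancel_left]
    rw [mul_div_cancel₀ _ hl0]
  rw [h2, add_sub_cancel]

/-- translations in one coordinate -/
theorem shift_int [DecidableEq σ] (a : σ → ℚ_[p]) (r : ℝ) (hr : 0 < r) (l : ℚ_[p]) (hl : l ≠ 0)
    (i : σ) (c c' : ℚ_[p]) (h : ‖c' - c‖ ≤ ‖l‖ * r) (s : ℝ) :
    ∫⁻ y in Metric.closedBall a r, ENNReal.ofReal (‖c' + l * (y i - a i)‖ ^ s) ∂(muE p σ) =
      ∫⁻ y in Metric.closedBall a r, ENNReal.ofReal (‖c + l * (y i - a i)‖ ^ s) ∂(muE p σ) := by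
  set t : σ → ℚ_[p] := Pi.single i ((c' - c) / l) with ht
  have htn : ‖t‖ ≤ r := by
    rw [ht]
    refine (pi_norm_le_iff_of_nonneg hr.le).2 fun j => ?_
    by_cases hj : j = i
    · subst hj
      rw [Pi.single_eq_same, norm_div, div_le_iff₀ (norm_pos_iff.2 hl), mul_comm]
      exact h
    · rw [Pi.single_eq_of_ne hj, norm_zero]
      exact hr.le
  have hB : MeasurableSet (Metric.closedBall a r) := co_meas (co_ball a hr)
  rw [← lintegral_indicator hB, ← lintegral_indicator hB,
    ← lintegral_add_right_eq_self (μ := muE p σ) ((Metric.closedBall a r).indicator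
      fun y => ENNReal.ofReal (‖c + l * (y i - a i)‖ ^ s)) t]
  refine lintegral_congr fun y => ?_
  have hmem : y + t ∈ Metric.closedBall a r ↔ y ∈ Metric.closedBall a r := by
    rw [Metric.mem_closedBall, Metric.mem_closedBall, dist_eq_norm, dist_eq_norm]
    have e : y + t - a = (y - a) + t := by abel
    rw [e]
    constructor
    · intro h1
      have h2 : y - a = (y - a + t) + -t := by abel
      rw [h2]
      refine (IsUltrametricDist.norm_add_le_max _ _).trans (max_le h1 ?_)
      rw [norm_neg]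
      exact htn
    · intro h1
      exact (IsUltrametricDist.norm_add_le_max _ _).trans (max_le h1 htn)
  by_cases hy : y ∈ Metric.closedBall a r
  · rw [Set.indicator_of_mem hy, Set.indicator_of_mem (hmem.2 hy)]
    congr 3
    rw [Pi.add_apply, ht, Pi.single_eq_same]
    field_simp
    ring
  · rw [Set.indicator_of_notMem hy, Set.indicator_of_notMem fun h1 => hy (hmem.1 h1)]

/-- the integrals over `V` do not change under small perturbations -/
def Stb (G : (σ → ℚ_[p]) → ℚ_[p]) (V : Set (σ → ℚ_[p])) : Prop :=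
  ∃ ε : ℝ, 0 < ε ∧ ∀ e : (σ → ℚ_[p]) → ℚ_[p], (∀ x ∈ V, ‖e x‖ ≤ ε) →
    (∀ x ∈ V, ∀ y ∈ V, ‖e x - e y‖ ≤ ε * ‖x - y‖) → ∀ s : ℝ,
      ∫⁻ x in V, ENNReal.ofReal (‖G x + e x‖ ^ s) ∂(muE p σ) =
        ∫⁻ x in V, ENNReal.ofReal (‖G x‖ ^ s) ∂(muE p σ)

/-- **Stability.** -/
theorem stb (g : MvPolynomial σ ℚ_[p]) (V : Set (σ → ℚ_[p])) (hV : CO V)
    (h : ∀ x ∈ V, eval x g ≠ 0 ∨ ∃ i, eval x (pderiv i g) ≠ 0) :
    Stb (fun x => eval x g) V := by
  classical
  refine co_ind (Stb fun x => eval x g) ?_ ?_ V hV fun P hP => ?_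
  · exact ⟨1, one_pos, fun e _ _ s => by simp⟩
  · rintro V W hV hW hd ⟨ε, hε, h1⟩ ⟨δ, hδ, h2⟩
    refine ⟨min ε δ, lt_min hε hδ, fun e he hl s => ?_⟩
    rw [lintegral_union (co_meas hW) hd, lintegral_union (co_meas hW) hd,
      h1 e (fun x hx => (he x (Or.inl hx)).trans (min_le_left _ _)) (fun x hx y hy =>
        (hl x (Or.inl hx) y (Or.inl hy)).trans (mul_le_mul_of_nonneg_right (min_le_left _ _)
          (norm_nonneg _))) s,
      h2 e (fun x hx => (he x (Or.inr hx)).trans (min_le_right _ _)) (fun x hx y hy =>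
        (hl x (Or.inr hx) y (Or.inr hy)).trans (mul_le_mul_of_nonneg_right (min_le_right _ _)
          (norm_nonneg _))) s]
  · by_cases h0 : eval P g = 0
    swap
    · -- the polynomial does not vanish
      refine ⟨{x | ‖eval x g - eval P g‖ < ‖eval P g‖}, ?_, ?_, fun a k hak => ?_⟩
      · exact isOpen_lt (((MvPolynomial.continuous_eval g).sub continuous_const).norm)
          continuous_const
      · rw [Set.mem_setOf_eq, sub_self, norm_zero]
        exact norm_pos_iff.2 h0
      · refine ⟨‖eval P g‖ / 2, half_pos (norm_pos_iff.2 h0), fun e he _ s => ?_⟩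
        refine setLIntegral_congr_fun (co_meas (co_ball a (zpow_pos pR0 k))) fun x hx => ?_
        have h1 : ‖eval x g - eval P g‖ < ‖eval P g‖ := hak hx
        have h2 : ‖eval x g‖ = ‖eval P g‖ := by
          have e1 : eval x g = eval P g + (eval x g - eval P g) := by ring
          rw [e1, IsUltrametricDist.norm_add_eq_max_of_norm_ne_norm h1.ne', max_eq_left h1.le]
        have h3 : ‖e x‖ < ‖eval x g‖ := by
          rw [h2]
          refine lt_of_le_of_lt (he x hx) ?_
          have := norm_pos_iff.2 h0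
          linarith
        show ENNReal.ofReal (‖eval x g + e x‖ ^ s) = ENNReal.ofReal (‖eval x g‖ ^ s)
        rw [IsUltrametricDist.norm_add_eq_max_of_norm_ne_norm h3.ne', max_eq_left h3.le]
    · obtain ⟨i1, hi1⟩ := (h P hP).resolve_left (not_not.2 h0)
      have hne : Nonempty σ := ⟨i1⟩
      obtain ⟨i, hi⟩ := Finite.exists_max fun j => ‖eval P (pderiv j g)‖
      set l : σ → ℚ_[p] := fun j => eval P (pderiv j g) with hldef
      have hl0 : l i ≠ 0 := by
        intro h1
        have h2 := hi i1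
        have h3 : ‖eval P (pderiv i g)‖ = 0 := by
          rw [← norm_zero (E := ℚ_[p]), ← h1]
        rw [h3] at h2
        exact hi1 (norm_le_zero_iff.1 h2)
      have hli : 0 < ‖l i‖ := norm_pos_iff.2 hl0
      have hd := (Pool.Agent.Q210.QP.qp_eval p g P).isLittleO.def (half_pos hli)
      rw [Filter.eventually_iff_exists_mem] at hd
      obtain ⟨v, hv, hv2⟩ := hd
      rw [nhds_prod_eq, Filter.mem_prod_same_iff] at hv
      obtain ⟨t, ht, htv⟩ := hv
      obtain ⟨U, hUt, hU, hPU⟩ := mem_nhds_iff.1 ht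
      refine ⟨U, hU, hPU, fun a k hak => ?_⟩
      have hr : 0 < (p : ℝ) ^ k := zpow_pos pR0 k
      have hlin : ∀ x ∈ Metric.closedBall a ((p : ℝ) ^ k), ∀ y ∈ Metric.closedBall a ((p : ℝ) ^ k),
          ‖eval x g - eval y g - ∑ j, l j * (x j - y j)‖ ≤ ‖l i‖ / 2 * ‖x - y‖ := by
        intro x hx y hy
        have h1 := hv2 (x, y) (htv ⟨hUt (hak hx), hUt (hak hy)⟩)
        have e1 : (∑ i, eval P (pderiv i g) •
            (ContinuousLinearMap.proj i : (σ → ℚ_[p]) →L[ℚ_[p]] ℚ_[p])) (x - y) =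
            ∑ j, l j * (x j - y j) := by
          rw [_root_.sum_apply]
          rfl
        rw [← e1]
        exact h1
      have key : ∀ e : (σ → ℚ_[p]) → ℚ_[p],
          (∀ x ∈ Metric.closedBall a ((p : ℝ) ^ k), ∀ y ∈ Metric.closedBall a ((p : ℝ) ^ k),
            ‖e x - e y‖ ≤ ‖l i‖ / 2 * ‖x - y‖) → ∀ s : ℝ,
          ∫⁻ x in Metric.closedBall a ((p : ℝ) ^ k),
            ENNReal.ofReal (‖eval x g + e x‖ ^ s) ∂(muE p σ) =
          ∫⁻ y in Metric.closedBall a ((p : ℝ) ^ k),
            ENNReal.ofReal (‖eval a g + e a + l i * (y i - a i)‖ ^ s) ∂(muE p σ) := by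
        intro e he s
        refine iso_int (fun x => eval x g + e x) a _ hr l i hl0 hi (fun x hx y hy hxy => ?_) s
        have hpos : 0 < ‖x - y‖ := norm_pos_iff.2 (sub_ne_zero.2 hxy)
        have e1 : eval x g + e x - (eval y g + e y) - ∑ j, l j * (x j - y j) =
            (eval x g - eval y g - ∑ j, l j * (x j - y j)) + (e x - e y) := by ring
        rw [e1]
        refine lt_of_le_of_lt ((IsUltrametricDist.norm_add_le_max _ _).trans
          (max_le (hlin x hx y hy) (he x hx y hy))) ?_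
        have : 0 < ‖l i‖ * ‖x - y‖ := mul_pos hli hpos
        linarith
      refine ⟨min (‖l i‖ / 2) (‖l i‖ * (p : ℝ) ^ k), lt_min (half_pos hli) (mul_pos hli hr),
        fun e he hle s => ?_⟩
      have k1 := key e (fun x hx y hy => (hle x hx y hy).trans
        (mul_le_mul_of_nonneg_right (min_le_left _ _) (norm_nonneg _))) s
      have k2 := key (fun _ => 0) (fun x hx y hy => by
        rw [sub_self, norm_zero]
        positivity) s
      simp only [add_zero] at k2
      rw [k1]
      show _ = ∫⁻ x in Metric.closedBall a ((p : ℝ) ^ k),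
        ENNReal.ofReal (‖eval x g‖ ^ s) ∂(muE p σ)
      rw [k2]
      refine shift_int a _ hr (l i) hl0 i (eval a g) (eval a g + e a) ?_ s
      rw [add_sub_cancel_left]
      exact (he a (Metric.mem_closedBall_self hr.le)).trans (min_le_right _ _)

end Pool.Agent.H940.R
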