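import Pool.Agent.H940.R.LinK

set_option autoImplicit false
set_option linter.unusedSectionVars false
set_option linter.unusedVariables false

/-! # Rational linear vector fields of a rational form -/

namespace Pool.Agent.H940.R.LK

open MvPolynomial

variable {m : ℕ}

/-- a basis of eigenvectors -/
theorem eig_basis {K : Type} [Field K] (S : Module.End K (Fin m → K))
    (htop : ⨆ μ, S.eigenspace μ = ⊤) : ∃ (Y Z : Matrix (Fin m) (Fin m) K) (lam : Fin m → K),
      Y * Z = 1 ∧ Z * Y = 1 ∧ (∀ i, S (Y i) = lam i • Y i) ∧ ∑ i, lam i = LinearMap.trace K _ S := by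
  classical
  have hint := DirectSum.isInternal_submodule_of_iSupIndep_of_iSup_eq_top
    S.eigenspaces_iSupIndep htop
  set B := hint.collectedBasis fun μ => Module.Free.chooseBasis K (S.eigenspace μ) with hB
  have : Finite (Σ μ : K, Module.Free.ChooseBasisIndex K (S.eigenspace μ)) :=
    Module.Finite.finite_basis B
  have := Fintype.ofFinite (Σ μ : K, Module.Free.ChooseBasisIndex K (S.eigenspace μ))
  have hcard : Fintype.card (Σ μ : K, Module.Free.ChooseBasisIndex K (S.eigenspace μ)) = m := by
    rw [← Module.finrank_eq_card_basis B, Module.finrank_fin_fun]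
  set e := Fintype.equivFinOfCardEq hcard with he
  set b := B.reindex e with hb
  set lam : Fin m → K := fun j => (e.symm j).1 with hlam
  have hSb : ∀ j, S (b j) = lam j • b j := by
    intro j
    have h1 : b j ∈ S.eigenspace (lam j) := by
      rw [hb, Module.Basis.reindex_apply]
      exact hint.collectedBasis_mem _ _
    exact Module.End.mem_eigenspace_iff.1 h1
  set Y : Matrix (Fin m) (Fin m) K := fun j => b j with hY
  obtain ⟨Z, hYZ, hZY⟩ : ∃ Z : Matrix (Fin m) (Fin m) K, Y * Z = 1 ∧ Z * Y = 1 := by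
    have h1 : LinearIndependent K Y.row := b.linearIndependent
    have h2 : IsUnit Y := Matrix.linearIndependent_rows_iff_isUnit.1 h1
    obtain ⟨Z, h3, h4⟩ := isUnit_iff_exists.1 h2
    exact ⟨Z, h3, h4⟩
  refine ⟨Y, Z, lam, hYZ, hZY, hSb, ?_⟩
  rw [LinearMap.trace_eq_matrix_trace K b, Matrix.trace]
  refine Finset.sum_congr rfl fun i _ => ?_
  rw [Matrix.diag_apply, LinearMap.toMatrix_apply, hSb, map_smul, Finsupp.smul_apply,
    Module.Basis.repr_self, Finsupp.single_eq_same, smul_eq_mul, mul_one]

/-- diagonalizable maps -/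
theorem top_of_prod {K : Type} [Field K] (S : Module.End K (Fin m → K)) (C : Finset K)
    (h : Polynomial.aeval S (∏ c ∈ C, (Polynomial.X - Polynomial.C c)) = 0) :
    ⨆ μ, S.eigenspace μ = ⊤ := by
  classical
  have h1 : ∀ C : Finset K, LinearMap.ker (Polynomial.aeval S
      (∏ c ∈ C, (Polynomial.X - Polynomial.C c))) ≤ ⨆ μ, S.eigenspace μ := by
    intro C
    induction C using Finset.induction_on with
    | empty =>
      rw [Finset.prod_empty, map_one]
      intro x hx
      rw [LinearMap.mem_ker, Module.End.one_apply] at hx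
      rw [hx]
      exact Submodule.zero_mem _
    | insert a C ha ih =>
      rw [Finset.prod_insert ha, ← Polynomial.sup_ker_aeval_eq_ker_aeval_mul_of_coprime]
      · refine sup_le ?_ ih
        refine le_trans (fun x hx => ?_) (le_iSup _ a)
        rw [LinearMap.mem_ker, map_sub, Polynomial.aeval_X, Polynomial.aeval_C,
          LinearMap.sub_apply, Module.algebraMap_end_apply, sub_eq_zero] at hx
        exact Module.End.mem_eigenspace_iff.2 hx
      · refine IsCoprime.prod_right fun c hc => ?_
        have hac : a ≠ c := fun h2 => ha (by rw [h2]; exact hc)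
        exact Polynomial.isCoprime_X_sub_C_of_isUnit_sub (sub_ne_zero.2 hac).isUnit
  have h2 := h1 C
  rw [h, LinearMap.ker_zero] at h2
  exact top_le_iff.1 h2

/-! ### The extension of the field -/

/-- the algebraic closure of the rational numbers -/
abbrev Qb : Type := AlgebraicClosure ℚ

/-- the extension of an endomorphism -/
noncomputable def ext : Module.End ℚ (Fin m → ℚ) →+* Module.End Qb (Fin m → Qb) :=
  (Matrix.toLinAlgEquiv' : Matrix (Fin m) (Fin m) Qb ≃ₐ[Qb] Module.End Qb (Fin m → Qb)).toRingEquiv.toRingHom.comp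
    ((algebraMap ℚ Qb).mapMatrix.comp
      (LinearMap.toMatrixAlgEquiv' :
        Module.End ℚ (Fin m → ℚ) ≃ₐ[ℚ] Matrix (Fin m) (Fin m) ℚ).toRingEquiv.toRingHom)

theorem ext_def (S : Module.End ℚ (Fin m → ℚ)) :
    ext S = Matrix.toLin' ((LinearMap.toMatrix' S).map (algebraMap ℚ Qb)) := rfl

theorem ext_inj : Function.Injective (ext (m := m)) := by
  intro S T h
  rw [ext_def, ext_def] at h
  have h1 := Matrix.toLin'.injective h
  have h2 := Matrix.map_injective (algebraMap ℚ Qb).injective h1
  exact LinearMap.toMatrix'.injective h2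

theorem ext_aeval (S : Module.End ℚ (Fin m → ℚ)) (P : Polynomial ℚ) :
    ext (Polynomial.aeval S P) = Polynomial.aeval (ext S) (P.map (algebraMap ℚ Qb)) := by
  rw [Polynomial.aeval_def, Polynomial.aeval_def, Polynomial.hom_eval₂, Polynomial.eval₂_map]
  congr 1
  exact RingHom.ext_rat _ _

theorem ext_single (S : Module.End ℚ (Fin m → ℚ)) (i : Fin m) :
    ext S (Pi.single i 1) = fun j => algebraMap ℚ Qb (S (Pi.single i 1) j) := by
  rw [ext_def, Matrix.toLin'_apply, Matrix.mulVec_single_one]
  funext j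
  rw [Matrix.col_apply, Matrix.map_apply, LinearMap.toMatrix'_apply]

theorem map_lf (c : Fin m → ℚ) : map (algebraMap ℚ Qb) (lf c) =
    lf fun j => algebraMap ℚ Qb (c j) := by
  rw [lf_apply, lf_apply, map_sum]
  refine Finset.sum_congr rfl fun i _ => ?_
  rw [map_mul, map_C, map_X]

theorem map_Dl (S : Module.End ℚ (Fin m → ℚ)) (f : MvPolynomial (Fin m) ℚ) :
    map (algebraMap ℚ Qb) (Dl S f) = Dl (ext S) (map (algebraMap ℚ Qb) f) := by
  induction f using MvPolynomial.induction_on with
  | C a => rw [derivation_C, map_zero, map_C, derivation_C]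
  | add p q hp hq => rw [map_add, map_add, hp, hq, map_add, map_add]
  | mul_X p i hp =>
    rw [Derivation.leibniz, map_mul, map_X, Derivation.leibniz, map_add, smul_eq_mul, smul_eq_mul,
      smul_eq_mul, smul_eq_mul, map_mul, map_mul, hp, Dl_X, Dl_X, map_lf, ext_single, map_X]

theorem map_Dl_iter (S : Module.End ℚ (Fin m → ℚ)) (k : ℕ) (f : MvPolynomial (Fin m) ℚ) :
    map (algebraMap ℚ Qb) ((⇑(Dl S))^[k] f) = (⇑(Dl (ext S)))^[k] (map (algebraMap ℚ Qb) f) := by
  induction k generalizing f with
  | zero => rfl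
  | succ k ih => rw [Function.iterate_succ_apply, ih, map_Dl, ← Function.iterate_succ_apply]

theorem trace_ext (S : Module.End ℚ (Fin m → ℚ)) :
    LinearMap.trace Qb _ (ext S) = algebraMap ℚ Qb (LinearMap.trace ℚ _ S) := by
  rw [ext_def, Matrix.trace_toLin'_eq, Matrix.trace]
  conv_rhs => rw [← Matrix.toLin'_toMatrix' S, Matrix.trace_toLin'_eq, Matrix.trace, map_sum]
  rfl

theorem ext_top {S : Module.End ℚ (Fin m → ℚ)} (hS : S.IsSemisimple) :
    ⨆ μ, (ext S).eigenspace μ = ⊤ := by
  have h1 : (minpoly ℚ S).Separable := by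
    rw [PerfectField.separable_iff_squarefree]
    exact hS.minpoly_squarefree
  have h2 : Squarefree ((minpoly ℚ S).map (algebraMap ℚ Qb)) :=
    (Polynomial.Separable.map h1).squarefree
  have h3 : Polynomial.aeval (ext S) ((minpoly ℚ S).map (algebraMap ℚ Qb)) = 0 := by
    rw [← ext_aeval, minpoly.aeval, map_zero]
  exact (Module.End.isSemisimple_of_squarefree_aeval_eq_zero h2 h3).iSup_eigenspace_eq_top

/-! ### The normalized trace -/

instance : Algebra.IsIntegral ℚ Qb := by
  have := AlgebraicClosure.isAlgebraic ℚ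
  constructor
  intro x
  exact (this.isAlgebraic x).isIntegral

/-- the normalized trace -/
noncomputable def nt : Qb →ₗ[ℚ] ℚ := Algebra.normalizedTrace ℚ Qb

theorem nt_rat (a : ℚ) : nt (algebraMap ℚ Qb a) = a :=
  Algebra.normalizedTrace_algebraMap_apply_eq_self ℚ Qb a

theorem nt_minpoly {a b : Qb} (h : minpoly ℚ a = minpoly ℚ b) : nt a = nt b := by
  unfold nt
  rw [Algebra.normalizedTrace_minpoly, Algebra.normalizedTrace_minpoly, h]

/-- interpolation of the normalized trace by a rational polynomial -/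
theorem interp (s : Finset Qb) : ∃ P : Polynomial ℚ, ∀ a ∈ s,
    Polynomial.aeval a P = algebraMap ℚ Qb (nt a) := by
  classical
  set S := s.image fun a => minpoly ℚ a with hS
  have hex : ∀ P : S, ∃ a ∈ s, minpoly ℚ a = P.1 := fun P => Finset.mem_image.1 P.2
  choose A hA1 hA2 using hex
  have hI : Pairwise (Function.onFun IsCoprime fun P : S => Ideal.span {P.1}) := by
    intro P Q hPQ
    have ha := minpoly.irreducible (Algebra.IsIntegral.isIntegral (R := ℚ) (A P))
    have hb := minpoly.irreducible (Algebra.IsIntegral.isIntegral (R := ℚ) (A Q))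
    have hcop : IsCoprime (minpoly ℚ (A P)) (minpoly ℚ (A Q)) := by
      rw [ha.coprime_iff_not_dvd]
      intro hdvd
      apply hPQ
      rw [Subtype.ext_iff, ← hA2, ← hA2]
      exact Polynomial.eq_of_monic_of_associated
        (minpoly.monic (Algebra.IsIntegral.isIntegral (R := ℚ) (A P)))
        (minpoly.monic (Algebra.IsIntegral.isIntegral (R := ℚ) (A Q)))
        (ha.associated_of_dvd hb hdvd)
    rw [hA2, hA2] at hcop
    exact (Ideal.isCoprime_span_singleton_iff _ _).2 hcop
  obtain ⟨P, hP⟩ := Ideal.exists_forall_sub_mem_ideal hI fun Q => Polynomial.C (nt (A Q))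
  refine ⟨P, fun a ha => ?_⟩
  have h1 := hP ⟨minpoly ℚ a, Finset.mem_image_of_mem _ ha⟩
  obtain ⟨R, hR⟩ := Ideal.mem_span_singleton'.1 h1
  have h2 := congrArg (Polynomial.aeval a) hR
  rw [map_mul, minpoly.aeval, mul_zero, map_sub, Polynomial.aeval_C] at h2
  rw [← sub_eq_zero, h2]
  congr 2
  exact (nt_minpoly (hA2 _)).symm

end Pool.Agent.H940.R.LK
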