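import Pool.Agent.H940.R.Tor

set_option autoImplicit false
set_option linter.unusedSectionVars false
set_option linter.unusedVariables false

/-! # Rational coordinates and integer weights -/

namespace Pool.Agent.H940.R.LK

open MvPolynomial

variable {m : ℕ}

theorem trace_eig {K : Type} [Field K] (S : Module.End K (Fin m → K))
    {Y Z : Matrix (Fin m) (Fin m) K} (hYZ : Y * Z = 1) (lam : Fin m → K)
    (h : ∀ i, S (Y i) = lam i • Y i) : LinearMap.trace K _ S = ∑ i, lam i := by
  set M := LinearMap.toMatrix' S with hM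
  have hS : S = Matrix.toLin' M := (Matrix.toLin'_toMatrix' S).symm
  have h1 : M * Y.transpose = Y.transpose * Matrix.diagonal lam := by
    ext j i
    rw [Matrix.mul_diagonal, Matrix.mul_apply]
    have h2 := congrFun (h i) j
    rw [hS, Matrix.toLin'_apply] at h2
    simp only [Matrix.transpose_apply]
    rw [Pi.smul_apply, smul_eq_mul, mul_comm] at h2
    exact h2
  have h2 : Y.transpose * Z.transpose = 1 := by
    rw [← Matrix.transpose_mul, mul_eq_one_comm.1 hYZ, Matrix.transpose_one]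
  have h3 : M = Y.transpose * Matrix.diagonal lam * Z.transpose := by
    rw [← h1, Matrix.mul_assoc, h2, Matrix.mul_one]
  rw [hS, Matrix.trace_toLin'_eq, h3, Matrix.trace_mul_comm, ← Matrix.mul_assoc,
    mul_eq_one_comm.1 h2, Matrix.one_mul, Matrix.trace_diagonal]

theorem zero_of_rows {K : Type} [Field K] (S : Module.End K (Fin m → K))
    {Y Z : Matrix (Fin m) (Fin m) K} (hZY : Z * Y = 1) (h : ∀ i, S (Y i) = 0) : S = 0 := by
  refine LinearMap.ext fun x => ?_
  have h1 : x = ∑ i, (Matrix.vecMul x Z) i • Y i := by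
    have h2 : Matrix.vecMul (Matrix.vecMul x Z) Y = x := by
      rw [Matrix.vecMul_vecMul, hZY, Matrix.vecMul_one]
    conv_lhs => rw [← h2]
    funext j
    rw [Finset.sum_apply]
    rfl
  rw [h1, map_sum, LinearMap.zero_apply]
  exact Finset.sum_eq_zero fun i _ => by rw [map_smul, h, smul_zero]

theorem El_zero {K : Type} [Field K] {lam : Fin m → K} {g : MvPolynomial (Fin m) K}
    (h : ∀ α ∈ g.support, ∑ i, (α i : K) * lam i = 0) : El lam g = 0 := by
  ext α
  rw [coeff_El, coeff_zero]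
  by_cases hα : α ∈ g.support
  · rw [h α hα, zero_mul]
  · rw [notMem_support_iff.1 hα, mul_zero]

/-- **Rational coordinates.** -/
theorem rat_coords (T : Module.End ℚ (Fin m → ℚ)) (f : MvPolynomial (Fin m) ℚ)
    (hf : Dl T f = 0) : ∃ (Y Z : Matrix (Fin m) (Fin m) ℚ) (lam : Fin m → ℚ), Y * Z = 1 ∧
      Z * Y = 1 ∧ ∑ i, lam i = LinearMap.trace ℚ _ T ∧
      ∀ α ∈ (sb Z f).support, ∑ i, (α i : ℚ) * lam i = 0 := by
  classical
  obtain ⟨N, hN, S, hS, hNn, hSs, hTN⟩ := T.exists_isNilpotent_isSemisimple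
  have hcom : N * S = S * N := by
    have h1 : Commute T N := Algebra.commute_of_mem_adjoin_self hN
    exact (Algebra.commute_of_mem_adjoin_singleton_of_commute hS h1.symm).eq
  have htr : LinearMap.trace ℚ _ T = LinearMap.trace ℚ _ S := by
    rw [hTN, map_add]
    have := (LinearMap.isNilpotent_trace_of_isNilpotent hNn).eq_zero
    rw [this, zero_add]
  obtain ⟨k, hk⟩ := Dl_nil hNn f
  have hk1 : (⇑(Dl S))^[k] f = 0 := by
    have h2 := Dl_alt hcom f (by rw [← hTN]; exact hf) k
    rw [hk] at h2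
    exact (smul_eq_zero.1 h2.symm).resolve_left (pow_ne_zero _ (neg_ne_zero.2 one_ne_zero))
  -- the eigenvectors over the algebraic closure
  set F := map (algebraMap ℚ Qb) f with hF
  have hk2 : (⇑(Dl (ext S)))^[k] F = 0 := by
    rw [hF, ← map_Dl_iter, hk1, map_zero]
  obtain ⟨Y1, Z1, lam1, hYZ1, hZY1, hS1, htr1⟩ := eig_basis (ext S) (ext_top hSs)
  set g1 := sb Z1 F with hg1
  have hFg : F = sb Y1 g1 := by
    rw [hg1, sb_sb, hZY1, sb_one]
  have hsup1 : ∀ α ∈ g1.support, ∑ i, (α i : Qb) * lam1 i = 0 := by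
    intro α hα
    rw [hFg, Dl_sb_iter hS1] at hk2
    have h2 : (⇑(El lam1))^[k] g1 = 0 := by
      have h3 := congrArg (sb Z1) hk2
      rw [sb_sb, hYZ1, sb_one, map_zero] at h3
      exact h3
    have h3 := coeff_El_iter lam1 k g1 α
    rw [h2, coeff_zero] at h3
    have h4 := (mul_eq_zero.1 h3.symm).resolve_right (mem_support_iff.1 hα)
    exact eq_zero_of_pow_eq_zero h4
  -- the averages
  obtain ⟨P, hP⟩ := interp (Finset.univ.image lam1)
  set mu : Fin m → ℚ := fun i => nt (lam1 i) with hmu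
  set S2 := Polynomial.aeval S P with hS2
  have hP' : ∀ i, (P.map (algebraMap ℚ Qb)).eval (lam1 i) = algebraMap ℚ Qb (mu i) := by
    intro i
    have h1 := hP (lam1 i) (Finset.mem_image_of_mem _ (Finset.mem_univ i))
    rw [Polynomial.eval_map]
    exact h1
  have hext : ∀ i, ext S2 (Y1 i) = algebraMap ℚ Qb (mu i) • Y1 i := by
    intro i
    rw [hS2, ext_aeval, Module.End.aeval_apply_of_mem_apply_eq_smul (hS1 i), hP']
  have hD0 : Dl S2 f = 0 := by
    apply map_injective _ (algebraMap ℚ Qb).injective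
    rw [map_Dl, map_zero, ← hF, hFg, Dl_sb hext, El_zero, map_zero]
    intro α hα
    have h1 := congrArg nt (hsup1 α hα)
    rw [map_sum, map_zero] at h1
    have h2 : ∀ i, nt ((α i : Qb) * lam1 i) = (α i : ℚ) * mu i := by
      intro i
      have h3 : ((α i : ℕ) : Qb) * lam1 i = ((α i : ℕ) : ℚ) • lam1 i := by
        rw [Algebra.smul_def, map_natCast]
      rw [h3, map_smul, smul_eq_mul]
    rw [Finset.sum_congr rfl fun i _ => h2 i] at h1
    have h3 := congrArg (algebraMap ℚ Qb) h1
    rw [map_sum, map_zero] at h3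
    rw [← h3]
    refine Finset.sum_congr rfl fun i _ => ?_
    rw [map_mul, map_natCast]
  -- a rational basis
  have htop : ⨆ c, S2.eigenspace c = ⊤ := by
    refine top_of_prod S2 (Finset.univ.image mu) ?_
    apply ext_inj
    rw [map_zero, ext_aeval]
    refine zero_of_rows _ hZY1 fun i => ?_
    rw [Module.End.aeval_apply_of_mem_apply_eq_smul (hext i), Polynomial.eval_map,
      Polynomial.eval₂_finset_prod,
      Finset.prod_eq_zero (Finset.mem_image_of_mem mu (Finset.mem_univ i)) (by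
        rw [Polynomial.eval₂_sub, Polynomial.eval₂_X, Polynomial.eval₂_C, sub_self]), zero_smul]
  obtain ⟨Y, Z, lam, hYZ, hZY, hSY, htr2⟩ := eig_basis S2 htop
  refine ⟨Y, Z, lam, hYZ, hZY, ?_, fun α hα => ?_⟩
  · rw [htr2, htr]
    have h1 := trace_eig (ext S2) hYZ1 _ hext
    have h2 := trace_eig (ext S) hYZ1 _ hS1
    rw [trace_ext] at h1 h2
    apply (algebraMap ℚ Qb).injective
    rw [h1, ← map_sum]
    congr 1
    rw [hmu, ← map_sum, ← h2, nt_rat]
  · set g := sb Z f with hg
    have hfg : f = sb Y g := by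
      rw [hg, sb_sb, hZY, sb_one]
    rw [hfg, Dl_sb hSY] at hD0
    have h3 := congrArg (sb Z) hD0
    rw [sb_sb, hYZ, sb_one, map_zero] at h3
    have h4 := coeff_El lam g α
    rw [h3, coeff_zero] at h4
    exact (mul_eq_zero.1 h4.symm).resolve_right (mem_support_iff.1 hα)

/-- **Integer weights.** -/
theorem rat_weights (lam : Fin m → ℚ) (hlam : ∑ i, lam i ≠ 0) (g : MvPolynomial (Fin m) ℚ)
    (h : ∀ α ∈ g.support, ∑ i, (α i : ℚ) * lam i = 0) :
    ∃ w : Fin m → ℤ, ∑ i, w i ≠ 0 ∧ ∀ α ∈ g.support, ∑ i, (α i : ℤ) * w i = 0 := by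
  classical
  set q : ℕ := ∏ i, (lam i).den with hq
  have hq0 : 0 < q := Finset.prod_pos fun i _ => (lam i).den_pos
  have h2 : ∀ i, ∃ w : ℤ, (w : ℚ) = q * lam i := by
    intro i
    obtain ⟨c, hc⟩ := Finset.dvd_prod_of_mem (fun i => (lam i).den) (Finset.mem_univ i)
    refine ⟨c * (lam i).num, ?_⟩
    rw [hq, hc]
    push_cast
    rw [← Rat.den_mul_eq_num]
    ring
  choose w hw using h2
  refine ⟨w, fun h5 => ?_, fun α hα => ?_⟩
  · apply hlam
    have h6 : ((∑ i, w i : ℤ) : ℚ) = q * ∑ i, lam i := by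
      push_cast
      rw [Finset.mul_sum]
      exact Finset.sum_congr rfl fun i _ => hw i
    rw [h5, Int.cast_zero] at h6
    exact (mul_eq_zero.1 h6.symm).resolve_left (by exact_mod_cast hq0.ne')
  · have h4 : ((∑ i, (α i : ℤ) * w i : ℤ) : ℚ) = 0 := by
      push_cast
      have h5 : ∑ i, (α i : ℚ) * (w i : ℚ) = q * ∑ i, (α i : ℚ) * lam i := by
        rw [Finset.mul_sum]
        exact Finset.sum_congr rfl fun i _ => by rw [hw]; ring
      rw [h5, h α hα, mul_zero]
    exact_mod_cast h4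

end Pool.Agent.H940.R.LK
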